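import Pool.Agent.H436.CW.Weak
import Pool.Agent.H436.CB.Fib
import Mathlib.Algebra.MvPolynomial.Funext

/-!
# Polynomials on fibre products of conic bundles (helper436)
-/

set_option autoImplicit false
set_option linter.unusedVariables false
set_option linter.unusedSectionVars false
set_option linter.deprecated false
set_option linter.unusedSimpArgs false

open Filter Topology Pool.Agent.Y720.MZ Pool.Agent.H436.CB

namespace Pool.Agent.H436.CW

section alg

variable {K : Type*} [Field K] [CharZero K]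

/-- clearing denominators -/
lemma clear_den {s I : Type*} (p q : s → MvPolynomial I K) (f : MvPolynomial s K) :
    ∃ Q G : MvPolynomial I K, ∀ m : I → K, (∀ t, MvPolynomial.eval m (q t) ≠ 0) →
      MvPolynomial.eval m Q ≠ 0 ∧ MvPolynomial.eval m G = MvPolynomial.eval m Q *
        MvPolynomial.eval (fun t => MvPolynomial.eval m (p t) / MvPolynomial.eval m (q t)) f := by
  induction f using MvPolynomial.induction_on with
  | C a => exact ⟨1, MvPolynomial.C a, fun m _ => by simp⟩
  | add f g hf hg =>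
    obtain ⟨Q₁, G₁, h₁⟩ := hf
    obtain ⟨Q₂, G₂, h₂⟩ := hg
    refine ⟨Q₁ * Q₂, G₁ * Q₂ + G₂ * Q₁, fun m hm => ?_⟩
    obtain ⟨a1, a2⟩ := h₁ m hm
    obtain ⟨b1, b2⟩ := h₂ m hm
    refine ⟨?_, ?_⟩
    · rw [map_mul]; exact mul_ne_zero a1 b1
    · simp only [map_add, map_mul, a2, b2]
      ring
  | mul_X f t hf =>
    obtain ⟨Q, G, h⟩ := hf
    refine ⟨Q * q t, G * p t, fun m hm => ?_⟩
    obtain ⟨a1, a2⟩ := h m hm
    refine ⟨?_, ?_⟩
    · rw [map_mul]; exact mul_ne_zero a1 (hm t)
    · simp only [map_mul, a2, MvPolynomial.eval_X]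
      have := hm t
      field_simp

/-- a rational function which vanishes on a large set vanishes -/
lemma rat_zero {s I : Type*} [Finite I] (p q : s → MvPolynomial I K) (f : MvPolynomial s K)
    {M : I → Set K} (hM : ∀ i, (M i).Infinite)
    (h : ∀ m : I → K, (∀ i, m i ∈ M i) → (∀ t, MvPolynomial.eval m (q t) ≠ 0) ∧
      MvPolynomial.eval (fun t => MvPolynomial.eval m (p t) / MvPolynomial.eval m (q t)) f = 0)
    {m : I → K} (hm : ∀ t, MvPolynomial.eval m (q t) ≠ 0) :
    MvPolynomial.eval (fun t => MvPolynomial.eval m (p t) / MvPolynomial.eval m (q t)) f = 0 := by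
  obtain ⟨Q, G, hQG⟩ := clear_den p q f
  have hG : G = 0 := by
    refine MvPolynomial.funext_set M hM fun m' hm' => ?_
    obtain ⟨h1, h2⟩ := h m' fun i => hm' i (Set.mem_univ i)
    rw [(hQG m' h1).2, h2, mul_zero, map_zero]
  obtain ⟨h1, h2⟩ := hQG m hm
  rw [hG, map_zero] at h2
  exact (mul_eq_zero.1 h2.symm).resolve_left h1

/-- the point of the conic -/
lemma conic_id {a c R₀ S₀ m : K} (h₀ : R₀ ^ 2 - a * S₀ ^ 2 = c) (hm : 1 - a * m ^ 2 ≠ 0) :
    ((R₀ * (1 + a * m ^ 2) + 2 * a * S₀ * m) / (1 - a * m ^ 2)) ^ 2 -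
      a * ((2 * R₀ * m + S₀ * (1 + a * m ^ 2)) / (1 - a * m ^ 2)) ^ 2 = c := by
  field_simp
  linear_combination (1 - a * m ^ 2) ^ 2 * h₀

/-- there are infinitely many points on the conic -/
lemma inf_pts {a c : K} (ha : a ≠ 0) (hc : c ≠ 0) (h : ∃ R S : K, R ^ 2 - a * S ^ 2 = c) :
    {w : K × K | w.1 ^ 2 - a * w.2 ^ 2 = c}.Infinite := by
  classical
  have : Infinite K := CharZero.infinite K
  obtain ⟨R₀, S₀, h₀⟩ := h
  have h1 : {m : K | 1 - a * m ^ 2 ≠ 0}.Infinite := by
    have hfin : {m : K | 1 - a * m ^ 2 = 0}.Finite := by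
      have hp : (1 - Polynomial.C a * Polynomial.X ^ 2 : Polynomial K) ≠ 0 := by
        intro h
        have := congrArg (Polynomial.eval 0) h
        simp at this
      refine (1 - Polynomial.C a * Polynomial.X ^ 2 : Polynomial K).roots.toFinset.finite_toSet.subset
        fun m hm => ?_
      rw [Finset.mem_coe, Multiset.mem_toFinset, Polynomial.mem_roots hp]
      simpa [Polynomial.IsRoot] using hm
    exact hfin.infinite_compl
  refine Set.infinite_of_injOn_mapsTo (f := fun m : K =>
    ((R₀ * (1 + a * m ^ 2) + 2 * a * S₀ * m) / (1 - a * m ^ 2),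
      (2 * R₀ * m + S₀ * (1 + a * m ^ 2)) / (1 - a * m ^ 2))) ?_ ?_ h1
  · intro m hm m' hm' hmm
    have hm1 : 1 - a * m ^ 2 ≠ 0 := hm
    have hm2 : 1 - a * m' ^ 2 ≠ 0 := hm'
    rw [Prod.mk.injEq] at hmm
    obtain ⟨e1, e2⟩ := hmm
    rw [div_eq_div_iff hm1 hm2] at e1 e2
    -- the norm one element
    have k1 : c * ((1 + a * m ^ 2) * (1 - a * m' ^ 2) - (1 + a * m' ^ 2) * (1 - a * m ^ 2)) = 0 := by
      rw [← h₀]
      linear_combination R₀ * e1 - a * S₀ * e2
    have k2 : c * (2 * m * (1 - a * m' ^ 2) - 2 * m' * (1 - a * m ^ 2)) = 0 := by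
      rw [← h₀]
      linear_combination R₀ * e2 - S₀ * e1
    have k3 := (mul_eq_zero.1 k1).resolve_left hc
    have k4 := (mul_eq_zero.1 k2).resolve_left hc
    have k5 : a * (m ^ 2 - m' ^ 2) = 0 := by
      have : (2 : K) ≠ 0 := two_ne_zero
      apply mul_left_cancel₀ this
      linear_combination k3
    have k6 : m ^ 2 = m' ^ 2 := sub_eq_zero.1 ((mul_eq_zero.1 k5).resolve_left ha)
    have k7 : 2 * (1 - a * m ^ 2) * (m - m') = 0 := by
      linear_combination k4 - 2 * a * m * (k6)
    exact sub_eq_zero.1 ((mul_eq_zero.1 k7).resolve_left (mul_ne_zero two_ne_zero hm1))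
  · intro m hm
    exact conic_id h₀ hm

/-- there are infinitely many ordinates -/
lemma inf_y {a c : K} (ha : a ≠ 0) (hc : c ≠ 0) (h : ∃ R S : K, R ^ 2 - a * S ^ 2 = c) :
    {y : K | ∃ x : K, x ≠ 0 ∧ x ^ 2 - a * y ^ 2 = c}.Infinite := by
  classical
  intro hfin
  apply inf_pts ha hc h
  have hsq : ∀ b : K, {x : K | x ^ 2 = b}.Finite := by
    intro b
    have hp : (Polynomial.X ^ 2 - Polynomial.C b : Polynomial K) ≠ 0 :=
      Polynomial.X_pow_sub_C_ne_zero (by norm_num) b
    refine (Polynomial.X ^ 2 - Polynomial.C b : Polynomial K).roots.toFinset.finite_toSet.subset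
      fun x hx => ?_
    rw [Finset.mem_coe, Multiset.mem_toFinset, Polynomial.mem_roots hp]
    simpa [Polynomial.IsRoot, sub_eq_zero] using hx
  have h1 : {w : K × K | w.1 ^ 2 - a * w.2 ^ 2 = c} ⊆
      (⋃ y ∈ {y : K | ∃ x : K, x ≠ 0 ∧ x ^ 2 - a * y ^ 2 = c},
        (fun x => (x, y)) '' {x : K | x ^ 2 = a * y ^ 2 + c}) ∪
      (fun y => (0, y)) '' {y : K | y ^ 2 = -c / a} := by
    rintro ⟨x, y⟩ hxy
    have hxy' : x ^ 2 - a * y ^ 2 = c := hxy
    by_cases hx : x = 0
    · right
      refine ⟨y, ?_, by rw [hx]⟩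
      rw [Set.mem_setOf_eq]
      rw [hx] at hxy'
      field_simp
      linear_combination -hxy'
    · left
      refine Set.mem_iUnion₂.2 ⟨y, ⟨x, hx, hxy'⟩, x, ?_, rfl⟩
      rw [Set.mem_setOf_eq]
      linear_combination hxy'
  exact ((Set.Finite.biUnion hfin fun y _ => (hsq _).image _).union ((hsq _).image _)).subset h1

end alg

section nf

variable {K : Type*} [Field K] [CharZero K] {α I : Type*} [DecidableEq α] [DecidableEq I]

/-- the polynomial has degree at most one in the abscissas -/
def MA (f : MvPolynomial (α ⊕ (I ⊕ I)) K) : Prop :=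
  ∀ (i : I) (u : α ⊕ (I ⊕ I) → K) (t : K),
    MvPolynomial.eval (Function.update u (Sum.inr (Sum.inl i)) t) f =
      MvPolynomial.eval (Function.update u (Sum.inr (Sum.inl i)) 0) f +
      t * (MvPolynomial.eval (Function.update u (Sum.inr (Sum.inl i)) 1) f -
        MvPolynomial.eval (Function.update u (Sum.inr (Sum.inl i)) 0) f)

/-- substitution of a value for a variable -/
noncomputable def sv (s : α ⊕ (I ⊕ I)) (b : K) (f : MvPolynomial (α ⊕ (I ⊕ I)) K) :
    MvPolynomial (α ⊕ (I ⊕ I)) K :=
  MvPolynomial.bind₁ (fun s' => if s' = s then MvPolynomial.C b else MvPolynomial.X s') f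

lemma eval_sv (s : α ⊕ (I ⊕ I)) (b : K) (f : MvPolynomial (α ⊕ (I ⊕ I)) K)
    (u : α ⊕ (I ⊕ I) → K) :
    MvPolynomial.eval u (sv s b f) = MvPolynomial.eval (Function.update u s b) f := by
  unfold sv
  induction f using MvPolynomial.induction_on with
  | C a => simp
  | add p q hp hq => simp only [map_add, hp, hq]
  | mul_X p i hp =>
    rw [map_mul, map_mul, hp, map_mul, MvPolynomial.bind₁_X_right, MvPolynomial.eval_X]
    by_cases hi : i = s
    · rw [if_pos hi, MvPolynomial.eval_C, hi, Function.update_self]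
    · rw [if_neg hi, MvPolynomial.eval_X, Function.update_of_ne hi]

/-- **Normal form.** -/
theorem exists_nf (A B : I → MvPolynomial α K) (f : MvPolynomial (α ⊕ (I ⊕ I)) K) :
    ∃ g : MvPolynomial (α ⊕ (I ⊕ I)) K, MA g ∧ ∀ u : α ⊕ (I ⊕ I) → K,
      (∀ i, u (Sum.inr (Sum.inl i)) ^ 2 - MvPolynomial.eval (fun j => u (Sum.inl j)) (A i) *
        u (Sum.inr (Sum.inr i)) ^ 2 = MvPolynomial.eval (fun j => u (Sum.inl j)) (B i)) →
      MvPolynomial.eval u g = MvPolynomial.eval u f := by
  induction f using MvPolynomial.induction_on with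
  | C a => exact ⟨MvPolynomial.C a, fun i u t => by simp, fun u _ => rfl⟩
  | add p q hp hq =>
    obtain ⟨g₁, m₁, h₁⟩ := hp
    obtain ⟨g₂, m₂, h₂⟩ := hq
    refine ⟨g₁ + g₂, fun i u t => ?_, fun u hu => ?_⟩
    · simp only [map_add]
      rw [m₁ i u t, m₂ i u t]
      ring
    · rw [map_add, map_add, h₁ u hu, h₂ u hu]
  | mul_X p s hp =>
    obtain ⟨g, m, h⟩ := hp
    by_cases hs : ∃ i, s = Sum.inr (Sum.inl i)
    · obtain ⟨i₀, rfl⟩ := hs
      obtain ⟨g0, hg0⟩ : ∃ g0, g0 = sv (Sum.inr (Sum.inl i₀)) 0 g := ⟨_, rfl⟩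
      obtain ⟨g1, hg1⟩ : ∃ g1, g1 = sv (Sum.inr (Sum.inl i₀)) 1 g := ⟨_, rfl⟩
      have e0 : ∀ u, MvPolynomial.eval u g0 =
          MvPolynomial.eval (Function.update u (Sum.inr (Sum.inl i₀)) 0) g := fun u => by
        rw [hg0, eval_sv]
      have e1 : ∀ u, MvPolynomial.eval u g1 =
          MvPolynomial.eval (Function.update u (Sum.inr (Sum.inl i₀)) 1) g := fun u => by
        rw [hg1, eval_sv]
      obtain ⟨c, hc⟩ : ∃ c : MvPolynomial (α ⊕ (I ⊕ I)) K, c =
        MvPolynomial.rename Sum.inl (A i₀) * MvPolynomial.X (Sum.inr (Sum.inr i₀)) ^ 2 +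
          MvPolynomial.rename Sum.inl (B i₀) := ⟨_, rfl⟩
      have ec : ∀ u : α ⊕ (I ⊕ I) → K, MvPolynomial.eval u c =
          MvPolynomial.eval (fun j => u (Sum.inl j)) (A i₀) * u (Sum.inr (Sum.inr i₀)) ^ 2 +
          MvPolynomial.eval (fun j => u (Sum.inl j)) (B i₀) := fun u => by
        rw [hc]
        simp only [map_add, map_mul, map_pow, MvPolynomial.eval_X, MvPolynomial.eval_rename]
        rfl
      have ecu : ∀ (u : α ⊕ (I ⊕ I) → K) i t, MvPolynomial.eval
          (Function.update u (Sum.inr (Sum.inl i)) t) c = MvPolynomial.eval u c := fun u i t => by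
        rw [ec, ec]
        congr 1
      refine ⟨(g1 - g0) * c + g0 * MvPolynomial.X (Sum.inr (Sum.inl i₀)), fun i u t => ?_,
        fun u hu => ?_⟩
      · simp only [map_add, map_mul, map_sub, MvPolynomial.eval_X, ecu]
        by_cases hi : i = i₀
        · subst hi
          simp only [e0, e1, Function.update_idem, Function.update_self]
          ring
        · have hne : (Sum.inr (Sum.inl i₀) : α ⊕ (I ⊕ I)) ≠ Sum.inr (Sum.inl i) := by
            intro h0
            exact hi (Sum.inl_injective (Sum.inr_injective h0)).symm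
          have cm : ∀ b t', Function.update (Function.update u (Sum.inr (Sum.inl i)) t')
              (Sum.inr (Sum.inl i₀)) b = Function.update (Function.update u
                (Sum.inr (Sum.inl i₀)) b) (Sum.inr (Sum.inl i)) t' := fun b t' =>
            Function.update_comm hne.symm _ _ _
          simp only [e0, e1, cm, Function.update_of_ne hne]
          rw [m i (Function.update u (Sum.inr (Sum.inl i₀)) 0) t,
            m i (Function.update u (Sum.inr (Sum.inl i₀)) 1) t]
          ring
      · have k1 := m i₀ u (u (Sum.inr (Sum.inl i₀)))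
        rw [Function.update_eq_self] at k1
        have k2 := hu i₀
        rw [map_mul, MvPolynomial.eval_X, ← h u hu, k1, map_add, map_mul, map_sub, map_mul,
          MvPolynomial.eval_X, ec, e0, e1]
        linear_combination (-(MvPolynomial.eval (Function.update u (Sum.inr (Sum.inl i₀)) 1) g -
          MvPolynomial.eval (Function.update u (Sum.inr (Sum.inl i₀)) 0) g)) * k2
    · refine ⟨g * MvPolynomial.X s, fun i u t => ?_, fun u hu => ?_⟩
      · have hne : s ≠ Sum.inr (Sum.inl i) := fun h0 => hs ⟨i, h0⟩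
        simp only [map_mul, MvPolynomial.eval_X, Function.update_of_ne hne]
        rw [m i u t]
        ring
      · rw [map_mul, map_mul, h u hu]

/-- vanishing for all choices of signs -/
lemma MA.zero [Fintype I] {g : MvPolynomial (α ⊕ (I ⊕ I)) K} (hg : MA g) {z : α → K}
    {x y : I → K} (hx : ∀ i, x i ≠ 0)
    (h : ∀ x' : I → K, (∀ i, x' i = x i ∨ x' i = -x i) →
      MvPolynomial.eval (Sum.elim z (Sum.elim x' y)) g = 0) (x' : I → K) :
    MvPolynomial.eval (Sum.elim z (Sum.elim x' y)) g = 0 := by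
  have claim : ∀ T : Finset I, ∀ x' : I → K, (∀ i ∉ T, x' i = x i ∨ x' i = -x i) →
      MvPolynomial.eval (Sum.elim z (Sum.elim x' y)) g = 0 := by
    intro T
    induction T using Finset.induction_on with
    | empty => intro x' hx'; exact h x' fun i => hx' i (Finset.notMem_empty i)
    | insert j T hj ih =>
      intro x' hx'
      have hupd : ∀ t, Function.update (Sum.elim z (Sum.elim x' y) : α ⊕ (I ⊕ I) → K)
          (Sum.inr (Sum.inl j)) t = Sum.elim z (Sum.elim (Function.update x' j t) y) := by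
        intro t
        funext s
        rcases s with a | i | i
        · rw [Function.update_of_ne (by simp)]; rfl
        · by_cases hi : i = j
          · subst hi
            rw [Function.update_self, Sum.elim_inr, Sum.elim_inl, Function.update_self]
          · rw [Function.update_of_ne (by simpa using hi), Sum.elim_inr, Sum.elim_inl,
              Sum.elim_inr, Sum.elim_inl, Function.update_of_ne hi]
        · rw [Function.update_of_ne (by simp)]; rfl
      have hk := hg j (Sum.elim z (Sum.elim x' y))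
      simp only [hupd] at hk
      have h1 := ih (Function.update x' j (x j)) (fun i hi => by
        by_cases hij : i = j
        · left; rw [hij, Function.update_self]
        · rw [Function.update_of_ne hij]
          exact hx' i (by rw [Finset.mem_insert, not_or]; exact ⟨hij, hi⟩))
      have h2 := ih (Function.update x' j (-x j)) (fun i hi => by
        by_cases hij : i = j
        · right; rw [hij, Function.update_self]
        · rw [Function.update_of_ne hij]
          exact hx' i (by rw [Finset.mem_insert, not_or]; exact ⟨hij, hi⟩))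
      have h3 := hk (x' j)
      rw [Function.update_eq_self] at h3
      rw [hk] at h1 h2
      obtain ⟨b, hb⟩ : ∃ b, b = MvPolynomial.eval (Sum.elim z (Sum.elim
        (Function.update x' j 0) y)) g := ⟨_, rfl⟩
      obtain ⟨d, hd⟩ : ∃ d, d = MvPolynomial.eval (Sum.elim z (Sum.elim
        (Function.update x' j 1) y)) g := ⟨_, rfl⟩
      rw [← hb, ← hd] at h1 h2 h3
      have hb0 : b = 0 := by
        have : (2 : K) ≠ 0 := two_ne_zero
        apply mul_left_cancel₀ this
        linear_combination h1 + h2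
      have hdb : d - b = 0 := by
        apply mul_left_cancel₀ (hx j)
        linear_combination h1 - hb0
      rw [h3, hb0] at *
      rw [hb0] at hdb
      linear_combination (x' j) * hdb
  exact claim Finset.univ x' fun i hi => absurd (Finset.mem_univ i) hi

end nf

end Pool.Agent.H436.CW
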