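import Pool.Agent.H436.CW.FA

/-!
# Cones over charts (helper436)
-/

set_option autoImplicit false
set_option linter.unusedVariables false
set_option linter.unusedSectionVars false
set_option linter.deprecated false
set_option linter.unusedSimpArgs false

open Filter Topology Pool.Agent.Y720.MZ Pool.Agent.H436.CB Pool.Agent.TH729.CV

namespace Pool.Agent.H436.CW

section abs

variable {L : Type*} [NontriviallyNormedField L] [CompleteSpace L] [CharZero L]
  {k : Type*} [Field k] {σ : k →+* L} {τ τ' ι : Type*} [Finite τ] [Finite τ'] [Finite ι]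

/-- a polynomial vanishing at the rational points of a box, with nonzero coordinates -/
lemma box_zero (hσ : DenseRange σ) {p : MvPolynomial ι k} {V : Set (ι → L)} {c₀ : ι → L}
    (hV : V ∈ 𝓝 c₀)
    (h : ∀ c : ι → k, (∀ i, c i ≠ 0) → (fun i => σ (c i)) ∈ V → MvPolynomial.eval c p = 0) :
    p = 0 := by
  rw [nhds_pi] at hV
  obtain ⟨I, hI, t, ht, hsub⟩ := Filter.mem_pi.1 hV
  refine MvPolynomial.funext_set (s := fun i => {c : k | σ c ∈ t i ∧ c ≠ 0})
    (fun i => infinite_near' σ hσ (ht i)) fun c hc => ?_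
  rw [map_zero]
  exact h c (fun i => (hc i (Set.mem_univ i)).2) (hsub fun i _ => (hc i (Set.mem_univ i)).1)

/-- **Cones over charts.** -/
theorem chart_FA (hσ : DenseRange σ) {D' : Set (τ' → k)} {D : Set (τ → k)}
    (ΘK : (ι → k) → (τ' → k) → τ → k) (ΘL : (ι → L) → (τ' → L) → τ → L)
    (hΘ : ∀ c y, (fun s => σ (ΘK c y s)) = ΘL (fun i => σ (c i)) fun i => σ (y i))
    (hc : Continuous fun e : (ι → L) × (τ' → L) => ΘL e.1 e.2)
    (hg : ∀ (f : MvPolynomial τ k) (c : ι → k), ∃ g : MvPolynomial τ' k, ∀ y,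
      MvPolynomial.eval y g = MvPolynomial.eval (ΘK c y) f)
    (hp : ∀ (f : MvPolynomial τ k) (y : τ' → k), ∃ p : MvPolynomial ι k, ∀ c,
      MvPolynomial.eval c p = MvPolynomial.eval (ΘK c y) f)
    {Ω : Set (τ → L)} (hΩ : IsOpen Ω) (cL : (τ → L) → ι → L) (yL : (τ → L) → τ' → L)
    (hinv : ∀ x ∈ Ω, ΘL (cL x) (yL x) = x) (hyc : ∀ x ∈ Ω, ContinuousAt yL x)
    (hD : ∀ y ∈ D, (fun s => σ (y s)) ∈ Ω → ∃ c : ι → k, ∃ y' ∈ D', y = ΘK c y' ∧
      yL (fun s => σ (y s)) = fun i => σ (y' i))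
    (hD' : ∀ y' ∈ D', ∀ c : ι → k, (∀ i, c i ≠ 0) → ΘK c y' ∈ D) (h : FA σ D') :
    FAon σ D Ω := by
  let Ψ : Ideal (MvPolynomial τ' k) → Set (MvPolynomial τ k) := fun J =>
    {f | ∀ (c : ι → k) (g : MvPolynomial τ' k), (∀ y, MvPolynomial.eval y g =
      MvPolynomial.eval (ΘK c y) f) → g ∈ J}
  have key : ∀ x ∈ Ω, (IA σ D x : Set (MvPolynomial τ k)) = Ψ (IA σ D' (yL x)) := by
    intro x hx
    ext f
    constructor
    · intro hf c g hgf
      obtain ⟨U, hU, hfU⟩ := mem_IA_iff.1 hf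
      have hpre : (fun e : (ι → L) × (τ' → L) => ΘL e.1 e.2) ⁻¹' U ∈ 𝓝 (cL x, yL x) := by
        apply hc.continuousAt.preimage_mem_nhds
        dsimp only
        rw [hinv x hx]
        exact hU
      obtain ⟨V, hV, W, hW, hVW⟩ := mem_nhds_prod_iff.1 hpre
      rw [mem_IA_iff]
      refine ⟨W, hW, fun y' hy' hyW => ?_⟩
      obtain ⟨p, hp⟩ := hp f y'
      have hp0 : p = 0 := by
        refine box_zero hσ hV fun c' hc' hcV => ?_
        rw [hp]
        refine hfU _ (hD' y' hy' c' hc') ?_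
        rw [hΘ]
        exact hVW (Set.mk_mem_prod hcV hyW)
      rw [hgf, ← hp, hp0, map_zero]
    · intro hf
      have hst := IA_stab σ D' (yL x)
      rw [Filter.eventually_iff_exists_mem] at hst
      obtain ⟨W, hW, hst⟩ := hst
      show f ∈ IA σ D x
      rw [mem_IA_iff]
      refine ⟨Ω ∩ yL ⁻¹' W, inter_mem (hΩ.mem_nhds hx) ((hyc x hx).preimage_mem_nhds hW),
        fun y hy hyW => ?_⟩
      obtain ⟨c, y', hy', e1, e2⟩ := hD y hy hyW.1
      obtain ⟨g, hg⟩ := hg f c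
      rw [e1, ← hg]
      refine hst (fun i => σ (y' i)) ?_ y' hy' rfl g (hf c g hg)
      rw [← e2]
      exact hyW.2
  refine Set.Finite.of_finite_image (f := fun J : Ideal (MvPolynomial τ k) =>
    (J : Set (MvPolynomial τ k))) ((h.image Ψ).subset ?_) (SetLike.coe_injective.injOn)
  rintro _ ⟨_, ⟨x, hx, rfl⟩, rfl⟩
  exact ⟨_, ⟨yL x, rfl⟩, (key x hx).symm⟩

/-- **Local ideals of cones.** -/
theorem torus_J (hσ : DenseRange σ) {D : Set (τ → k)}
    (aK : (ι → k) → (τ → k) → τ → k) (aL : (ι → L) → (τ → L) → τ → L)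
    (ha : ∀ c y, (fun s => σ (aK c y s)) = aL (fun i => σ (c i)) fun s => σ (y s))
    (hc : ∀ y, Continuous fun c : ι → L => aL c y)
    (h1K : ∀ y, aK 1 y = y) (h1L : ∀ y, aL 1 y = y)
    (hp : ∀ (f : MvPolynomial τ k) (y : τ → k), ∃ p : MvPolynomial ι k, ∀ c,
      MvPolynomial.eval c p = MvPolynomial.eval (aK c y) f)
    (hD : ∀ y ∈ D, ∀ c : ι → k, (∀ i, c i ≠ 0) → aK c y ∈ D) (x : τ → L) :
    {f : MvPolynomial τ k | ∃ U ∈ 𝓝 x, ∀ y ∈ D,
      (∃ c : ι → L, (∀ i, c i ≠ 0) ∧ aL c (fun s => σ (y s)) ∈ U) →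
      ∀ c : ι → k, MvPolynomial.eval (aK c y) f = 0} = IA σ D x := by
  ext f
  constructor
  · rintro ⟨U, hU, hf⟩
    show f ∈ IA σ D x
    rw [mem_IA_iff]
    refine ⟨U, hU, fun y hy hyU => ?_⟩
    have := hf y hy ⟨1, fun i => one_ne_zero, by rw [h1L]; exact hyU⟩ 1
    rwa [h1K] at this
  · intro hf
    obtain ⟨U, hU, hfU⟩ := mem_IA_iff.1 hf
    obtain ⟨U', hUU, hUo, hxU⟩ := mem_nhds_iff.1 hU
    refine ⟨U', hUo.mem_nhds hxU, ?_⟩
    rintro y hy ⟨c, -, hcU⟩ c'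
    obtain ⟨p, hp⟩ := hp f y
    have hp0 : p = 0 := by
      refine box_zero hσ (V := (fun c : ι → L => aL c (fun s => σ (y s))) ⁻¹' U') (c₀ := c)
        ((hc _).continuousAt.preimage_mem_nhds (hUo.mem_nhds hcU)) fun c'' hc'' hcV => ?_
      rw [hp]
      refine hfU _ (hD y hy c'' hc'') (hUU ?_)
      rw [ha]
      exact hcV
    rw [← hp, hp0, map_zero]

end abs

end Pool.Agent.H436.CW
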