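import Pool.Agent.H436.CW.Alg

/-!
# Local Zariski density (helper436)
-/

set_option autoImplicit false
set_option linter.unusedVariables false
set_option linter.unusedSectionVars false
set_option linter.deprecated false
set_option linter.unusedSimpArgs false

open Filter Topology Pool.Agent.Y720.MZ Pool.Agent.H436.CB

namespace Pool.Agent.H436.CW

section conic

variable {K : Type*} [Field K] [CharZero K] {L : Type*} [NontriviallyNormedField L]
  [CompleteSpace L] [CharZero L] {σ : K →+* L}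

/-- an interval of parameters which gives points close to the given point of the conic -/
lemma conic_box {a c : K} (ha : a ≠ 0) (hc : c ≠ 0) {R₀ S₀ : K}
    (h₀ : R₀ ^ 2 - a * S₀ ^ 2 = c) {R S : L} (h : R ^ 2 - σ a * S ^ 2 = σ c) {η : ℝ}
    (hη : 0 < η) :
    ∃ (m₀ : L) (δ : ℝ), 0 < δ ∧ ∀ m : K, ‖σ m - m₀‖ < δ → 1 - a * m ^ 2 ≠ 0 ∧
      ‖σ ((R₀ * (1 + a * m ^ 2) + 2 * a * S₀ * m) / (1 - a * m ^ 2)) - R‖ < η ∧
      ‖σ ((2 * R₀ * m + S₀ * (1 + a * m ^ 2)) / (1 - a * m ^ 2)) - S‖ < η := by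
  have hcv : σ c ≠ 0 := (map_ne_zero σ).2 hc
  have h₀v : σ R₀ ^ 2 - σ a * σ S₀ ^ 2 = σ c := by
    rw [← h₀]; simp only [map_sub, map_mul, map_pow]
  obtain ⟨x, hx⟩ : ∃ x, x = (σ R₀ * R - σ a * σ S₀ * S) / σ c := ⟨_, rfl⟩
  obtain ⟨y, hy⟩ : ∃ y, y = (σ R₀ * S - σ S₀ * R) / σ c := ⟨_, rfl⟩
  have hxy : x ^ 2 - σ a * y ^ 2 = 1 := by
    have h1 : (σ R₀ * R - σ a * σ S₀ * S) ^ 2 - σ a * (σ R₀ * S - σ S₀ * R) ^ 2 = σ c ^ 2 := by
      linear_combination (R ^ 2 - σ a * S ^ 2) * h₀v + σ c * h
    rw [hx, hy]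
    field_simp
    linear_combination h1
  obtain ⟨δ₁, hδ₁, hd₁⟩ := mul_cont (A := σ a) (R₀ := σ R₀) (S₀ := σ S₀) x y hη
  obtain ⟨x', y', g1, g2, g3, g4⟩ := one_near ((map_ne_zero σ).2 ha) hxy (half_pos hδ₁)
  obtain ⟨δ, hδ, hd⟩ := one_cont g1 g2 (half_pos hδ₁)
  refine ⟨y' / (1 + x'), δ, hδ, fun m hm => ?_⟩
  obtain ⟨k1, k2, k3⟩ := hd (σ m) hm
  have hd0 : 1 - a * m ^ 2 ≠ 0 := by
    intro h0
    apply k1
    rw [← map_pow, ← map_mul, ← map_one σ, ← map_sub, h0, map_zero]
  have e1 := norm_sub_le_norm_sub_add_norm_sub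
    ((1 + σ a * σ m ^ 2) / (1 - σ a * σ m ^ 2)) x' x
  have e2 := norm_sub_le_norm_sub_add_norm_sub (2 * σ m / (1 - σ a * σ m ^ 2)) y' y
  obtain ⟨j1, j2⟩ := hd₁ ((1 + σ a * σ m ^ 2) / (1 - σ a * σ m ^ 2))
    (2 * σ m / (1 - σ a * σ m ^ 2)) (by linarith) (by linarith)
  have f1 : σ R₀ * x + σ a * σ S₀ * y = R := by
    rw [hx, hy]
    field_simp
    linear_combination R * h₀v
  have f2 : σ R₀ * y + σ S₀ * x = S := by
    rw [hx, hy]
    field_simp
    linear_combination S * h₀v
  rw [f1] at j1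
  rw [f2] at j2
  have f3 : σ ((R₀ * (1 + a * m ^ 2) + 2 * a * S₀ * m) / (1 - a * m ^ 2)) =
      σ R₀ * ((1 + σ a * σ m ^ 2) / (1 - σ a * σ m ^ 2)) +
        σ a * σ S₀ * (2 * σ m / (1 - σ a * σ m ^ 2)) := by
    simp only [map_div₀, map_add, map_sub, map_mul, map_pow, map_one, map_ofNat]
    ring
  have f4 : σ ((2 * R₀ * m + S₀ * (1 + a * m ^ 2)) / (1 - a * m ^ 2)) =
      σ R₀ * (2 * σ m / (1 - σ a * σ m ^ 2)) +
        σ S₀ * ((1 + σ a * σ m ^ 2) / (1 - σ a * σ m ^ 2)) := by
    simp only [map_div₀, map_add, map_sub, map_mul, map_pow, map_one, map_ofNat]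
    ring
  rw [f3, f4]
  exact ⟨hd0, j1, j2⟩

/-- a polynomial which vanishes at the rational points of a product of conics close to a local
point vanishes at all rational points -/
theorem fibre_all (hσ : DenseRange σ) {I : Type*} [Fintype I] {a c : I → K} (ha : ∀ i, a i ≠ 0)
    (hc : ∀ i, c i ≠ 0) {R S : I → L} (h : ∀ i, R i ^ 2 - σ (a i) * S i ^ 2 = σ (c i)) {η : ℝ}
    (hη : 0 < η) {f : MvPolynomial (I ⊕ I) K}
    (hf : ∀ x y : I → K, (∀ i, x i ^ 2 - a i * y i ^ 2 = c i) →
      (∀ i, ‖σ (x i) - R i‖ < η ∧ ‖σ (y i) - S i‖ < η) →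
      MvPolynomial.eval (Sum.elim x y) f = 0) (x y : I → K)
    (hxy : ∀ i, x i ^ 2 - a i * y i ^ 2 = c i) : MvPolynomial.eval (Sum.elim x y) f = 0 := by
  choose m₀ δ hδ hb using fun i => conic_box (ha i) (hc i) (hxy i) (h i) hη
  let p : I ⊕ I → MvPolynomial I K := Sum.elim
    (fun i => MvPolynomial.C (x i) * (1 + MvPolynomial.C (a i) * MvPolynomial.X i ^ 2) +
      2 * MvPolynomial.C (a i) * MvPolynomial.C (y i) * MvPolynomial.X i)
    (fun i => 2 * MvPolynomial.C (x i) * MvPolynomial.X i +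
      MvPolynomial.C (y i) * (1 + MvPolynomial.C (a i) * MvPolynomial.X i ^ 2))
  let q : I ⊕ I → MvPolynomial I K := Sum.elim
    (fun i => 1 - MvPolynomial.C (a i) * MvPolynomial.X i ^ 2)
    (fun i => 1 - MvPolynomial.C (a i) * MvPolynomial.X i ^ 2)
  have hp1 : ∀ (m : I → K) i, MvPolynomial.eval m (p (Sum.inl i)) =
      x i * (1 + a i * m i ^ 2) + 2 * a i * y i * m i := fun m i => by
    simp only [p, Sum.elim_inl, map_add, map_mul, map_pow, map_one, map_ofNat,
      MvPolynomial.eval_C, MvPolynomial.eval_X]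
  have hp2 : ∀ (m : I → K) i, MvPolynomial.eval m (p (Sum.inr i)) =
      2 * x i * m i + y i * (1 + a i * m i ^ 2) := fun m i => by
    simp only [p, Sum.elim_inr, map_add, map_mul, map_pow, map_one, map_ofNat,
      MvPolynomial.eval_C, MvPolynomial.eval_X]
  have hq1 : ∀ (m : I → K) i, MvPolynomial.eval m (q (Sum.inl i)) = 1 - a i * m i ^ 2 :=
    fun m i => by
    simp only [q, Sum.elim_inl, map_sub, map_mul, map_pow, map_one,
      MvPolynomial.eval_C, MvPolynomial.eval_X]
  have hq2 : ∀ (m : I → K) i, MvPolynomial.eval m (q (Sum.inr i)) = 1 - a i * m i ^ 2 :=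
    fun m i => by
    simp only [q, Sum.elim_inr, map_sub, map_mul, map_pow, map_one,
      MvPolynomial.eval_C, MvPolynomial.eval_X]
  have key := rat_zero p q f (M := fun i => {m : K | ‖σ m - m₀ i‖ < δ i}) (fun i => ?_)
    (fun m hm => ?_) (m := fun _ => 0) (fun t => ?_)
  · have e1 : (fun t => MvPolynomial.eval (fun _ => (0 : K)) (p t) /
        MvPolynomial.eval (fun _ => (0 : K)) (q t)) = Sum.elim x y := by
      funext t
      rcases t with i | i
      · rw [hp1, hq1, Sum.elim_inl]
        simp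
      · rw [hp2, hq2, Sum.elim_inr]
        simp
    rw [e1] at key
    exact key
  · refine (infinite_near' σ hσ (Metric.ball_mem_nhds (m₀ i) (hδ i))).mono ?_
    rintro m ⟨hm, -⟩
    rw [Metric.mem_ball, dist_eq_norm] at hm
    exact hm
  · have hk := fun i => hb i (m i) (hm i)
    refine ⟨fun t => ?_, ?_⟩
    · rcases t with i | i
      · rw [hq1]; exact (hk i).1
      · rw [hq2]; exact (hk i).1
    · have e1 : (fun t => MvPolynomial.eval m (p t) / MvPolynomial.eval m (q t)) =
          Sum.elim (fun i => (x i * (1 + a i * m i ^ 2) + 2 * a i * y i * m i) /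
            (1 - a i * m i ^ 2)) (fun i => (2 * x i * m i + y i * (1 + a i * m i ^ 2)) /
            (1 - a i * m i ^ 2)) := by
        funext t
        rcases t with i | i
        · rw [hp1, hq1, Sum.elim_inl]
        · rw [hp2, hq2, Sum.elim_inr]
      rw [e1]
      exact hf _ _ (fun i => conic_id (hxy i) (hk i).1) fun i => (hk i).2
  · rcases t with i | i
    · rw [hq1]; simp
    · rw [hq2]; simp

end conic

section base

variable {K : Type*} [Field K] [CharZero K] {L : Type*} [NontriviallyNormedField L]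
  {σ : K →+* L}

/-- a polynomial with arbitrarily small zeros is zero -/
lemma poly_zero {h : Polynomial K} (hh : ∀ η : ℝ, 0 < η → ∃ u : K, u ≠ 0 ∧ ‖σ u‖ < η ∧
    h.eval u = 0) : h = 0 := by
  classical
  by_contra hne
  -- the smallest norm of a nonzero root
  obtain ⟨S, hS⟩ : ∃ S, S = h.roots.toFinset.filter fun u => u ≠ 0 := ⟨_, rfl⟩
  have hmem : ∀ u, u ∈ S ↔ h.eval u = 0 ∧ u ≠ 0 := by
    intro u
    rw [hS, Finset.mem_filter, Multiset.mem_toFinset, Polynomial.mem_roots hne]
    rfl
  by_cases hSe : S.Nonempty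
  · obtain ⟨u₀, hu₀, hmin⟩ := S.exists_min_image (fun u => ‖σ u‖) hSe
    have h0 : 0 < ‖σ u₀‖ := norm_pos_iff.2 ((map_ne_zero σ).2 ((hmem u₀).1 hu₀).2)
    obtain ⟨u, h1, h2, h3⟩ := hh _ h0
    exact absurd (hmin u ((hmem u).2 ⟨h3, h1⟩)) (not_le.2 h2)
  · obtain ⟨u, h1, h2, h3⟩ := hh 1 one_pos
    exact hSe ⟨u, (hmem u).2 ⟨h3, h1⟩⟩

variable {α : Type*} [Fintype α] [DecidableEq α]

/-- **Weak moves in all directions give dense sets.** -/
theorem base_dense {P : (α → K) → Prop} {z : α → K} {ρ : ℝ} (hP : P z) (hρ : 0 < ρ)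
    (hW : ∀ z' : α → K, P z' → (∀ i, ‖σ (z' i) - σ (z i)‖ < ρ) → ∀ j,
      Ww σ (fun z u => P (fun i => z i + u * (Pi.single j 1 : α → K) i)) z')
    {g : MvPolynomial α K}
    (hg : ∀ z' : α → K, P z' → (∀ i, ‖σ (z' i) - σ (z i)‖ < ρ) → MvPolynomial.eval z' g = 0) :
    g = 0 := by
  have claim : ∀ T : Finset α, ∀ z' : α → K, P z' → (∀ i, ‖σ (z' i) - σ (z i)‖ < ρ) →
      ∀ w : α → K, (∀ i ∉ T, w i = 0) → MvPolynomial.eval (fun i => z' i + w i) g = 0 := by
    intro T
    induction T using Finset.induction_on with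
    | empty =>
      intro z' hz' hn w hw
      have : (fun i => z' i + w i) = z' := by
        funext i
        rw [hw i (Finset.notMem_empty i), add_zero]
      rw [this]
      exact hg z' hz' hn
    | insert j T hj ih =>
      intro z' hz' hn w hw
      obtain ⟨w', hw'⟩ : ∃ w' : α → K, w' = Function.update w j 0 := ⟨_, rfl⟩
      have hsupp : ∀ i ∉ T, w' i = 0 := by
        intro i hi
        by_cases hij : i = j
        · rw [hw', hij, Function.update_self]
        · rw [hw', Function.update_of_ne hij]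
          exact hw i (by rw [Finset.mem_insert, not_or]; exact ⟨hij, hi⟩)
      have h0 : rst g (fun i => z' i + w' i) (Pi.single j 1) = 0 := by
        refine poly_zero (σ := σ) fun η hη => ?_
        have hpos : 0 < ρ - ‖σ (z' j) - σ (z j)‖ := sub_pos.2 (hn j)
        obtain ⟨u, hu0, hu1, hu2⟩ := hW z' hz' hn j (min η (ρ - ‖σ (z' j) - σ (z j)‖))
          (lt_min hη hpos)
        refine ⟨u, hu0, hu1.trans_le (min_le_left _ _), ?_⟩
        rw [rst_ev]
        have h1 := ih (fun i => z' i + u * (Pi.single j 1 : α → K) i) hu2 (fun i => by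
          by_cases hij : i = j
          · subst hij
            rw [Pi.single_eq_same, mul_one, map_add]
            have h2 := hu1.trans_le (min_le_right _ _)
            have h3 := norm_add_le (σ (z' i) - σ (z i)) (σ u)
            have e1 : σ (z' i) + σ u - σ (z i) = (σ (z' i) - σ (z i)) + σ u := by ring
            rw [e1]
            linarith
          · rw [Pi.single_eq_of_ne hij, mul_zero, add_zero]
            exact hn i) w' hsupp
        have e2 : (fun i => z' i + w' i + u * (Pi.single j 1 : α → K) i) =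
            fun i => z' i + u * (Pi.single j 1 : α → K) i + w' i := by
          funext i; ring
        rw [e2]
        exact h1
      have h1 := rst_ev g (fun i => z' i + w' i) (Pi.single j 1) (w j)
      rw [h0, Polynomial.eval_zero] at h1
      have e3 : (fun i => z' i + w' i + w j * (Pi.single j 1 : α → K) i) =
          fun i => z' i + w i := by
        funext i
        by_cases hij : i = j
        · rw [hw', hij, Function.update_self, Pi.single_eq_same, mul_one, add_zero]
        · rw [hw', Function.update_of_ne hij, Pi.single_eq_of_ne hij, mul_zero, add_zero]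
      rw [e3] at h1
      exact h1.symm
  have : Infinite K := CharZero.infinite K
  apply MvPolynomial.funext
  intro x
  have h1 := claim Finset.univ z hP (fun i => by rw [sub_self, norm_zero]; exact hρ)
    (fun i => x i - z i) (fun i hi => absurd (Finset.mem_univ i) hi)
  have e1 : (fun i => z i + (x i - z i)) = x := by funext i; ring
  rw [e1] at h1
  rw [h1, map_zero]

end base

section main

variable {K : Type*} [Field K] [CharZero K] {L : Type*} [NontriviallyNormedField L]
  [CompleteSpace L] [CharZero L] {σ : K →+* L} {α : Type*} [Fintype α] [DecidableEq α]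
  {I : Type*} [Fintype I] [DecidableEq I]

/-- the rational points of the system -/
def ptsK (A B : I → MvPolynomial α K) : Set (α ⊕ (I ⊕ I) → K) :=
  {u | ∀ i, u (Sum.inr (Sum.inl i)) ^ 2 - MvPolynomial.eval (fun j => u (Sum.inl j)) (A i) *
    u (Sum.inr (Sum.inr i)) ^ 2 = MvPolynomial.eval (fun j => u (Sum.inl j)) (B i)}

/-- restricting polynomials to a fibre -/
lemma exists_fib (f : MvPolynomial (α ⊕ (I ⊕ I)) K) (z : α → K) :
    ∃ g : MvPolynomial (I ⊕ I) K, ∀ w : I ⊕ I → K,
      MvPolynomial.eval w g = MvPolynomial.eval (Sum.elim z w) f := by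
  refine ⟨MvPolynomial.aeval (Sum.elim (fun j => MvPolynomial.C (z j)) MvPolynomial.X) f,
    fun w => ?_⟩
  induction f using MvPolynomial.induction_on with
  | C a => simp
  | add p q hp hq => simp only [map_add, hp, hq]
  | mul_X p i hp =>
    simp only [map_mul, hp, MvPolynomial.aeval_X, MvPolynomial.eval_X]
    rcases i with j | s <;> simp

/-- restricting polynomials to the ordinates -/
lemma exists_fiby (f : MvPolynomial (α ⊕ (I ⊕ I)) K) (z : α → K) (x : I → K) :
    ∃ g : MvPolynomial I K, ∀ y : I → K,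
      MvPolynomial.eval y g = MvPolynomial.eval (Sum.elim z (Sum.elim x y)) f := by
  refine ⟨MvPolynomial.aeval (Sum.elim (fun j => MvPolynomial.C (z j))
    (Sum.elim (fun i => MvPolynomial.C (x i)) MvPolynomial.X)) f, fun y => ?_⟩
  induction f using MvPolynomial.induction_on with
  | C a => simp
  | add p q hp hq => simp only [map_add, hp, hq]
  | mul_X p i hp =>
    simp only [map_mul, hp, MvPolynomial.aeval_X, MvPolynomial.eval_X]
    rcases i with j | s | s <;> simp

/-- restricting polynomials to the base -/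
lemma exists_fibz (f : MvPolynomial (α ⊕ (I ⊕ I)) K) (w : I ⊕ I → K) :
    ∃ g : MvPolynomial α K, ∀ z : α → K,
      MvPolynomial.eval z g = MvPolynomial.eval (Sum.elim z w) f := by
  refine ⟨MvPolynomial.aeval (Sum.elim MvPolynomial.X (fun s => MvPolynomial.C (w s))) f,
    fun z => ?_⟩
  induction f using MvPolynomial.induction_on with
  | C a => simp
  | add p q hp hq => simp only [map_add, hp, hq]
  | mul_X p i hp =>
    simp only [map_mul, hp, MvPolynomial.aeval_X, MvPolynomial.eval_X]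
    rcases i with j | s <;> simp

/-- a polynomial of degree at most one in the abscissas, vanishing on a smooth fibre with rational
points, vanishes identically over the point of the base -/
lemma fib_zero {A B : I → MvPolynomial α K} {z : α → K} (hz : Pz A B z)
    {g : MvPolynomial (α ⊕ (I ⊕ I)) K} (hg : MA g)
    (h : ∀ x y : I → K, (∀ i, x i ^ 2 - MvPolynomial.eval z (A i) * y i ^ 2 =
      MvPolynomial.eval z (B i)) → MvPolynomial.eval (Sum.elim z (Sum.elim x y)) g = 0)
    (x y : I → K) : MvPolynomial.eval (Sum.elim z (Sum.elim x y)) g = 0 := by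
  obtain ⟨G, hG⟩ := exists_fiby g z x
  have hG0 : G = 0 := by
    refine MvPolynomial.funext_set (s := fun i => {y : K | ∃ x : K, x ≠ 0 ∧
      x ^ 2 - MvPolynomial.eval z (A i) * y ^ 2 = MvPolynomial.eval z (B i)})
      (fun i => inf_y (hz i).1 (hz i).2.1 (hz i).2.2) fun y' hy' => ?_
    rw [hG, map_zero]
    choose x₁ hx₁ hx₁' using fun i => hy' i (Set.mem_univ i)
    refine hg.zero hx₁ (fun x' hx' => h x' y' fun i => ?_) x
    rcases hx' i with h1 | h1
    · rw [h1]; exact hx₁' i
    · rw [h1, neg_sq]; exact hx₁' i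
  rw [← hG, hG0, map_zero]

/-- **Local Zariski density at a good rational point.** -/
theorem good_dense (hσ : DenseRange σ) {A B : I → MvPolynomial α K}
    {y : α ⊕ (I ⊕ I) → K} (hy : y ∈ ptsK A B) {ρ : ℝ} (hρ : 0 < ρ)
    (hPz : Pz A B fun j => y (Sum.inl j))
    (hW : ∀ z' : α → K, Pz A B z' → (∀ j, ‖σ (z' j) - σ (y (Sum.inl j))‖ < ρ) → ∀ j,
      Ww σ (fun z u => Pz A B (fun i => z i + u * (Pi.single j 1 : α → K) i)) z')
    {f : MvPolynomial (α ⊕ (I ⊕ I)) K} {U : Set (α ⊕ (I ⊕ I) → L)}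
    (hU : U ∈ 𝓝 fun s => σ (y s))
    (hf : ∀ u ∈ ptsK A B, (fun s => σ (u s)) ∈ U → MvPolynomial.eval u f = 0) :
    ∀ u ∈ ptsK A B, MvPolynomial.eval u f = 0 := by
  obtain ⟨η, hη, hball⟩ := Metric.mem_nhds_iff.1 hU
  obtain ⟨g, hg, hgf⟩ := exists_nf A B f
  -- local points in the fibres
  let s : Unit → K →+* L := fun _ => σ
  have hA' : ∀ i, MvPolynomial.eval (fun j => σ (y (Sum.inl j)))
      (MvPolynomial.map (s ()) (A i)) ≠ 0 := fun i => by
    rw [eval_map_s (s := s) ()]
    exact (map_ne_zero (s ())).2 (hPz i).1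
  have hB' : ∀ i, MvPolynomial.eval (fun j => σ (y (Sum.inl j)))
      (MvPolynomial.map (s ()) (B i)) ≠ 0 := fun i => by
    rw [eval_map_s (s := s) ()]
    exact (map_ne_zero (s ())).2 (hPz i).2.1
  have hX : Xv (fun i => MvPolynomial.map (s ()) (A i)) (fun i => MvPolynomial.map (s ()) (B i))
      (fun j => σ (y (Sum.inl j))) (fun i => σ (y (Sum.inr (Sum.inl i))))
      (fun i => σ (y (Sum.inr (Sum.inr i)))) := by
    intro i
    rw [eval_map_s (s := s) (), eval_map_s (s := s) (), ← hy i]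
    simp only [map_sub, map_mul, map_pow]
    rfl
  obtain ⟨ρ', hρ', hfib⟩ := fib_near (s := s) (v := ()) hA' hB' hX (half_pos hη)
  have hg0 : ∀ w : I ⊕ I → K, ∀ z : α → K, MvPolynomial.eval (Sum.elim z w) g = 0 := by
    intro w
    obtain ⟨G, hG⟩ := exists_fibz g w
    have hG0 : G = 0 := by
      refine base_dense (σ := σ) (P := Pz A B) (z := fun j => y (Sum.inl j))
        (ρ := min (min ρ ρ') η) hPz (lt_min (lt_min hρ hρ') hη) (fun z' hz' hn j =>
          hW z' hz' (fun i => (hn i).trans_le ((min_le_left _ _).trans (min_le_left _ _))) j)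
        fun z' hz' hn => ?_
      rw [hG]
      have hw : w = Sum.elim (fun i => w (Sum.inl i)) (fun i => w (Sum.inr i)) := by
        funext i; rcases i with i | i <;> rfl
      rw [hw]
      refine fib_zero hz' hg (fun x₁ y₁ hxy₁ => ?_) _ _
      rw [hgf _ (fun i => by simpa using hxy₁ i)]
      obtain ⟨F, hF⟩ := exists_fib f z'
      rw [← hF]
      obtain ⟨R', S', k1, k2⟩ := hfib (fun j => σ (z' j))
        (fun i => (hn i).trans_le ((min_le_left _ _).trans (min_le_right _ _)))
      refine fibre_all hσ (fun i => (hz' i).1) (fun i => (hz' i).2.1) (R := R') (S := S')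
        (fun i => ?_) (half_pos hη) (fun x₂ y₂ h1 h2 => ?_) x₁ y₁ hxy₁
      · have := k1 i
        rw [eval_map_s (s := s) (), eval_map_s (s := s) ()] at this
        exact this
      · rw [hF]
        refine hf _ (fun i => by simpa using h1 i) (hball ?_)
        rw [Metric.mem_ball, dist_pi_lt_iff hη]
        rintro (j | i | i)
        · rw [dist_eq_norm]
          exact (hn j).trans_le (min_le_right _ _)
        · rw [dist_eq_norm]
          have := norm_sub_le_norm_sub_add_norm_sub (σ (x₂ i)) (R' i) (σ (y (Sum.inr (Sum.inl i))))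
          exact lt_of_le_of_lt this (by linarith [(h2 i).1, (k2 i).1])
        · rw [dist_eq_norm]
          have := norm_sub_le_norm_sub_add_norm_sub (σ (y₂ i)) (S' i) (σ (y (Sum.inr (Sum.inr i))))
          exact lt_of_le_of_lt this (by linarith [(h2 i).2, (k2 i).2])
    intro z
    rw [← hG, hG0, map_zero]
  intro u hu
  rw [← hgf u hu]
  have e1 : u = Sum.elim (fun j => u (Sum.inl j)) (fun i => u (Sum.inr i)) := by
    funext i; rcases i with i | i <;> rfl
  rw [e1]
  exact hg0 _ _

end main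

end Pool.Agent.H436.CW
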