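import Mathlib

/-!
# Number fields embed into fields of `p`-adic numbers (helper436)
-/

set_option autoImplicit false

open Polynomial

namespace Pool.Agent.H436.CW

/-- clearing denominators -/
lemma exists_int (g : ℚ[X]) : ∃ (d : ℤ) (F : ℤ[X]), d ≠ 0 ∧ F.map (Int.castRingHom ℚ) = C (d : ℚ) * g := by
  obtain ⟨b, hb⟩ := IsLocalization.integerNormalization_map_to_map (nonZeroDivisors ℤ) g
  refine ⟨b, IsLocalization.integerNormalization (nonZeroDivisors ℤ) g,
    nonZeroDivisors.ne_zero b.2, ?_⟩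
  have h1 : (algebraMap ℤ ℚ) = Int.castRingHom ℚ := rfl
  rw [h1] at hb
  rw [hb]
  ext n
  simp

/-- values of integral polynomials have many prime divisors -/
lemma exists_prime_dvd {F : ℤ[X]} (hF : 0 < F.natDegree) {D : ℤ} (hD : D ≠ 0) :
    ∃ (p : ℕ) (x : ℤ), p.Prime ∧ (p : ℤ) ∣ F.eval x ∧ ¬ (p : ℤ) ∣ D := by
  have hF0 : F ≠ 0 := by
    rintro rfl
    simp at hF
  -- a nonzero value
  obtain ⟨m, hm⟩ : ∃ m : ℤ, F.eval m ≠ 0 := by
    by_contra hcon
    push Not at hcon
    exact hF0 (Polynomial.funext fun r => by rw [hcon r, eval_zero])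
  obtain ⟨c, hc⟩ : ∃ c, c = F.eval m := ⟨_, rfl⟩
  rw [← hc] at hm
  have hDc : D * c ≠ 0 := mul_ne_zero hD hm
  -- finitely many arguments with small values
  have hfin : {x : ℤ | F.eval x = c ∨ F.eval x = -c}.Finite := by
    have h1 : {x : ℤ | F.eval x = c ∨ F.eval x = -c} ⊆
        ((F - C c).roots.toFinset ∪ (F + C c).roots.toFinset : Set ℤ) := by
      rintro x (h | h)
      · left
        rw [Finset.mem_coe, Multiset.mem_toFinset, mem_roots]
        · simp [IsRoot, h]
        · intro h0
          have := congrArg natDegree h0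
          rw [natDegree_sub_C, natDegree_zero] at this
          omega
      · right
        rw [Finset.mem_coe, Multiset.mem_toFinset, mem_roots]
        · simp [IsRoot, h]
        · intro h0
          have := congrArg natDegree h0
          rw [natDegree_add_C, natDegree_zero] at this
          omega
    exact ((Finset.finite_toSet _).union (Finset.finite_toSet _)).subset h1
  have hinj : Function.Injective fun y : ℤ => m + D * c * y := by
    intro y y' h
    have : D * c * y = D * c * y' := by simpa using h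
    exact mul_left_cancel₀ hDc this
  obtain ⟨_, ⟨y, rfl⟩, hy⟩ := (Set.infinite_range_of_injective hinj).exists_notMem_finite hfin
  obtain ⟨k, hk⟩ : ∃ k, F.eval (m + D * c * y) - F.eval m = (m + D * c * y - m) * k :=
    sub_dvd_eval_sub _ _ F
  have e1 : F.eval (m + D * c * y) = c * (1 + D * (y * k)) := by
    rw [← hc] at hk
    linear_combination hk
  have hne : (1 + D * (y * k)).natAbs ≠ 1 := by
    intro h
    apply hy
    rcases Int.natAbs_eq (1 + D * (y * k)) with h2 | h2
    · left
      rw [e1, h2, h]; simp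
    · right
      rw [e1, h2, h]; simp
  obtain ⟨p, hp, hpd⟩ := Nat.exists_prime_and_dvd hne
  have hpd' : (p : ℤ) ∣ 1 + D * (y * k) := Int.natCast_dvd.2 hpd
  refine ⟨p, _, hp, e1 ▸ hpd'.mul_left c, fun hpD => ?_⟩
  have h1 : (p : ℤ) ∣ 1 := by
    have := dvd_sub hpd' (hpD.mul_right (y * k))
    simpa using this
  have h2 := Int.natCast_dvd.1 h1
  simp only [Int.natAbs_one, Nat.dvd_one] at h2
  exact hp.ne_one h2

/-- **A number field has a homomorphism to the field of the `p`-adic numbers, for some `p`.** -/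
theorem exists_emb (K : Type*) [Field K] [NumberField K] :
    ∃ (p : ℕ) (_ : Fact p.Prime), Nonempty (K →+* ℚ_[p]) := by
  let pb := Field.powerBasisOfFiniteOfSeparable ℚ K
  obtain ⟨g, hg⟩ : ∃ g, g = minpoly ℚ pb.gen := ⟨_, rfl⟩
  have hgi : Irreducible g := hg ▸ minpoly.irreducible pb.isIntegral_gen
  have hsep : IsCoprime g (derivative g) := hgi.separable
  obtain ⟨d, F, hd, hF⟩ := exists_int g
  obtain ⟨a, b, hab⟩ := hsep
  obtain ⟨d₁, a', hd₁, ha'⟩ := exists_int a
  obtain ⟨d₂, b', hd₂, hb'⟩ := exists_int b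
  -- the relation over the integers
  have hrel : ∃ D : ℤ, D ≠ 0 ∧ ∃ u v : ℤ[X], u * F + v * derivative F = C D := by
    refine ⟨d * d₁ * d₂, mul_ne_zero (mul_ne_zero hd hd₁) hd₂, C d₂ * a', C d₁ * b', ?_⟩
    apply Polynomial.map_injective (Int.castRingHom ℚ) Int.cast_injective
    have hF' : (derivative F).map (Int.castRingHom ℚ) = C (d : ℚ) * derivative g := by
      rw [← derivative_map, hF, derivative_mul, derivative_C, zero_mul, zero_add]
    simp only [Polynomial.map_add, Polynomial.map_mul, Polynomial.map_C, hF, hF', ha', hb']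
    have e : C ((Int.castRingHom ℚ) (d * d₁ * d₂)) = C (d : ℚ) * C (d₁ : ℚ) * C (d₂ : ℚ) * 1 := by
      simp
    rw [e, ← hab]
    simp only [eq_intCast]
    ring
  obtain ⟨D, hD, u, v, huv⟩ := hrel
  have hFdeg : 0 < F.natDegree := by
    have h1 : (F.map (Int.castRingHom ℚ)).natDegree = g.natDegree := by
      rw [hF, natDegree_C_mul (by exact_mod_cast hd)]
    have h2 : (F.map (Int.castRingHom ℚ)).natDegree ≤ F.natDegree := natDegree_map_le
    have h3 := hgi.natDegree_pos
    omega
  obtain ⟨p, x, hp, hpF, hpD⟩ := exists_prime_dvd hFdeg hD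
  haveI : Fact p.Prime := ⟨hp⟩
  refine ⟨p, ⟨hp⟩, ?_⟩
  -- the root
  have hev : ∀ (G : ℤ[X]), (Polynomial.aeval (x : ℤ_[p]) (G.map (Int.castRingHom ℤ_[p]))) =
      ((G.eval x : ℤ) : ℤ_[p]) := by
    intro G
    rw [Polynomial.coe_aeval_eq_eval, Polynomial.eval_map, Polynomial.eval₂_at_intCast]
    simp
  have hn : ‖Polynomial.aeval (x : ℤ_[p]) (F.map (Int.castRingHom ℤ_[p]))‖ <
      ‖Polynomial.aeval (x : ℤ_[p]) (Polynomial.derivative (F.map (Int.castRingHom ℤ_[p])))‖ ^ 2 := by
    rw [derivative_map, hev, hev]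
    have h1 : ‖((F.eval x : ℤ) : ℤ_[p])‖ < 1 := (PadicInt.norm_int_lt_one_iff_dvd _).2 hpF
    have h2 : ‖(((derivative F).eval x : ℤ) : ℤ_[p])‖ = 1 := by
      refine le_antisymm (PadicInt.norm_le_one _) ?_
      by_contra hcon
      push Not at hcon
      rw [PadicInt.norm_int_lt_one_iff_dvd] at hcon
      apply hpD
      have h3 := congrArg (Polynomial.eval x) huv
      simp only [eval_add, eval_mul, eval_C] at h3
      rw [← h3]
      exact dvd_add (hpF.mul_left _) (hcon.mul_left _)
    rw [h2, one_pow]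
    exact h1
  obtain ⟨z, hz, -⟩ := hensels_lemma hn
  refine ⟨(pb.lift (z : ℚ_[p]) ?_).toRingHom⟩
  rw [← hg]
  have h1 : Polynomial.aeval (z : ℚ_[p]) (F.map (Int.castRingHom ℚ)) = 0 := by
    rw [Polynomial.coe_aeval_eq_eval, Polynomial.eval_map] at hz
    have h2 := congrArg (algebraMap ℤ_[p] ℚ_[p]) hz
    rw [Polynomial.hom_eval₂, map_zero] at h2
    rw [Polynomial.aeval_def, Polynomial.eval₂_map]
    convert h2 using 2
    all_goals first | rfl | exact Subsingleton.elim _ _
  rw [hF, map_mul, aeval_C] at h1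
  refine (mul_eq_zero.1 h1).resolve_left ?_
  rw [eq_ratCast]
  exact_mod_cast hd

end Pool.Agent.H436.CW
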