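import Pool.Agent.H436.CW.Sys
import Pool.Graph.R_seed8.Y720.MZ.Fib

/-!
# Finitely many local ideals for tame fibre products of conic bundles (helper436)
-/

set_option autoImplicit false
set_option linter.unusedVariables false
set_option linter.unusedSectionVars false
set_option linter.deprecated false
set_option linter.unusedSimpArgs false

open Filter Topology Pool.Agent.Y720.MZ Pool.Agent.H436.CB Pool.Agent.TH729.CV

namespace Pool.Agent.H436.CW

section gen

variable {L : Type*} [NontriviallyNormedField L] [CompleteSpace L] [CharZero L]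
  {k : Type*} [Field k] {σ : k →+* L}

/-- from a cylinder to its base -/
theorem fa_of_cyl {τ τ' : Type*} [Finite τ] [Finite τ'] {D : Set (τ → k)} {e : τ → τ'}
    (he : Function.Injective e) (h : FA σ {y : τ' → k | (fun i => y (e i)) ∈ D}) : FA σ D := by
  classical
  have key : ∀ x : τ → L, IA σ D x = Ideal.comap
      (MvPolynomial.rename e : MvPolynomial τ k →ₐ[k] MvPolynomial τ' k)
      (IA σ {y : τ' → k | (fun i => y (e i)) ∈ D} (Function.extend e x 0)) := by
    intro x
    ext f
    rw [Ideal.mem_comap, mem_IA_iff, mem_IA_iff]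
    constructor
    · rintro ⟨U, hU, hf⟩
      refine ⟨(fun z : τ' → L => fun i => z (e i)) ⁻¹' U, ?_, fun y hy hyU => ?_⟩
      · have hc : Continuous fun z : τ' → L => fun i => z (e i) :=
          continuous_pi fun i => continuous_apply _
        apply hc.continuousAt.preimage_mem_nhds
        have e1 : (fun i => Function.extend e x 0 (e i)) = x := by
          funext i
          rw [he.extend_apply]
        rw [e1]
        exact hU
      · rw [MvPolynomial.eval_rename]
        exact hf _ hy hyU
    · rintro ⟨U, hU, hf⟩
      have hc : Continuous fun v : τ → L => (Function.extend e v 0 : τ' → L) := by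
        refine continuous_pi fun i' => ?_
        by_cases hi : ∃ i, e i = i'
        · obtain ⟨i, rfl⟩ := hi
          simp only [he.extend_apply]
          exact continuous_apply i
        · simp only [Function.extend_apply' _ _ _ hi]
          exact continuous_const
      refine ⟨(fun v : τ → L => (Function.extend e v 0 : τ' → L)) ⁻¹' U,
        hc.continuousAt.preimage_mem_nhds hU, fun v hv hvU => ?_⟩
      have e1 : (fun i => (Function.extend e v 0 : τ' → k) (e i)) = v := by
        funext i
        rw [he.extend_apply]
      have e2 : (fun i' => σ ((Function.extend e v 0 : τ' → k) i')) =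
          Function.extend e (fun i => σ (v i)) 0 := by
        funext i'
        by_cases hi : ∃ i, e i = i'
        · obtain ⟨i, rfl⟩ := hi
          rw [he.extend_apply, he.extend_apply]
        · rw [Function.extend_apply' _ _ _ hi, Function.extend_apply' _ _ _ hi]
          simp
      have h1 := hf (Function.extend e v 0) (by
        change (fun i => (Function.extend e v 0 : τ' → k) (e i)) ∈ D
        rw [e1]; exact hv) (by rw [e2]; exact hvU)
      rw [MvPolynomial.eval_rename] at h1
      change MvPolynomial.eval (fun i => (Function.extend e v 0 : τ' → k) (e i)) f = 0 at h1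
      rw [e1] at h1
      exact h1
  refine (h.image fun J => Ideal.comap
      (MvPolynomial.rename e : MvPolynomial τ k →ₐ[k] MvPolynomial τ' k) J).subset ?_
  rintro _ ⟨x, rfl⟩
  exact ⟨_, ⟨_, rfl⟩, (key x).symm⟩

/-- products of sets in separate variables -/
theorem fa_split (hσ : DenseRange σ) {ι ι₁ ι₂ : Type*} [Finite ι] [Finite ι₁] [Finite ι₂]
    {e₁ : ι₁ → ι} {e₂ : ι₂ → ι} (i₁ : Function.Injective e₁) (i₂ : Function.Injective e₂)
    (hd : ∀ a b, e₁ a ≠ e₂ b) {D₁ : Set (ι₁ → k)} {D₂ : Set (ι₂ → k)} (h₁ : FA σ D₁)
    (h₂ : FA σ D₂) {T : Set (ι → k)}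
    (hT : ∀ y, y ∈ T ↔ (fun a => y (e₁ a)) ∈ D₁ ∧ (fun b => y (e₂ b)) ∈ D₂) : FA σ T := by
  classical
  let D : Bool → Set (ι → k) := fun b => if b then {y | (fun a => y (e₁ a)) ∈ D₁} else
    {y | (fun a => y (e₂ a)) ∈ D₂}
  have hD : ∀ b, FA σ (D b) := by
    intro b
    cases b
    · exact FA.cyl hσ h₂ i₂
    · exact FA.cyl hσ h₁ i₁
  have hP := FA.prod hD
  refine fa_of_cyl (e := fun i : ι => (decide (∃ a, e₁ a = i), i)) (fun i i' h => ?_) ?_
  · exact (Prod.mk.inj h).2
  · convert hP using 1
    ext y
    simp only [PD, Set.mem_setOf_eq]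
    rw [hT, Bool.forall_bool]
    have k1 : ∀ a, decide (∃ a', e₁ a' = e₁ a) = true := fun a => decide_eq_true ⟨a, rfl⟩
    have k2 : ∀ b, decide (∃ a', e₁ a' = e₂ b) = false := fun b =>
      decide_eq_false fun ⟨a, ha⟩ => hd a b ha
    have m1 : ((fun i => y (true, i)) ∈ D true) ↔ (fun a => y (true, e₁ a)) ∈ D₁ := Iff.rfl
    have m2 : ((fun i => y (false, i)) ∈ D false) ↔ (fun b => y (false, e₂ b)) ∈ D₂ := Iff.rfl
    rw [m1, m2]
    simp only [k1, k2]
    exact and_comm

variable [ProperSpace L]

/-- points -/
lemma fa_point (hσ : DenseRange σ) (ρ : k) : FA σ {y : Fin 1 → k | y 0 = ρ} := by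
  have h := FA.block σ hσ (n := 1) (f := MvPolynomial.X 0 - MvPolynomial.C ρ) (g := 0)
    (Or.inr ⟨by
      refine (MvPolynomial.totalDegree_sub _ _).trans (max_le ?_ ?_)
      · rw [MvPolynomial.totalDegree_X]; norm_num
      · rw [MvPolynomial.totalDegree_C]; norm_num, rfl⟩)
  convert h using 1
  ext y
  simp [sub_eq_zero]

/-- conics -/
lemma fa_conic (hσ : DenseRange σ) (a b : k) :
    FA σ {w : Fin 2 → k | w 0 ^ 2 - a * w 1 ^ 2 = b} := by
  have h := FA.block σ hσ (n := 2) (f := MvPolynomial.X 0 ^ 2 - MvPolynomial.C a *
    MvPolynomial.X 1 ^ 2 - MvPolynomial.C b) (g := 0)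
    (Or.inr ⟨by
      refine (MvPolynomial.totalDegree_sub _ _).trans (max_le ?_ ?_)
      · refine (MvPolynomial.totalDegree_sub _ _).trans (max_le ?_ ?_)
        · refine (MvPolynomial.totalDegree_pow _ _).trans ?_
          rw [MvPolynomial.totalDegree_X]
          norm_num
        · refine (MvPolynomial.totalDegree_mul _ _).trans ?_
          rw [MvPolynomial.totalDegree_C, zero_add]
          refine (MvPolynomial.totalDegree_pow _ _).trans ?_
          rw [MvPolynomial.totalDegree_X]
          norm_num
      · rw [MvPolynomial.totalDegree_C]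
        norm_num, rfl⟩)
  convert h using 1
  ext y
  simp [sub_eq_zero]

end gen

universe u t

section ins

variable {K : Type*} [Field K] [CharZero K] {α : Type*} [Fintype α] [DecidableEq α] {I : Type*}

/-- extension of a vector by a coordinate -/
def insK (j : α) (ρ : K) (z : {i // i ≠ j} → K) : α → K :=
  fun i => if h : i = j then ρ else z ⟨i, h⟩

lemma insK_self (j : α) (ρ : K) (z : {i // i ≠ j} → K) : insK j ρ z j = ρ := by
  rw [insK, dif_pos rfl]

lemma insK_ne {j : α} (ρ : K) (z : {i // i ≠ j} → K) (i : {i // i ≠ j}) :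
    insK j ρ z i.1 = z i := by
  rw [insK, dif_neg i.2]

lemma insK_restrict {j : α} {ρ : K} {z : α → K} (h : z j = ρ) :
    insK j ρ (fun i => z i.1) = z := by
  funext i
  rw [insK]
  split_ifs with hi
  · rw [hi, h]
  · rfl

lemma eval_Pr_insK (c : K) (f : α → Polynomial K) (j : α) (ρ : K) (z : {i // i ≠ j} → K) :
    MvPolynomial.eval (insK j ρ z) (Pr c f) =
      MvPolynomial.eval z (Pr (c * (f j).eval ρ) (fun i => f i.1)) := by
  rw [eval_Pr, eval_Pr, Fintype.prod_eq_mul_prod_subtype_ne _ j, insK_self]
  simp only [insK_ne]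
  ring

lemma mem_ptsK_ins {κ : I → Bool} {k c : I → K} {f : I → α → Polynomial K} (j : α) (ρ : K)
    (z : {i // i ≠ j} → K) (w : I ⊕ I → K) :
    Sum.elim (insK j ρ z) w ∈ ptsK (PA κ k c f) (PB κ k c f) ↔
      Sum.elim z w ∈ ptsK (PA κ k (fun i => c i * (f i j).eval ρ) fun i j' => f i j'.1)
        (PB κ k (fun i => c i * (f i j).eval ρ) fun i j' => f i j'.1) := by
  refine forall_congr' fun i => ?_
  simp only [Sum.elim_inl, Sum.elim_inr]
  unfold PA PB
  split_ifs
  · rw [eval_Pr_insK, MvPolynomial.eval_C, MvPolynomial.eval_C]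
  · rw [eval_Pr_insK, MvPolynomial.eval_C, MvPolynomial.eval_C]

lemma tame_restrict {I : Type*} [Fintype I] [DecidableEq I] {d : I → ℕ} (h : Tame d) (i₀ : I) :
    Tame (fun i : {i // i ≠ i₀} => d i.1) := by
  classical
  refine ⟨le_trans ?_ h.1, le_trans ?_ h.2⟩
  · rw [Fintype.sum_eq_add_sum_subtype_ne _ i₀]
    exact Nat.le_add_left _ _
  · refine Finset.card_le_card_of_injOn (fun i => i.1) (fun i hi => ?_) ?_
    · rw [Finset.mem_coe, Finset.mem_filter] at hi ⊢
      exact ⟨Finset.mem_univ _, hi.2⟩
    · intro i _ j _ hij
      exact Subtype.ext hij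

end ins

/-- **Finitely many local ideals, for separated coefficients.** -/
theorem prod_FA {K : Type u} [Field K] [CharZero K] {L : Type t} [NontriviallyNormedField L]
    [CompleteSpace L] [CharZero L] [ProperSpace L] {σ : K →+* L} (hσ : DenseRange σ)
    (h8 : W8 σ) : ∀ (m : ℕ) (α : Type) [Fintype α] [DecidableEq α] (I : Type) [Fintype I]
    [DecidableEq I]
    (κ : I → Bool) (k c : I → K) (f : I → α → Polynomial K),
    Fintype.card α + Fintype.card I = m → (∀ i, k i ≠ 0) → (∀ i j, f i j ≠ 0) →
    (∀ j, Tame fun i => (f i j).natDegree) →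
    FA σ (ptsK (PA κ k c f) (PB κ k c f)) := by
  classical
  intro m
  induction m using Nat.strong_induction_on with
  | _ m ih =>
    intro α _ _ I _ _ κ k c f hm hk hf hT
    by_cases hc : ∀ i, c i ≠ 0
    · obtain ⟨ν, hν, hnv, hmv⟩ := wprod.{u, 0, t} hk hc hf hT (κ := κ)
      have hfin : {e : α × K | (ν e.1).eval e.2 = 0}.Finite := by
        have h1 : {e : α × K | (ν e.1).eval e.2 = 0} ⊆
            ⋃ j : α, (fun ρ => (j, ρ)) '' ((ν j).roots.toFinset : Set K) := by
          rintro ⟨j, ρ⟩ h
          refine Set.mem_iUnion.2 ⟨j, ρ, ?_, rfl⟩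
          rw [Finset.mem_coe, Multiset.mem_toFinset, Polynomial.mem_roots (hν j)]
          exact h
        exact (Set.finite_iUnion fun j => (Finset.finite_toSet _).image _).subset h1
      have hB : FA σ {u | u ∈ ptsK (PA κ k c f) (PB κ k c f) ∧
          MvPolynomial.eval (fun j => u (Sum.inl j)) (Pr 1 ν) = 0} := by
        have hunion : {u | u ∈ ptsK (PA κ k c f) (PB κ k c f) ∧
            MvPolynomial.eval (fun j => u (Sum.inl j)) (Pr 1 ν) = 0} =
            ⋃ e ∈ hfin.toFinset, {u | u ∈ ptsK (PA κ k c f) (PB κ k c f) ∧
              u (Sum.inl e.1) = e.2} := by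
          ext u
          constructor
          · rintro ⟨hu, h0⟩
            rw [eval_Pr, one_mul, Finset.prod_eq_zero_iff] at h0
            obtain ⟨j, -, hj⟩ := h0
            refine Set.mem_iUnion₂.2 ⟨(j, u (Sum.inl j)), ?_, hu, rfl⟩
            rw [Set.Finite.mem_toFinset]
            exact hj
          · intro h
            obtain ⟨e, he, h1, h2⟩ := Set.mem_iUnion₂.1 h
            rw [Set.Finite.mem_toFinset] at he
            refine ⟨h1, ?_⟩
            rw [eval_Pr, one_mul]
            refine Finset.prod_eq_zero (Finset.mem_univ e.1) ?_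
            rw [h2]
            exact he
        rw [hunion]
        have h1 := FAon.biUnion (σ := σ) (Ω := Set.univ) hfin.toFinset (D := fun e =>
          {u | u ∈ ptsK (PA κ k c f) (PB κ k c f) ∧ u (Sum.inl e.1) = e.2}) ?_
        · unfold FAon at h1
          rw [Set.image_univ] at h1
          exact h1
        · rintro ⟨j, ρ⟩ -
          refine FA.on ?_ _
          have hcard : Fintype.card {i // i ≠ j} + Fintype.card I < m := by
            have h1 : Fintype.card {i // i ≠ j} < Fintype.card α := by
              refine Fintype.card_subtype_lt (x := j) ?_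
              simp
            omega
          have key := ih _ hcard {i // i ≠ j} I κ k (fun i => c i * (f i j).eval ρ)
            (fun i j' => f i j'.1) rfl hk (fun i j' => hf i j'.1) (fun j' => hT j'.1)
          refine fa_split hσ (e₁ := Sum.map Subtype.val id) (e₂ := fun _ : Fin 1 => Sum.inl j)
            ?_ ?_ ?_ key (fa_point hσ ρ) fun y => ?_
          · exact Function.Injective.sumMap Subtype.val_injective Function.injective_id
          · intro a b _
            exact Subsingleton.elim a b
          · rintro (a | a) b h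
            · exact a.2 (Sum.inl_injective h)
            · exact absurd h (by simp)
          · constructor
            · rintro ⟨hy1, hy2⟩
              refine ⟨?_, hy2⟩
              have e1 : y = Sum.elim (insK j ρ (fun i => y (Sum.inl i.1)))
                  (fun i => y (Sum.inr i)) := by
                funext s
                rcases s with i | i
                · rw [Sum.elim_inl, insK_restrict (z := fun i => y (Sum.inl i)) hy2]
                · rfl
              rw [e1, mem_ptsK_ins] at hy1
              have e2 : (fun a => y (Sum.map Subtype.val id a)) =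
                  Sum.elim (fun i : {i // i ≠ j} => y (Sum.inl i.1)) (fun i => y (Sum.inr i)) := by
                funext s
                rcases s with i | i <;> rfl
              rw [e2]
              exact hy1
            · rintro ⟨hy1, hy2⟩
              refine ⟨?_, hy2⟩
              have e1 : y = Sum.elim (insK j ρ (fun i => y (Sum.inl i.1)))
                  (fun i => y (Sum.inr i)) := by
                funext s
                rcases s with i | i
                · rw [Sum.elim_inl, insK_restrict (z := fun i => y (Sum.inl i)) hy2]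
                · rfl
              have e2 : (fun a => y (Sum.map Subtype.val id a)) =
                  Sum.elim (fun i : {i // i ≠ j} => y (Sum.inl i.1)) (fun i => y (Sum.inr i)) := by
                funext s
                rcases s with i | i <;> rfl
              rw [e2] at hy1
              rw [e1, mem_ptsK_ins]
              exact hy1
      have h1 := fin_abstract (σ := σ) (S := ptsK (PA κ k c f) (PB κ k c f))
        (Ω := Set.univ) isOpen_univ (B := {u | u ∈ ptsK (PA κ k c f) (PB κ k c f) ∧
          MvPolynomial.eval (fun j => u (Sum.inl j)) (Pr 1 ν) = 0}) (fun u hu => hu.1) ?_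
        (FA.on hB _)
      · unfold FAon at h1
        rw [Set.image_univ] at h1
        exact h1
      · intro y hy hyB _ g hg
        have hN : MvPolynomial.eval (fun j => y (Sum.inl j)) (Pr 1 ν) ≠ 0 := fun h0 =>
          hyB ⟨hy, h0⟩
        have hev : ∀ z : α → K, MvPolynomial.eval z (Pr 1 ν) ≠ 0 →
            ∀ j, (ν j).eval (z j) ≠ 0 := by
          intro z hz j
          rw [eval_Pr, one_mul] at hz
          exact Finset.prod_ne_zero_iff.1 hz j (Finset.mem_univ j)
        obtain ⟨ρ, hρ, hnear⟩ := N_near (σ := σ) (Pr 1 ν) hN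
        obtain ⟨U, hU, hgU⟩ := mem_IA_iff.1 hg
        rw [mem_VI]
        refine good_dense hσ hy hρ ?_ ?_ hU hgU
        · intro i
          obtain ⟨a1, a2⟩ := hnv _ (hev _ hN) i
          exact ⟨a1, a2, _, _, hy i⟩
        · intro z' hz' hn j
          exact hmv L σ h8 z' (hev _ (hnear z' hn)) hz' j
    · -- an equation with zero coefficient splits off
      push Not at hc
      obtain ⟨i₀, hi₀⟩ := hc
      have hcard : Fintype.card α + Fintype.card {i // i ≠ i₀} < m := by
        have h1 : Fintype.card {i // i ≠ i₀} < Fintype.card I := by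
          refine Fintype.card_subtype_lt (x := i₀) ?_
          simp
        omega
      have key := ih _ hcard α {i // i ≠ i₀} (fun i => κ i.1) (fun i => k i.1) (fun i => c i.1)
        (fun i j => f i.1 j) rfl (fun i => hk i.1) (fun i j => hf i.1 j)
        (fun j => tame_restrict (hT j) i₀)
      have hcon := fa_conic (σ := σ) hσ (if κ i₀ then k i₀ else 0) (if κ i₀ then 0 else k i₀)
      refine fa_split hσ (ι := α ⊕ (I ⊕ I)) (ι₁ := α ⊕ ({i // i ≠ i₀} ⊕ {i // i ≠ i₀}))
        (ι₂ := Fin 2) (e₁ := Sum.map id (Sum.map Subtype.val Subtype.val))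
        (e₂ := ![Sum.inr (Sum.inl i₀), Sum.inr (Sum.inr i₀)]) ?_ ?_ ?_ key hcon ?_
      · exact Function.Injective.sumMap Function.injective_id
          (Function.Injective.sumMap Subtype.val_injective Subtype.val_injective)
      · intro a b hab
        fin_cases a <;> fin_cases b <;> simp_all
      · rintro (j | i | i) b h
        · fin_cases b <;> simp at h
        · fin_cases b
          · simp at h; exact i.2 h
          · simp at h
        · fin_cases b
          · simp at h
          · simp at h; exact i.2 h
      · intro y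
        have hval : ∀ z : α → K, MvPolynomial.eval z (Pr (c i₀) (f i₀)) = 0 := by
          intro z
          rw [eval_Pr, hi₀, zero_mul]
        have h2 : (fun b => y ((![Sum.inr (Sum.inl i₀), Sum.inr (Sum.inr i₀)] :
            Fin 2 → α ⊕ (I ⊕ I)) b)) ∈ {w : Fin 2 → K | w 0 ^ 2 -
              (if κ i₀ then k i₀ else 0) * w 1 ^ 2 = if κ i₀ then 0 else k i₀} ↔
            y (Sum.inr (Sum.inl i₀)) ^ 2 - MvPolynomial.eval (fun j => y (Sum.inl j))
              (PA κ k c f i₀) * y (Sum.inr (Sum.inr i₀)) ^ 2 =
              MvPolynomial.eval (fun j => y (Sum.inl j)) (PB κ k c f i₀) := by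
          unfold PA PB
          simp only [Set.mem_setOf_eq, Matrix.cons_val_zero, Matrix.cons_val_one]
          split_ifs
          · rw [hval, MvPolynomial.eval_C]
          · rw [hval, MvPolynomial.eval_C]
        rw [h2]
        constructor
        · intro hy
          exact ⟨fun i => hy i.1, hy i₀⟩
        · rintro ⟨h3, h4⟩ i
          by_cases hi : i = i₀
          · rw [hi]; exact h4
          · exact h3 ⟨i, hi⟩

end Pool.Agent.H436.CW
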