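import Pool.Agent.H436.CW.Proj2

/-!
# The local closures at general points (helper436)
-/

set_option autoImplicit false
set_option linter.unusedVariables false
set_option linter.unusedSectionVars false
set_option linter.deprecated false
set_option linter.unusedSimpArgs false

open Filter Topology Pool.Agent.Y720.MZ Pool.Agent.H436.CB

namespace Pool.Agent.H436.CW

universe u w t

section nf

variable {K : Type*} [Field K] [CharZero K] {α I : Type*} [DecidableEq α] [DecidableEq I]

/-- the equations -/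
noncomputable def eqn (A B : I → MvPolynomial α K) (i : I) : MvPolynomial (α ⊕ (I ⊕ I)) K :=
  MvPolynomial.X (Sum.inr (Sum.inl i)) ^ 2 - MvPolynomial.rename Sum.inl (A i) *
    MvPolynomial.X (Sum.inr (Sum.inr i)) ^ 2 - MvPolynomial.rename Sum.inl (B i)

lemma sv_self (s s' : α ⊕ (I ⊕ I)) (b : K) :
    sv s b (MvPolynomial.X s') = if s' = s then MvPolynomial.C b else MvPolynomial.X s' := by
  rw [sv, MvPolynomial.bind₁_X_right]

/-- **Normal form modulo the equations.** -/
theorem exists_nf' (A B : I → MvPolynomial α K) (f : MvPolynomial (α ⊕ (I ⊕ I)) K) :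
    ∃ g : MvPolynomial (α ⊕ (I ⊕ I)) K, MA g ∧
      f - g ∈ Ideal.span (Set.range (eqn A B)) := by
  have : Infinite K := CharZero.infinite K
  induction f using MvPolynomial.induction_on with
  | C a => exact ⟨MvPolynomial.C a, fun i u t => by simp, by rw [sub_self]; exact zero_mem _⟩
  | add p q hp hq =>
    obtain ⟨g₁, m₁, h₁⟩ := hp
    obtain ⟨g₂, m₂, h₂⟩ := hq
    refine ⟨g₁ + g₂, fun i u t => ?_, ?_⟩
    · simp only [map_add]
      rw [m₁ i u t, m₂ i u t]
      ring
    · have e : p + q - (g₁ + g₂) = (p - g₁) + (q - g₂) := by ring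
      rw [e]
      exact add_mem h₁ h₂
  | mul_X p s hp =>
    obtain ⟨g, m, h⟩ := hp
    by_cases hs : ∃ i, s = Sum.inr (Sum.inl i)
    · obtain ⟨i₀, rfl⟩ := hs
      obtain ⟨g0, hg0⟩ : ∃ g0, g0 = sv (Sum.inr (Sum.inl i₀)) 0 g := ⟨_, rfl⟩
      obtain ⟨g1, hg1⟩ : ∃ g1, g1 = sv (Sum.inr (Sum.inl i₀)) 1 g := ⟨_, rfl⟩
      have e0 : ∀ u, MvPolynomial.eval u g0 =
          MvPolynomial.eval (Function.update u (Sum.inr (Sum.inl i₀)) 0) g := fun u => by
        rw [hg0, eval_sv]
      have e1 : ∀ u, MvPolynomial.eval u g1 =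
          MvPolynomial.eval (Function.update u (Sum.inr (Sum.inl i₀)) 1) g := fun u => by
        rw [hg1, eval_sv]
      obtain ⟨c, hc⟩ : ∃ c : MvPolynomial (α ⊕ (I ⊕ I)) K, c =
        MvPolynomial.rename Sum.inl (A i₀) * MvPolynomial.X (Sum.inr (Sum.inr i₀)) ^ 2 +
          MvPolynomial.rename Sum.inl (B i₀) := ⟨_, rfl⟩
      have ec : ∀ u : α ⊕ (I ⊕ I) → K, MvPolynomial.eval u c =
          MvPolynomial.eval (fun j => u (Sum.inl j)) (A i₀) * u (Sum.inr (Sum.inr i₀)) ^ 2 +
          MvPolynomial.eval (fun j => u (Sum.inl j)) (B i₀) := fun u => by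
        rw [hc]
        simp only [map_add, map_mul, map_pow, MvPolynomial.eval_X, MvPolynomial.eval_rename]
        rfl
      have ecu : ∀ (u : α ⊕ (I ⊕ I) → K) i t, MvPolynomial.eval
          (Function.update u (Sum.inr (Sum.inl i)) t) c = MvPolynomial.eval u c := fun u i t => by
        rw [ec, ec]
        congr 1
      have hgd : g = g0 + (g1 - g0) * MvPolynomial.X (Sum.inr (Sum.inl i₀)) := by
        apply MvPolynomial.funext
        intro u
        have k1 := m i₀ u (u (Sum.inr (Sum.inl i₀)))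
        rw [Function.update_eq_self] at k1
        rw [k1, map_add, map_mul, map_sub, MvPolynomial.eval_X, e0, e1]
        ring
      refine ⟨(g1 - g0) * c + g0 * MvPolynomial.X (Sum.inr (Sum.inl i₀)), fun i u t => ?_, ?_⟩
      · simp only [map_add, map_mul, map_sub, MvPolynomial.eval_X, ecu]
        by_cases hi : i = i₀
        · subst hi
          simp only [e0, e1, Function.update_idem, Function.update_self]
          ring
        · have hne : (Sum.inr (Sum.inl i₀) : α ⊕ (I ⊕ I)) ≠ Sum.inr (Sum.inl i) := by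
            intro h0
            exact hi (Sum.inl_injective (Sum.inr_injective h0)).symm
          have cm : ∀ b t', Function.update (Function.update u (Sum.inr (Sum.inl i)) t')
              (Sum.inr (Sum.inl i₀)) b = Function.update (Function.update u
                (Sum.inr (Sum.inl i₀)) b) (Sum.inr (Sum.inl i)) t' := fun b t' =>
            Function.update_comm hne.symm _ _ _
          simp only [e0, e1, cm, Function.update_of_ne hne]
          rw [m i (Function.update u (Sum.inr (Sum.inl i₀)) 0) t,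
            m i (Function.update u (Sum.inr (Sum.inl i₀)) 1) t]
          ring
      · have e : p * MvPolynomial.X (Sum.inr (Sum.inl i₀)) -
            ((g1 - g0) * c + g0 * MvPolynomial.X (Sum.inr (Sum.inl i₀))) =
            MvPolynomial.X (Sum.inr (Sum.inl i₀)) * (p - g) +
              (g1 - g0) * eqn A B i₀ := by
          have e2 : eqn A B i₀ = MvPolynomial.X (Sum.inr (Sum.inl i₀)) ^ 2 - c := by
            rw [eqn, hc]; ring
          rw [e2]
          linear_combination (MvPolynomial.X (Sum.inr (Sum.inl i₀))) * hgd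
        rw [e]
        exact add_mem (Ideal.mul_mem_left _ _ h)
          (Ideal.mul_mem_left _ _ (Ideal.subset_span ⟨i₀, rfl⟩))
    · refine ⟨g * MvPolynomial.X s, fun i u t => ?_, ?_⟩
      · have hne : s ≠ Sum.inr (Sum.inl i) := fun h0 => hs ⟨i, h0⟩
        simp only [map_mul, MvPolynomial.eval_X, Function.update_of_ne hne]
        rw [m i u t]
        ring
      · have e : p * MvPolynomial.X s - g * MvPolynomial.X s = MvPolynomial.X s * (p - g) := by
          ring
        rw [e]
        exact Ideal.mul_mem_left _ _ h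

lemma span_zero {A B : I → MvPolynomial α K} {f : MvPolynomial (α ⊕ (I ⊕ I)) K}
    (hf : f ∈ Ideal.span (Set.range (eqn A B))) {u : α ⊕ (I ⊕ I) → K} (hu : u ∈ ptsK A B) :
    MvPolynomial.eval u f = 0 := by
  have h1 : Ideal.span (Set.range (eqn A B)) ≤ RingHom.ker (MvPolynomial.eval u) := by
    rw [Ideal.span_le]
    rintro _ ⟨i, rfl⟩
    show MvPolynomial.eval u (eqn A B i) = 0
    rw [eqn]
    simp only [map_sub, map_mul, map_pow, MvPolynomial.eval_X, MvPolynomial.eval_rename]
    have := hu i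
    change u (Sum.inr (Sum.inl i)) ^ 2 - MvPolynomial.eval (fun j => u (Sum.inl j)) (A i) *
      u (Sum.inr (Sum.inr i)) ^ 2 - MvPolynomial.eval (fun j => u (Sum.inl j)) (B i) = 0
    rw [this, sub_self]
  exact h1 hf

end nf

section main

variable {K : Type*} [Field K] [CharZero K] {L : Type*} [NontriviallyNormedField L]
  [CompleteSpace L] [CharZero L] {σ : K →+* L} {α : Type*} [Fintype α] [DecidableEq α]
  {I : Type*} [Fintype I] [DecidableEq I]

/-- **Local Zariski density at a good rational point.** -/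
theorem good_span (hσ : DenseRange σ) {A B : I → MvPolynomial α K}
    {y : α ⊕ (I ⊕ I) → K} (hy : y ∈ ptsK A B) {ρ : ℝ} (hρ : 0 < ρ)
    (hPz : Pz A B fun j => y (Sum.inl j))
    (hW : ∀ z' : α → K, Pz A B z' → (∀ j, ‖σ (z' j) - σ (y (Sum.inl j))‖ < ρ) → ∀ j,
      Ww σ (fun z u => Pz A B (fun i => z i + u * (Pi.single j 1 : α → K) i)) z')
    {f : MvPolynomial (α ⊕ (I ⊕ I)) K} {U : Set (α ⊕ (I ⊕ I) → L)}
    (hU : U ∈ 𝓝 fun s => σ (y s))
    (hf : ∀ u ∈ ptsK A B, (fun s => σ (u s)) ∈ U → MvPolynomial.eval u f = 0) :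
    f ∈ Ideal.span (Set.range (eqn A B)) := by
  obtain ⟨g, hg, hgf⟩ := exists_nf' A B f
  suffices h : g = 0 by
    rw [h, sub_zero] at hgf
    exact hgf
  -- the normal form vanishes at all rational points, by local density
  have hfg : ∀ u ∈ ptsK A B, MvPolynomial.eval u f = MvPolynomial.eval u g := by
    intro u hu
    have := span_zero hgf hu
    rw [map_sub, sub_eq_zero] at this
    exact this
  have hall := good_dense hσ hy hρ hPz hW hU hf
  -- the base points close to the given one
  have hg0 : ∀ w : I ⊕ I → K, ∀ z : α → K, MvPolynomial.eval (Sum.elim z w) g = 0 := by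
    intro w
    obtain ⟨G, hG⟩ := exists_fibz g w
    have hG0 : G = 0 := by
      refine base_dense (σ := σ) (P := Pz A B) (z := fun j => y (Sum.inl j))
        (ρ := ρ) hPz hρ (fun z' hz' hn j => hW z' hz' hn j) fun z' hz' hn => ?_
      rw [hG]
      have hw : w = Sum.elim (fun i => w (Sum.inl i)) (fun i => w (Sum.inr i)) := by
        funext i; rcases i with i | i <;> rfl
      rw [hw]
      refine fib_zero hz' hg (fun x₁ y₁ hxy₁ => ?_) _ _
      have hmem : Sum.elim z' (Sum.elim x₁ y₁) ∈ ptsK A B := fun i => by simpa using hxy₁ i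
      rw [← hfg _ hmem]
      exact hall _ hmem
    intro z
    rw [← hG, hG0, map_zero]
  have : Infinite K := CharZero.infinite K
  apply MvPolynomial.funext
  intro u
  have e1 : u = Sum.elim (fun j => u (Sum.inl j)) (fun i => u (Sum.inr i)) := by
    funext i; rcases i with i | i <;> rfl
  rw [e1, hg0, map_zero]

end main

/-- **The local closures at general points.** -/
theorem gen_main {K : Type u} [Field K] [CharZero K] {α : Type w} [Fintype α] [DecidableEq α]
    {I : Type*} [Fintype I] [DecidableEq I] {A B : I → MvPolynomial α K} (hA : ∀ i, A i ≠ 0)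
    (hB : ∀ i, B i ≠ 0)
    (hc : ∀ i j, (A i).degreeOf j = 0 ∨ (B i).degreeOf j = 0)
    (hT : ∀ j, Tame fun i => (A i).degreeOf j + (B i).degreeOf j) :
    ∃ N : MvPolynomial α K, N ≠ 0 ∧ ∀ (L : Type t) [NontriviallyNormedField L] [CompleteSpace L]
      [CharZero L] (σ : K →+* L), DenseRange σ → W8 σ → ∀ x : α ⊕ (I ⊕ I) → L,
      MvPolynomial.eval₂ σ (fun j => x (Sum.inl j)) N ≠ 0 →
      {f : MvPolynomial (α ⊕ (I ⊕ I)) K | ∃ U ∈ 𝓝 x, ∀ y ∈ ptsK A B,
        (fun s => σ (y s)) ∈ U → MvPolynomial.eval y f = 0} = Set.univ ∨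
      {f : MvPolynomial (α ⊕ (I ⊕ I)) K | ∃ U ∈ 𝓝 x, ∀ y ∈ ptsK A B,
        (fun s => σ (y s)) ∈ U → MvPolynomial.eval y f = 0} =
          (Ideal.span (Set.range (eqn A B)) : Ideal (MvPolynomial (α ⊕ (I ⊕ I)) K)) := by
  obtain ⟨N, hN, hmv⟩ := wmain.{u, w, t} hA hB hc hT
  refine ⟨N * ∏ i, A i * B i, mul_ne_zero hN (Finset.prod_ne_zero_iff.2 fun i _ =>
    mul_ne_zero (hA i) (hB i)), ?_⟩
  intro L _ _ _ σ hσ h8 x hx
  by_cases hlim : ∃ U, IsOpen U ∧ x ∈ U ∧ ∀ y ∈ ptsK A B, (fun s => σ (y s)) ∉ U
  · left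
    obtain ⟨U, hUo, hxU, hU⟩ := hlim
    rw [Set.eq_univ_iff_forall]
    intro f
    exact ⟨U, hUo.mem_nhds hxU, fun y hy hyU => absurd hyU (hU y hy)⟩
  · right
    push Not at hlim
    apply Set.Subset.antisymm
    · rintro f ⟨U, hU, hf⟩
      obtain ⟨U', hUU, hUo, hxU⟩ := mem_nhds_iff.1 hU
      have hop : IsOpen {v : α ⊕ (I ⊕ I) → L |
          MvPolynomial.eval₂ σ (fun j => v (Sum.inl j)) (N * ∏ i, A i * B i) ≠ 0} := by
        refine isOpen_ne_fun ?_ continuous_const
        have h1 : (fun v : α ⊕ (I ⊕ I) → L =>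
            MvPolynomial.eval₂ σ (fun j => v (Sum.inl j)) (N * ∏ i, A i * B i)) =
            fun v => MvPolynomial.eval (fun j => v (Sum.inl j))
              (MvPolynomial.map σ (N * ∏ i, A i * B i)) := by
          funext v
          rw [MvPolynomial.eval_map]
        rw [h1]
        exact (MvPolynomial.continuous_eval _).comp
          (continuous_pi fun j => continuous_apply (Sum.inl j))
      obtain ⟨y, hy, hyU⟩ := hlim (U' ∩ {v : α ⊕ (I ⊕ I) → L |
          MvPolynomial.eval₂ σ (fun j => v (Sum.inl j)) (N * ∏ i, A i * B i) ≠ 0})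
        (hUo.inter hop) ⟨hxU, hx⟩
      have hyN : MvPolynomial.eval (fun j => y (Sum.inl j)) (N * ∏ i, A i * B i) ≠ 0 := by
        intro h0
        apply hyU.2
        rw [← MvPolynomial.eval_map]
        have := eval_map_s (s := fun _ : Unit => σ) () (N * ∏ i, A i * B i)
          (fun j => y (Sum.inl j))
        rw [h0, map_zero] at this
        exact this
      rw [map_mul] at hyN
      obtain ⟨ρ, hρ, hnear⟩ := N_near (σ := σ) N (left_ne_zero_of_mul hyN)
      refine good_span hσ hy hρ (fun i => ?_) (fun z' hz' hn j => ?_)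
        (hUo.mem_nhds hyU.1) fun u hu huU => hf u hu (hUU huU)
      · have h2 := right_ne_zero_of_mul hyN
        rw [map_prod] at h2
        have h3 := Finset.prod_ne_zero_iff.1 h2 i (Finset.mem_univ i)
        rw [map_mul] at h3
        exact ⟨left_ne_zero_of_mul h3, right_ne_zero_of_mul h3, _, _, hy i⟩
      · exact hmv L σ h8 z' (hnear z' hn) hz' j
    · intro f hf
      exact ⟨Set.univ, univ_mem, fun y hy _ => span_zero hf hy⟩

end Pool.Agent.H436.CW
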