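import Pool.Agent.H436.CW.Emb
import Pool.Agent.H436.CB.Real
import Pool.Graph.R_seed8.W279.Tri.LocComp

/-!
# Points of infinite order on the curves over a number field, and moves at an arbitrary place
# (helper436)
-/

set_option autoImplicit false
set_option linter.unusedVariables false
set_option linter.unusedSectionVars false
set_option linter.deprecated false
set_option linter.unusedSimpArgs false

open Filter Topology WeierstrassCurve Pool.Agent.Y720.MZ Pool.Agent.H436.CB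

namespace Pool.Agent.H436.CW

section io

variable {K : Type*} [Field K] [CharZero K] {p : ℕ} [hp : Fact p.Prime]

/-- a multiple close to the origin is not a torsion point -/
lemma not_tor [DecidableEq K] {σ : K →+* ℚ_[p]} {a b c : K} {C ρ : ℝ}
    (hB : Bd (av σ) a b c C ρ) {P : Pt a b c} {r : ℝ} (hr : r ≤ ρ) (hr0 : 0 < r)
    (hrp : r ≤ ‖(p : ℚ_[p])‖) (hP : Nb (av σ) ρ r P) (hPr : av σ (TT P) = r) {n : ℕ}
    (hn : n ≠ 0) : n • P ≠ 0 := by
  intro h0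
  have : NeZero n := ⟨hn⟩
  obtain ⟨i, j, hij, he⟩ := Finite.exists_ne_map_eq_of_infinite fun j : ℕ => ((p ^ j : ℕ) : ZMod n)
  have h1 : p ^ i • P = p ^ j • P := by
    rw [ZMod.natCast_eq_natCast_iff] at he
    have key : ∀ m : ℕ, m • P = (m % n) • P := by
      intro m
      conv_lhs => rw [← Nat.div_add_mod m n]
      rw [add_smul, mul_comm, mul_smul, h0, smul_zero, zero_add]
    rw [key (p ^ i), key (p ^ j), he]
  have h2 := U4 hB hr hr0 hrp hP hPr i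
  have h3 := U4 hB hr hr0 hrp hP hPr j
  rw [h1, h3] at h2
  have h4 : ‖(p : ℚ_[p])‖ ^ j = ‖(p : ℚ_[p])‖ ^ i := mul_right_cancel₀ hr0.ne' h2
  exact hij (pow_right_injective₀ norm_p_pos norm_p_lt.ne h4.symm)

/-- **Infinite order at the nearby parameters.** -/
theorem io_near {σ : K →+* ℚ_[p]} {θ₀ : ℚ_[p] × (Fin 4 → ℚ_[p])} (hw : θ₀.1 ≠ 0)
    (hS : IOt θ₀) :
    ∃ δ : ℝ, 0 < δ ∧ ∀ θ : K × (Fin 4 → K), ‖σ θ.1 - θ₀.1‖ < δ →
      (∀ j, ‖σ (θ.2 j) - θ₀.2 j‖ < δ) → θ.1 ≠ 0 ∧ IOt θ := by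
  letI : DecidableEq K := Classical.decEq K
  letI : DecidableEq ℚ_[p] := Classical.decEq _
  have hD : dsc (tA θ₀) (tB θ₀) (tC θ₀) ≠ 0 := hS.1
  have hns := tns hw hD
  have hinf := hS.2 hns
  let σ' : ∀ _ : Unit, K →+* ℚ_[p] := fun _ => σ
  obtain ⟨N, hN, hNp⟩ := near_pL (ι := Unit) (p := fun _ => p) (θ₀ := fun _ => θ₀)
    (fun _ => hD) (S := fun _ => .some _ _ hns) (fun _ => hinf)
    (r := fun i => min (1 / (100 * CL θ₀)) ‖(p : ℚ_[p])‖)
    (fun i => lt_min (Bd_baseL θ₀).hρ norm_p_pos) (fun i => min_le_left _ _)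
  have hNp := hNp ()
  obtain ⟨r, hr⟩ : ∃ r, r = av (RingHom.id _) (TT (N • (.some _ _ hns :
      Pt (tA θ₀) (tB θ₀) (tC θ₀)))) := ⟨_, rfl⟩
  have hrm : r ≤ min (1 / (100 * CL θ₀)) ‖(p : ℚ_[p])‖ := hr ▸ hNp.le
  have hr1 : r ≤ 1 / (100 * CL θ₀) := hrm.trans (min_le_left _ _)
  have hrp : r ≤ ‖(p : ℚ_[p])‖ := hrm.trans (min_le_right _ _)
  have hr0 : 0 < r := by
    rw [hr]
    exact (av (RingHom.id _)).pos (TT_ne (Bd_baseL θ₀) (min_le_left _ _) hNp (hinf N hN))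
  have hTn : TnL σ (lLp σ' (fun _ => θ₀)) θ₀ := TnLp_p (σ := σ') (θ₀ := fun _ => θ₀) ()
  have ev1 : ∀ᶠ θ in lLp σ' (fun _ => θ₀), θ.1 ≠ 0 := hTn.ne hw
  have ev2 : ∀ᶠ θ in lLp σ' (fun _ => θ₀), dsc (tA θ) (tB θ) (tC θ) ≠ 0 := hTn.dsc_ne hD
  have ev3 : ∀ᶠ θ in lLp σ' (fun _ => θ₀), Bd (av σ) (tA θ) (tB θ) (tC θ)
      (CL θ₀) (1 / (100 * CL θ₀)) := hTn.Bd
  have ev5 := ev_pL (σ := σ) (l := lLp σ' (fun _ => θ₀)) hTn hw hns hinf hN
    (min_le_left _ _) hNp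
  obtain ⟨δ, hδ, hb⟩ := lLp_ev (ev1.and (ev2.and (ev3.and ev5)))
  refine ⟨δ, hδ, fun θ h1 h2 => ?_⟩
  obtain ⟨g1, g2, g3, g5⟩ := hb θ (fun _ => h1) (fun _ j => h2 j)
  refine ⟨g1, g2, fun h n hn h0 => ?_⟩
  obtain ⟨g6, g7⟩ := g5 h
  rw [← hr] at g6 g7
  refine not_tor g3 hr1 hr0 hrp g6 g7 hn ?_
  rw [← mul_smul, mul_comm, mul_smul, h0, smul_zero]

end io

section w8

variable {K : Type*} [Field K] [CharZero K]

/-- good values of the first parameter -/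
theorem exists_io {p : ℕ} [Fact p.Prime] (σ : K →+* ℚ_[p]) {n : Fin 9 → K} (hA : n 1 ≠ 0)
    (h3 : n 3 ≠ 0) : ∃ τ : K, τ ≠ 0 ∧ IOt (th8 (Function.update n 0 τ)) := by
  obtain ⟨τp, hτp, hIO⟩ := io_gen (n := fun k => σ (n k)) ((map_ne_zero σ).2 hA)
    ((map_ne_zero σ).2 h3)
  have hA2 : (Function.update (fun k => σ (n k)) 0 τp) 1 = σ (n 1) :=
    Function.update_of_ne (by decide) _ _
  obtain ⟨δ, hδ, hb⟩ := io_near (σ := σ) (θ₀ := th8 (Function.update (fun k => σ (n k)) 0 τp)) (by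
    change Function.update (fun k => σ (n k)) 0 τp 1 ≠ 0
    rw [hA2]
    exact (map_ne_zero σ).2 hA) hIO
  obtain ⟨δc, hδc, hc⟩ := th8_cont (Function.update (fun k => σ (n k)) 0 τp) hδ
  let p' : Unit → ℕ := fun _ => p
  have : ∀ i, Fact (p' i).Prime := fun _ => ‹Fact p.Prime›
  obtain ⟨τ, hτ⟩ := dn_p (p := p') (fun a b _ => Subsingleton.elim a b) (fun _ => σ)
    (fun _ => τp) (min δc ‖τp‖) (lt_min hδc (norm_pos_iff.2 hτp))
  have hτ := hτ ()
  obtain ⟨π, hπ⟩ : ∃ π, π = Function.update n 0 τ := ⟨_, rfl⟩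
  refine ⟨τ, ?_, ?_⟩
  · rintro rfl
    rw [map_zero, zero_sub, norm_neg] at hτ
    exact absurd (hτ.trans_le (min_le_right _ _)) (lt_irrefl _)
  rw [← hπ]
  have hπk : ∀ k, ‖σ (π k) - (Function.update (fun k => σ (n k)) 0 τp) k‖ < δc := by
    intro k
    rw [hπ]
    by_cases hk : k = 0
    · subst hk
      rw [Function.update_self, Function.update_self]
      exact hτ.trans_le (min_le_left _ _)
    · rw [Function.update_of_ne hk, Function.update_of_ne hk, sub_self, norm_zero]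
      exact hδc
  obtain ⟨hc1, hc2⟩ := hc _ hπk
  exact (hb (th8 π) hc1 (fun j => by rw [th8_map]; exact hc2 j)).2

/-- weak moves of the parameter at one place, for rational data: there are arbitrarily small
nonzero parameters with the property -/
def Ww {L : Type*} [NontriviallyNormedField L] (σ : K →+* L) {ι : Type*}
    (Q : (ι → K) → K → Prop) (θ : ι → K) : Prop :=
  ∀ η : ℝ, 0 < η → ∃ u : K, u ≠ 0 ∧ ‖σ u‖ < η ∧ Q θ u

lemma Ww.mono {L : Type*} [NontriviallyNormedField L] {σ : K →+* L} {ι : Type*}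
    {Q Q' : (ι → K) → K → Prop} {θ : ι → K} (h : Ww σ Q θ) (hQ : ∀ u, Q θ u → Q' θ u) :
    Ww σ Q' θ := by
  intro η hη
  obtain ⟨u, h1, h2, h3⟩ := h η hη
  exact ⟨u, h1, h2, hQ u h3⟩

/-- **Weak moves for one condition of degree at most eight.** -/
theorem w8 {p : ℕ} [Fact p.Prime] (σp : K →+* ℚ_[p]) {L : Type*} [NontriviallyNormedField L]
    [CompleteSpace L] [ProperSpace L] (σ : K →+* L) {g : Fin 10 → K} (h9 : g 9 ≠ 0)
    (h0 : g 0 ≠ 0) (hΦ : Φg g ≠ 0) : Ww σ Sol g := by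
  have hL : CharZero L := charZero_of_injective_ringHom σ.injective
  letI : DecidableEq K := Classical.decEq K
  have h3 : nk g 3 ≠ 0 := by
    intro h
    apply hΦ
    rw [← nk_three h0, h, zero_mul]
  obtain ⟨τ, hτ0, hIO⟩ := exists_io σp (n := nk g) (by rw [nk_one]; exact h9) h3
  obtain ⟨π, hπ⟩ : ∃ π, π = Function.update (nk g) 0 τ := ⟨_, rfl⟩
  rw [← hπ] at hIO
  have hπ1 : π 1 ≠ 0 := by
    rw [hπ, Function.update_of_ne (by decide), nk_one]
    exact h9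
  have hπ0 : π 0 = τ := by rw [hπ, Function.update_self]
  have hσπ1 : (fun k => σ (π k)) 1 ≠ 0 := (map_ne_zero σ).2 hπ1
  intro η hη
  -- continuity of the new parameter
  have hemb : Continuous fun e : L × L =>
      ((fun k => σ (π k), 0, e.1, e.2) : (Fin 9 → L) × L × L × L) := by
    fun_prop
  have c8 : ContinuousAt (fun e : L × L => C8 (fun k => σ (π k)) e.1 e.2) (0, σ (π 1)) :=
    ContinuousAt.comp (f := fun e : L × L =>
      ((fun k => σ (π k), 0, e.1, e.2) : (Fin 9 → L) × L × L × L))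
      (g := fun e => C8 e.1 e.2.2.1 e.2.2.2)
      (an_C8 (e₀ := ((fun k => σ (π k), 0, 0, σ (π 1)) :
        (Fin 9 → L) × L × L × L)) hσπ1).continuousAt hemb.continuousAt
  have c7 : ContinuousAt (fun e : L × L => C7 (fun k => σ (π k)) e.1 e.2) (0, σ (π 1)) :=
    ContinuousAt.comp (f := fun e : L × L =>
      ((fun k => σ (π k), 0, e.1, e.2) : (Fin 9 → L) × L × L × L))
      (g := fun e => C7 e.1 e.2.2.1 e.2.2.2)
      (an_C7 (e₀ := ((fun k => σ (π k), 0, 0, σ (π 1)) :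
        (Fin 9 → L) × L × L × L)) hσπ1).continuousAt hemb.continuousAt
  have v8 : C8 (fun k => σ (π k)) 0 (σ (π 1)) = 4 * σ (π 1) := C8_zero hσπ1
  have v7 : C7 (fun k => σ (π k)) 0 (σ (π 1)) = -8 * σ (π 1) := C7_zero hσπ1
  have n8 : (fun e : L × L => C8 (fun k => σ (π k)) e.1 e.2) (0, σ (π 1)) ≠ 0 := by
    dsimp only
    rw [v8]
    exact mul_ne_zero (by norm_num) hσπ1
  have n7 : (fun e : L × L => C7 (fun k => σ (π k)) e.1 e.2) (0, σ (π 1)) ≠ 0 := by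
    dsimp only
    rw [v7]
    exact mul_ne_zero (by norm_num) hσπ1
  have c1 : ContinuousAt (fun e : L × L => e.1) (0, σ (π 1)) := continuousAt_fst
  have cu : ContinuousAt (fun e : L × L => σ τ * (-(e.1 * C7 (fun k => σ (π k)) e.1 e.2 /
      C8 (fun k => σ (π k)) e.1 e.2))) (0, σ (π 1)) :=
    continuousAt_const.mul ((c1.mul c7).div c8 n8).neg
  have cden : ContinuousAt (fun e : L × L => 1 + nc (fun k => σ (g k)) * (σ τ *
      (-(e.1 * C7 (fun k => σ (π k)) e.1 e.2 / C8 (fun k => σ (π k)) e.1 e.2))))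
      (0, σ (π 1)) := continuousAt_const.add (continuousAt_const.mul cu)
  have vu : (fun e : L × L => σ τ * (-(e.1 * C7 (fun k => σ (π k)) e.1 e.2 /
      C8 (fun k => σ (π k)) e.1 e.2))) (0, σ (π 1)) = 0 := by
    simp
  have nd : (fun e : L × L => 1 + nc (fun k => σ (g k)) * (σ τ *
      (-(e.1 * C7 (fun k => σ (π k)) e.1 e.2 / C8 (fun k => σ (π k)) e.1 e.2))))
      (0, σ (π 1)) ≠ 0 := by
    simp
  have cv : ContinuousAt (fun e : L × L => ‖(σ τ * (-(e.1 * C7 (fun k => σ (π k)) e.1 e.2 /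
      C8 (fun k => σ (π k)) e.1 e.2))) / (1 + nc (fun k => σ (g k)) * (σ τ *
      (-(e.1 * C7 (fun k => σ (π k)) e.1 e.2 / C8 (fun k => σ (π k)) e.1 e.2))))‖)
      (0, σ (π 1)) := (cu.div cden nd).norm
  obtain ⟨δ, hδ, hb⟩ := Metric.eventually_nhds_iff_ball.1
    ((c8.eventually_ne n8).and ((c7.eventually_ne n7).and ((cden.eventually_ne nd).and
      (cv.eventually_lt_const (u := η) (by
        simp only [zero_mul, zero_div, neg_zero, mul_zero, norm_zero]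
        exact hη)))))
  -- the rational point
  have hq0 : (0 : K) = (th8 π).2 0 := rfl
  obtain ⟨X, Y, hX0, hX1, hY1, hXY⟩ := quartic_dense σ (w := (th8 π).1) (q₁ := (th8 π).2 0)
    (q₂ := (th8 π).2 1) (q₃ := (th8 π).2 2) (q₄ := (th8 π).2 3) hπ1 hIO.1 hIO.2 hδ
  have hZ : Y ^ 2 = π 1 ^ 2 + cc π * X ^ 2 + cd π * X ^ 3 + ce π * X ^ 4 := by
    rw [hXY]
    change π 1 ^ 2 + 0 * X + cc _ * X ^ 2 + cd _ * X ^ 3 + ce _ * X ^ 4 = _
    ring
  have hmem : ((σ X, σ Y) : L × L) ∈ Metric.ball ((0, σ (π 1)) : L × L) δ := by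
    rw [Metric.mem_ball, Prod.dist_eq]
    refine max_lt ?_ ?_
    · rw [dist_zero_right]; exact hX1
    · rw [dist_eq_norm, ← map_sub]; exact hY1
  obtain ⟨k1, k2, k3, k4⟩ := hb _ hmem
  dsimp only at k1 k2 k3 k4
  have h8 : C8 π X Y ≠ 0 := by
    intro h
    apply k1
    rw [← C8_map, h, map_zero]
  have h7 : C7 π X Y ≠ 0 := by
    intro h
    apply k2
    rw [← C7_map, h, map_zero]
  obtain ⟨R, S, hRS⟩ := new_pt hπ1 hX0 hZ h8 rfl
  obtain ⟨v, hv⟩ : ∃ v, v = τ * (-(X * C7 π X Y / C8 π X Y)) := ⟨_, rfl⟩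
  have hv0 : v ≠ 0 := by
    rw [hv]
    exact mul_ne_zero hτ0 (neg_ne_zero.2 (div_ne_zero (mul_ne_zero hX0 h7) h8))
  have hσv : σ v = σ τ * (-(σ X * C7 (fun k => σ (π k)) (σ X) (σ Y) /
      C8 (fun k => σ (π k)) (σ X) (σ Y))) := by
    rw [hv]
    simp only [map_mul, map_neg, map_div₀, C7_map, C8_map]
  have hpv : R ^ 2 - π 1 * S ^ 2 = pv π v := by
    rw [hRS, hv, ← hπ0]
    simp only [fk, pv]
    simp only [Fin.isValue, show ((2 : Fin 9) : ℕ) = 2 from rfl,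
      show ((3 : Fin 9) : ℕ) = 3 from rfl, show ((4 : Fin 9) : ℕ) = 4 from rfl,
      show ((5 : Fin 9) : ℕ) = 5 from rfl, show ((6 : Fin 9) : ℕ) = 6 from rfl,
      show ((7 : Fin 9) : ℕ) = 7 from rfl, show ((8 : Fin 9) : ℕ) = 8 from rfl]
    ring
  rw [hπ] at hpv
  have hcu : 1 + nc g * v ≠ 0 := by
    intro h
    apply k3
    rw [← hσv, ← nc_map, ← map_mul, ← map_one σ, ← map_add, h, map_zero]
  refine ⟨v / (1 + nc g * v), div_ne_zero hv0 hcu, ?_, ?_⟩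
  · rw [← hσv, ← nc_map] at k4
    rw [map_div₀, map_add, map_mul, map_one]
    exact k4
  · exact sol_of_pv h0 hcu hpv

end w8

end Pool.Agent.H436.CW
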