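import Pool.Agent.H436.CW.Cone

/-!
# The compact models (helper436)
-/

set_option autoImplicit false
set_option linter.unusedVariables false
set_option linter.unusedSectionVars false
set_option linter.deprecated false
set_option linter.unusedSimpArgs false

open Filter Topology Pool.Agent.Y720.MZ Pool.Agent.H436.CB Pool.Agent.TH729.CV

namespace Pool.Agent.H436.CW

/-- the coordinates -/
abbrev Var (n r : ℕ) : Type := (Fin n × Fin 2) ⊕ (Fin r × Fin 3)

section ring

variable {R : Type*} [CommRing R] {n r : ℕ}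

/-- the value of a binary form of degree `d` -/
def form (d : ℕ) (F : ℕ → R) (T : Fin 2 → R) : R :=
  ∑ l ∈ Finset.range (d + 1), F l * T 0 ^ (d - l) * T 1 ^ l

/-- the action of the torus -/
def act (m : Fin r → Fin n → ℕ) (c : Fin n ⊕ Fin r → R) (y : Var n r → R) : Var n r → R :=
  Sum.elim (fun p => c (Sum.inl p.1) * y (Sum.inl p))
    (fun p => c (Sum.inr p.1) * (if p.2 = 2 then 1 else ∏ j, c (Sum.inl j) ^ m p.1 j) *
      y (Sum.inr p))

/-- the equations -/
def EqX (m : Fin r → Fin n → ℕ) (k c : Fin r → R) (F : Fin r → Fin n → ℕ → R)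
    (y : Var n r → R) : Prop :=
  ∀ i, y (Sum.inr (i, 0)) ^ 2 - k i * y (Sum.inr (i, 1)) ^ 2 =
    c i * (∏ j, form (2 * m i j) (F i j) fun e => y (Sum.inl (j, e))) * y (Sum.inr (i, 2)) ^ 2

/-- the vectors which give points of the ambient toric variety -/
def Prop' (y : Var n r → R) : Prop :=
  (∀ j, ∃ e, y (Sum.inl (j, e)) ≠ 0) ∧ ∀ i, ∃ e, y (Sum.inr (i, e)) ≠ 0

/-- the affine chart -/
def emb (ε : Fin n → Fin 2) (κ : Fin r → Bool) (u : Fin n ⊕ (Fin r ⊕ Fin r) → R) : Var n r → R :=
  Sum.elim (fun p => if p.2 = ε p.1 then 1 else u (Sum.inl p.1))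
    (fun p => if p.2 = 0 then u (Sum.inr (Sum.inl p.1)) else
      if p.2 = (if κ p.1 then 2 else 1) then 1 else u (Sum.inr (Sum.inr p.1)))

lemma act_map {S : Type*} [CommRing S] (φ : R →+* S) (m : Fin r → Fin n → ℕ)
    (c : Fin n ⊕ Fin r → R) (y : Var n r → R) (s : Var n r) :
    φ (act m c y s) = act m (fun i => φ (c i)) (fun s => φ (y s)) s := by
  rcases s with p | p
  · simp only [act, Sum.elim_inl, map_mul]
  · simp only [act, Sum.elim_inr, map_mul]
    split_ifs
    · rw [map_one]
    · rw [map_prod]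
      simp only [map_pow]

lemma emb_map {S : Type*} [CommRing S] (φ : R →+* S) (ε : Fin n → Fin 2) (κ : Fin r → Bool)
    (u : Fin n ⊕ (Fin r ⊕ Fin r) → R) (s : Var n r) :
    φ (emb ε κ u s) = emb ε κ (fun i => φ (u i)) s := by
  rcases s with p | p
  · simp only [emb, Sum.elim_inl]
    split_ifs <;> simp
  · simp only [emb, Sum.elim_inr]
    split_ifs <;> simp

lemma act_one (m : Fin r → Fin n → ℕ) (y : Var n r → R) : act m 1 y = y := by
  funext s
  rcases s with p | p
  · simp [act]
  · simp [act]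

lemma form_smul (d : ℕ) (F : ℕ → R) (t : R) (T : Fin 2 → R) :
    form d F (fun e => t * T e) = t ^ d * form d F T := by
  unfold form
  rw [Finset.mul_sum]
  refine Finset.sum_congr rfl fun l hl => ?_
  rw [Finset.mem_range] at hl
  have : d = (d - l) + l := by omega
  rw [mul_pow, mul_pow]
  conv_rhs => rw [this, pow_add]
  simp only [Nat.add_sub_cancel]
  ring

lemma eqX_act (m : Fin r → Fin n → ℕ) (k c : Fin r → R) (F : Fin r → Fin n → ℕ → R)
    (a : Fin n ⊕ Fin r → R) {y : Var n r → R} (h : EqX m k c F y) :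
    EqX m k c F (act m a y) := by
  intro i
  have h1 := h i
  simp only [act, Sum.elim_inl, Sum.elim_inr, form_smul, Finset.prod_mul_distrib]
  rw [if_neg (by decide), if_neg (by decide)]
  simp only [if_true, mul_one]
  have e1 : ∏ j, a (Sum.inl j) ^ (2 * m i j) = (∏ j, a (Sum.inl j) ^ m i j) ^ 2 := by
    rw [← Finset.prod_pow]
    refine Finset.prod_congr rfl fun j _ => ?_
    rw [← pow_mul, mul_comm]
  rw [e1]
  linear_combination (a (Sum.inr i) * ∏ j, a (Sum.inl j) ^ m i j) ^ 2 * h1

end ring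

section field

variable {R : Type*} [Field R] {n r : ℕ}

lemma prop_act (m : Fin r → Fin n → ℕ) {a : Fin n ⊕ Fin r → R} (ha : ∀ i, a i ≠ 0)
    {y : Var n r → R} (h : Prop' y) : Prop' (act m a y) := by
  refine ⟨fun j => ?_, fun i => ?_⟩
  · obtain ⟨e, he⟩ := h.1 j
    exact ⟨e, mul_ne_zero (ha _) he⟩
  · obtain ⟨e, he⟩ := h.2 i
    refine ⟨e, mul_ne_zero (mul_ne_zero (ha _) ?_) he⟩
    split_ifs
    · exact one_ne_zero
    · exact Finset.prod_ne_zero_iff.2 fun j _ => pow_ne_zero _ (ha _)

lemma act_inv (m : Fin r → Fin n → ℕ) {a : Fin n ⊕ Fin r → R} (ha : ∀ i, a i ≠ 0)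
    (y : Var n r → R) : act m (fun i => (a i)⁻¹) (act m a y) = y := by
  funext s
  rcases s with p | p
  · simp only [act, Sum.elim_inl]
    have := ha (Sum.inl p.1)
    field_simp
  · simp only [act, Sum.elim_inr]
    have h1 := ha (Sum.inr p.1)
    split_ifs with h
    · field_simp
    · have h2 : ∏ j, a (Sum.inl j) ^ m p.1 j ≠ 0 :=
        Finset.prod_ne_zero_iff.2 fun j _ => pow_ne_zero _ (ha _)
      have h3 : ∏ j, (a (Sum.inl j))⁻¹ ^ m p.1 j = (∏ j, a (Sum.inl j) ^ m p.1 j)⁻¹ := by
        rw [← Finset.prod_inv_distrib]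
        exact Finset.prod_congr rfl fun j _ => inv_pow _ _
      rw [h3]
      field_simp

/-- the torus coordinates of a point in a chart -/
def cin (m : Fin r → Fin n → ℕ) (ε : Fin n → Fin 2) (κ : Fin r → Bool) (x : Var n r → R) :
    Fin n ⊕ Fin r → R :=
  Sum.elim (fun j => x (Sum.inl (j, ε j)))
    (fun i => if κ i then x (Sum.inr (i, 2)) else
      x (Sum.inr (i, 1)) / ∏ j, x (Sum.inl (j, ε j)) ^ m i j)

/-- the affine coordinates of a point in a chart -/
def uin (m : Fin r → Fin n → ℕ) (ε : Fin n → Fin 2) (κ : Fin r → Bool) (x : Var n r → R) :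
    Fin n ⊕ (Fin r ⊕ Fin r) → R :=
  Sum.elim (fun j => x (Sum.inl (j, ε j + 1)) / x (Sum.inl (j, ε j)))
    (Sum.elim (fun i => if κ i then
      x (Sum.inr (i, 0)) / (x (Sum.inr (i, 2)) * ∏ j, x (Sum.inl (j, ε j)) ^ m i j) else
      x (Sum.inr (i, 0)) / x (Sum.inr (i, 1)))
    (fun i => if κ i then
      x (Sum.inr (i, 1)) / (x (Sum.inr (i, 2)) * ∏ j, x (Sum.inl (j, ε j)) ^ m i j) else
      x (Sum.inr (i, 2)) * (∏ j, x (Sum.inl (j, ε j)) ^ m i j) / x (Sum.inr (i, 1))))

/-- the points in a chart -/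
def Ch (ε : Fin n → Fin 2) (κ : Fin r → Bool) : Set (Var n r → R) :=
  {x | (∀ j, x (Sum.inl (j, ε j)) ≠ 0) ∧ ∀ i, x (Sum.inr (i, if κ i then 2 else 1)) ≠ 0}

lemma cin_ne {m : Fin r → Fin n → ℕ} {ε : Fin n → Fin 2} {κ : Fin r → Bool} {x : Var n r → R}
    (hx : x ∈ Ch ε κ) (s : Fin n ⊕ Fin r) : cin m ε κ x s ≠ 0 := by
  rcases s with j | i
  · exact hx.1 j
  · have h1 := hx.2 i
    simp only [cin, Sum.elim_inr]
    split_ifs with h
    · rw [if_pos h] at h1; exact h1
    · rw [if_neg h] at h1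
      exact div_ne_zero h1 (Finset.prod_ne_zero_iff.2 fun j _ => pow_ne_zero _ (hx.1 j))

lemma fin2_cases (e ε : Fin 2) : e = ε ∨ e = ε + 1 := by
  fin_cases e <;> fin_cases ε <;> simp

lemma chart_inv {m : Fin r → Fin n → ℕ} {ε : Fin n → Fin 2} {κ : Fin r → Bool}
    {x : Var n r → R} (hx : x ∈ Ch ε κ) :
    act m (cin m ε κ x) (emb ε κ (uin m ε κ x)) = x := by
  funext s
  rcases s with ⟨j, e⟩ | ⟨i, e⟩
  · have h1 := hx.1 j
    simp only [act, emb, cin, uin, Sum.elim_inl]
    rcases fin2_cases e (ε j) with h | h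
    · rw [if_pos h, mul_one, h]
    · have hne : e ≠ ε j := by
        rw [h]
        generalize ε j = a
        fin_cases a <;> simp
      rw [if_neg hne, h]
      field_simp
  · have h1 := hx.2 i
    have h2 : ∏ j, x (Sum.inl (j, ε j)) ^ m i j ≠ 0 :=
      Finset.prod_ne_zero_iff.2 fun j _ => pow_ne_zero _ (hx.1 j)
    simp only [act, emb, cin, uin, Sum.elim_inl, Sum.elim_inr]
    by_cases hκ : κ i = true
    · rw [if_pos hκ] at h1
      simp only [if_pos hκ]
      fin_cases e
      · simp only [Fin.zero_eta, Fin.isValue, if_true]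
        rw [if_neg (by decide)]
        field_simp
      · simp only [Fin.mk_one, Fin.isValue]
        rw [if_neg (by decide), if_neg (by decide), if_neg (by decide)]
        field_simp
      · simp only [Fin.reduceFinMk, Fin.isValue]
        simp only [if_true]
        rw [if_neg (by decide)]
        ring
    · rw [if_neg hκ] at h1
      simp only [if_neg hκ]
      fin_cases e
      · simp only [Fin.zero_eta, Fin.isValue, if_true]
        rw [if_neg (by decide)]
        field_simp
      · simp only [Fin.mk_one, Fin.isValue]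
        simp only [if_true]
        rw [if_neg (by decide), if_neg (by decide)]
        field_simp
      · simp only [Fin.reduceFinMk, Fin.isValue]
        simp only [if_true]
        rw [if_neg (by decide), if_neg (by decide)]
        field_simp

end field

end Pool.Agent.H436.CW
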