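import Pool.Agent.H436.CW.Proj

/-!
# Finitely many local ideals for the compact models (helper436)
-/

set_option autoImplicit false
set_option linter.unusedVariables false
set_option linter.unusedSectionVars false
set_option linter.deprecated false
set_option linter.unusedSimpArgs false

open Filter Topology Pool.Agent.Y720.MZ Pool.Agent.H436.CB Pool.Agent.TH729.CV

namespace Pool.Agent.H436.CW

section chart

variable {K : Type*} [Field K] [CharZero K] {n r : ℕ}

/-- a binary form in a chart -/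
noncomputable def fch (ε : Fin 2) (d : ℕ) (F : ℕ → K) : Polynomial K :=
  ∑ l ∈ Finset.range (d + 1), Polynomial.C (F l) * Polynomial.X ^ (if ε = 0 then l else d - l)

lemma fch_eval (ε : Fin 2) (d : ℕ) (F : ℕ → K) (z : K) :
    (fch ε d F).eval z = form d F (fun e => if e = ε then 1 else z) := by
  unfold fch form
  rw [Polynomial.eval_finsetSum]
  refine Finset.sum_congr rfl fun l _ => ?_
  rw [Polynomial.eval_mul, Polynomial.eval_C, Polynomial.eval_pow, Polynomial.eval_X]
  fin_cases ε
  · simp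
  · simp

lemma fch_deg (ε : Fin 2) (d : ℕ) (F : ℕ → K) : (fch ε d F).natDegree ≤ d := by
  unfold fch
  refine Polynomial.natDegree_sum_le_of_forall_le _ _ fun l hl => ?_
  rw [Finset.mem_range] at hl
  refine (Polynomial.natDegree_C_mul_X_pow_le _ _).trans ?_
  split_ifs <;> omega

lemma fch_ne {ε : Fin 2} {d : ℕ} {F : ℕ → K} (h : ∃ l ≤ d, F l ≠ 0) : fch ε d F ≠ 0 := by
  obtain ⟨l, hl, hF⟩ := h
  intro h0
  have h1 := congrArg (fun p => Polynomial.coeff p (if ε = 0 then l else d - l)) h0
  simp only [fch, Polynomial.finsetSum_coeff, Polynomial.coeff_C_mul_X_pow,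
    Polynomial.coeff_zero] at h1
  rw [Finset.sum_eq_single l] at h1
  · rw [if_pos rfl] at h1
    exact hF h1
  · intro l' hl' hne
    rw [Finset.mem_range] at hl'
    rw [if_neg]
    split_ifs <;> omega
  · intro h2
    rw [Finset.mem_range] at h2
    omega

/-- the equations in a chart -/
lemma eqX_emb {m : Fin r → Fin n → ℕ} {k c : Fin r → K} {F : Fin r → Fin n → ℕ → K}
    {ε : Fin n → Fin 2} {κ : Fin r → Bool} {u : Fin n ⊕ (Fin r ⊕ Fin r) → K} :
    EqX m k c F (emb ε κ u) ↔ u ∈ ptsK (PA κ k c fun i j => fch (ε j) (2 * m i j) (F i j))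
      (PB κ k c fun i j => fch (ε j) (2 * m i j) (F i j)) := by
  refine forall_congr' fun i => ?_
  simp only [emb, Sum.elim_inl, Sum.elim_inr, if_true]
  unfold PA PB
  have n1 : (1 : Fin 3) ≠ 0 := by decide
  have n2 : (2 : Fin 3) ≠ 0 := by decide
  have n3 : (1 : Fin 3) ≠ 2 := by decide
  have n4 : (2 : Fin 3) ≠ 1 := by decide
  by_cases hκ : κ i = true
  · simp only [if_pos hκ, eval_Pr, MvPolynomial.eval_C, fch_eval, if_neg n1, if_neg n2,
      if_neg n3, if_true, one_pow, mul_one]
  · simp only [if_neg hκ, eval_Pr, MvPolynomial.eval_C, fch_eval, if_neg n1, if_neg n2,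
      if_neg n4, if_true, one_pow, mul_one]
    constructor
    · intro h
      linear_combination h
    · intro h
      linear_combination h

lemma tame_ch {m : Fin r → Fin n → ℕ} {F : Fin r → Fin n → ℕ → K} (ε : Fin n → Fin 2) {j : Fin n}
    (h1 : ∑ i, m i j ≤ 4) (h2 : (Finset.univ.filter fun i => m i j ≠ 0).card ≤ 3) :
    Tame fun i => (fch (ε j) (2 * m i j) (F i j)).natDegree := by
  have hd : ∀ i, (fch (ε j) (2 * m i j) (F i j)).natDegree ≤ 2 * m i j := fun i => fch_deg _ _ _
  refine ⟨(Finset.sum_le_sum fun i _ => ?_).trans h1,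
    (Finset.card_le_card fun i hi => ?_).trans h2⟩
  · have := hd i
    dsimp only
    omega
  · rw [Finset.mem_filter] at hi ⊢
    have := hd i
    refine ⟨Finset.mem_univ i, ?_⟩
    have := hi.2
    dsimp only at this
    omega

end chart

section cont

variable {L : Type*} [NontriviallyNormedField L] {n r : ℕ}

lemma act_cont (m : Fin r → Fin n → ℕ) :
    Continuous fun e : (Fin n ⊕ Fin r → L) × (Var n r → L) => act m e.1 e.2 := by
  refine continuous_pi fun s => ?_
  rcases s with p | p
  · simp only [act, Sum.elim_inl]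
    fun_prop
  · simp only [act, Sum.elim_inr]
    split_ifs
    · fun_prop
    · fun_prop

lemma emb_cont (ε : Fin n → Fin 2) (κ : Fin r → Bool) :
    Continuous fun u : Fin n ⊕ (Fin r ⊕ Fin r) → L => emb ε κ u := by
  refine continuous_pi fun s => ?_
  rcases s with p | p
  · simp only [emb, Sum.elim_inl]
    split_ifs
    · exact continuous_const
    · exact continuous_apply _
  · simp only [emb, Sum.elim_inr]
    split_ifs <;> first | exact continuous_const | exact continuous_apply _

lemma ch_open (ε : Fin n → Fin 2) (κ : Fin r → Bool) :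
    IsOpen (Ch ε κ : Set (Var n r → L)) := by
  have h1 : IsOpen {x : Var n r → L | ∀ j, x (Sum.inl (j, ε j)) ≠ 0} := by
    simp only [Set.setOf_forall]
    exact isOpen_iInter_of_finite fun j => isOpen_ne_fun (continuous_apply _) continuous_const
  have h2 : IsOpen {x : Var n r → L | ∀ i, x (Sum.inr (i, if κ i then 2 else 1)) ≠ 0} := by
    simp only [Set.setOf_forall]
    exact isOpen_iInter_of_finite fun j => isOpen_ne_fun (continuous_apply _) continuous_const
  exact h1.inter h2

lemma uin_cont {m : Fin r → Fin n → ℕ} {ε : Fin n → Fin 2} {κ : Fin r → Bool}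
    {x : Var n r → L} (hx : x ∈ Ch ε κ) : ContinuousAt (fun x => uin m ε κ x) x := by
  have hΛ : ∀ i, ContinuousAt (fun x : Var n r → L => ∏ j, x (Sum.inl (j, ε j)) ^ m i j) x :=
    fun i => by
      have : Continuous fun x : Var n r → L => ∏ j, x (Sum.inl (j, ε j)) ^ m i j := by fun_prop
      exact this.continuousAt
  have hΛ0 : ∀ i, ∏ j, x (Sum.inl (j, ε j)) ^ m i j ≠ 0 := fun i =>
    Finset.prod_ne_zero_iff.2 fun j _ => pow_ne_zero _ (hx.1 j)
  have hc : ∀ s, ContinuousAt (fun x : Var n r → L => x s) x := fun s =>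
    (continuous_apply s).continuousAt
  rw [continuousAt_pi]
  intro s
  rcases s with j | i | i
  · simp only [uin, Sum.elim_inl]
    exact (hc _).div (hc _) (hx.1 j)
  · have h1 := hx.2 i
    simp only [uin, Sum.elim_inr, Sum.elim_inl]
    by_cases hκ : κ i = true
    · rw [if_pos hκ] at h1
      simp only [if_pos hκ]
      exact (hc _).div ((hc _).mul (hΛ i)) (mul_ne_zero h1 (hΛ0 i))
    · rw [if_neg hκ] at h1
      simp only [if_neg hκ]
      exact (hc _).div (hc _) h1
  · have h1 := hx.2 i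
    simp only [uin, Sum.elim_inr]
    by_cases hκ : κ i = true
    · rw [if_pos hκ] at h1
      simp only [if_pos hκ]
      exact (hc _).div ((hc _).mul (hΛ i)) (mul_ne_zero h1 (hΛ0 i))
    · rw [if_neg hκ] at h1
      simp only [if_neg hκ]
      exact ((hc _).mul (hΛ i)).div (hc _) h1

end cont

section map

variable {K L : Type*} [Field K] [Field L] (σ : K →+* L) {n r : ℕ}

lemma uin_map (m : Fin r → Fin n → ℕ) (ε : Fin n → Fin 2) (κ : Fin r → Bool) (x : Var n r → K)
    (s : Fin n ⊕ (Fin r ⊕ Fin r)) :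
    uin m ε κ (fun s => σ (x s)) s = σ (uin m ε κ x s) := by
  rcases s with j | i | i
  · simp only [uin, Sum.elim_inl, map_div₀]
  · simp only [uin, Sum.elim_inr, Sum.elim_inl]
    split_ifs <;> simp only [map_div₀, map_mul, map_prod, map_pow]
  · simp only [uin, Sum.elim_inr]
    split_ifs <;> simp only [map_div₀, map_mul, map_prod, map_pow]

lemma ch_map {ε : Fin n → Fin 2} {κ : Fin r → Bool} {x : Var n r → K}
    (h : (fun s => σ (x s)) ∈ Ch ε κ) : x ∈ Ch ε κ :=
  ⟨fun j h0 => h.1 j (by simp only [h0, map_zero]), fun i h0 => h.2 i (by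
    simp only [h0, map_zero])⟩

end map

section main

variable {K : Type*} [Field K] [CharZero K] {L : Type*} [NontriviallyNormedField L]
  [CompleteSpace L] [CharZero L] [ProperSpace L] {σ : K →+* L} {n r : ℕ}

/-- polynomials in the torus coordinates -/
lemma exists_pc (m : Fin r → Fin n → ℕ) (f : MvPolynomial (Var n r) K) (y : Var n r → K) :
    ∃ p : MvPolynomial (Fin n ⊕ Fin r) K, ∀ c, MvPolynomial.eval c p =
      MvPolynomial.eval (act m c y) f := by
  refine ⟨MvPolynomial.aeval (act m MvPolynomial.X fun s => MvPolynomial.C (y s)) f,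
    fun c => ?_⟩
  induction f using MvPolynomial.induction_on with
  | C a => simp
  | add p q hp hq => simp only [map_add, hp, hq]
  | mul_X p s hp =>
    rw [map_mul, map_mul, hp, map_mul, MvPolynomial.aeval_X, MvPolynomial.eval_X, act_map]
    simp only [MvPolynomial.eval_X, MvPolynomial.eval_C]

/-- polynomials in the affine coordinates -/
lemma exists_gu (m : Fin r → Fin n → ℕ) (ε : Fin n → Fin 2) (κ : Fin r → Bool)
    (f : MvPolynomial (Var n r) K) (c : Fin n ⊕ Fin r → K) :
    ∃ g : MvPolynomial (Fin n ⊕ (Fin r ⊕ Fin r)) K, ∀ u, MvPolynomial.eval u g =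
      MvPolynomial.eval (act m c (emb ε κ u)) f := by
  refine ⟨MvPolynomial.aeval (act m (fun i => MvPolynomial.C (c i)) (emb ε κ MvPolynomial.X)) f,
    fun u => ?_⟩
  induction f using MvPolynomial.induction_on with
  | C a => simp
  | add p q hp hq => simp only [map_add, hp, hq]
  | mul_X p s hp =>
    rw [map_mul, map_mul, hp, map_mul, MvPolynomial.aeval_X, MvPolynomial.eval_X, act_map]
    simp only [MvPolynomial.eval_C, emb_map, MvPolynomial.eval_X]

/-- **Finitely many local ideals in a chart.** -/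
theorem proj_FAon (hσ : DenseRange σ) (h8 : W8 σ) {m : Fin r → Fin n → ℕ} {k c : Fin r → K}
    {F : Fin r → Fin n → ℕ → K} (h1 : ∀ j, ∑ i, m i j ≤ 4)
    (h2 : ∀ j, (Finset.univ.filter fun i => m i j ≠ 0).card ≤ 3) (hk : ∀ i, k i ≠ 0)
    (hF : ∀ i j, ∃ l ≤ 2 * m i j, F i j l ≠ 0) (ε : Fin n → Fin 2) (κ : Fin r → Bool) :
    FAon σ {y : Var n r → K | Prop' y ∧ EqX m k c F y} (Ch ε κ) := by
  have hfa := prod_FA hσ h8 _ (Fin n) (Fin r) κ k c
    (fun i j => fch (ε j) (2 * m i j) (F i j)) rfl hk (fun i j => fch_ne (hF i j))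
    (fun j => tame_ch ε (h1 j) (h2 j))
  refine chart_FA hσ (fun c u => act m c (emb ε κ u)) (fun c u => act m c (emb ε κ u))
    (fun c u => ?_) ?_ (fun f c => exists_gu m ε κ f c)
    (fun f u => exists_pc m f (emb ε κ u)) (ch_open ε κ) (cin m ε κ) (uin m ε κ)
    (fun x hx => chart_inv hx) (fun x hx => uin_cont hx) ?_ ?_ hfa
  · funext s
    rw [act_map]
    simp only [emb_map]
  · exact (act_cont m).comp (continuous_fst.prodMk ((emb_cont ε κ).comp continuous_snd))
  · rintro y ⟨-, hyE⟩ hyC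
    have hyK := ch_map σ hyC
    refine ⟨cin m ε κ y, uin m ε κ y, ?_, (chart_inv hyK).symm, ?_⟩
    · rw [← eqX_emb]
      have h3 := eqX_act m k c F (fun i => (cin m ε κ y i)⁻¹) hyE
      have h4 := act_inv m (cin_ne (m := m) hyK) (emb ε κ (uin m ε κ y))
      rw [chart_inv hyK] at h4
      rwa [h4] at h3
    · funext s
      exact uin_map σ m ε κ y s
  · intro u hu a ha
    refine ⟨prop_act m ha ⟨fun j => ⟨ε j, ?_⟩, fun i => ⟨if κ i then 2 else 1, ?_⟩⟩,
      eqX_act m k c F a (eqX_emb.2 hu)⟩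
    · simp [emb]
    · simp only [emb, Sum.elim_inr]
      rw [if_neg (by split_ifs <;> decide)]
      simp

/-- every point lies in a chart -/
lemma exists_ch {R : Type*} [Field R] {m : Fin r → Fin n → ℕ} {k c : Fin r → R}
    {F : Fin r → Fin n → ℕ → R} {x : Var n r → R} (hx : Prop' x) (hX : EqX m k c F x) :
    ∃ ε κ, x ∈ Ch ε κ := by
  classical
  choose ε hε using hx.1
  refine ⟨ε, fun i => decide (x (Sum.inr (i, 2)) ≠ 0), hε, fun i => ?_⟩
  by_cases h : x (Sum.inr (i, 2)) ≠ 0
  · rw [if_pos (decide_eq_true h)]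
    exact h
  · rw [if_neg (by simpa using h)]
    intro h1
    push Not at h
    have h2 := hX i
    rw [h1, h] at h2
    obtain ⟨e, he⟩ := hx.2 i
    apply he
    have h3 : x (Sum.inr (i, 0)) = 0 := by
      have : x (Sum.inr (i, 0)) ^ 2 = 0 := by linear_combination h2
      exact pow_eq_zero_iff (two_ne_zero) |>.1 this
    fin_cases e
    · exact h3
    · exact h1
    · exact h

/-- **Finitely many local ideals for the compact models.** -/
theorem compact_fin (hσ : DenseRange σ) (h8 : W8 σ) {m : Fin r → Fin n → ℕ} {k c : Fin r → K}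
    {F : Fin r → Fin n → ℕ → K} (h1 : ∀ j, ∑ i, m i j ≤ 4)
    (h2 : ∀ j, (Finset.univ.filter fun i => m i j ≠ 0).card ≤ 3) (hk : ∀ i, k i ≠ 0)
    (hF : ∀ i j, ∃ l ≤ 2 * m i j, F i j l ≠ 0) :
    {J : Set (MvPolynomial (Var n r) K) | ∃ x : Var n r → L, Prop' x ∧
      EqX m (fun i => σ (k i)) (fun i => σ (c i)) (fun i j l => σ (F i j l)) x ∧
      J = {f | ∃ U ∈ 𝓝 x, ∀ y : Var n r → K, Prop' y → EqX m k c F y →
        (∃ a : Fin n ⊕ Fin r → L, (∀ s, a s ≠ 0) ∧ act m a (fun s => σ (y s)) ∈ U) →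
        ∀ a : Fin n ⊕ Fin r → K, MvPolynomial.eval (act m a y) f = 0}}.Finite := by
  have hfin : (⋃ e : (Fin n → Fin 2) × (Fin r → Bool),
      (fun x => (IA σ {y : Var n r → K | Prop' y ∧ EqX m k c F y} x :
        Set (MvPolynomial (Var n r) K))) '' (Ch e.1 e.2)).Finite := by
    refine Set.finite_iUnion fun e => ?_
    have h3 := proj_FAon hσ h8 h1 h2 hk hF (c := c) e.1 e.2
    unfold FAon at h3
    refine (h3.image fun I : Ideal (MvPolynomial (Var n r) K) =>
      (I : Set (MvPolynomial (Var n r) K))).subset ?_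
    rintro _ ⟨x, hx, rfl⟩
    exact ⟨_, ⟨x, hx, rfl⟩, rfl⟩
  refine hfin.subset ?_
  rintro _ ⟨x, hx, hX, rfl⟩
  obtain ⟨ε, κ, hxC⟩ := exists_ch hx hX
  refine Set.mem_iUnion.2 ⟨(ε, κ), x, hxC, ?_⟩
  dsimp only
  rw [← torus_J hσ (D := {y : Var n r → K | Prop' y ∧ EqX m k c F y}) (act m) (act m)
    (fun c y => ?_) (fun y => ?_) (act_one m) (act_one m) (fun f y => exists_pc m f y)
    (fun y hy a ha => ⟨prop_act m ha hy.1, eqX_act m k c F a hy.2⟩) x]
  · ext f
    constructor
    · rintro ⟨U, hU, h⟩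
      exact ⟨U, hU, fun y h3 h4 => h y ⟨h3, h4⟩⟩
    · rintro ⟨U, hU, h⟩
      exact ⟨U, hU, fun y hy => h y hy.1 hy.2⟩
  · funext s
    exact act_map σ m c y s
  · exact (act_cont m).comp (continuous_id.prodMk continuous_const)

end main

end Pool.Agent.H436.CW
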