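import Pool.Agent.H436.CW.Dense
import Pool.Agent.H436.CB.Prod

/-!
# Weak moves in the base (helper436)
-/

set_option autoImplicit false
set_option linter.unusedVariables false
set_option linter.unusedSectionVars false
set_option linter.deprecated false
set_option linter.unusedSimpArgs false

open Filter Topology Pool.Agent.Y720.MZ Pool.Agent.H436.CB

namespace Pool.Agent.H436.CW

universe u w t

section one

variable {K : Type*} [Field K] [CharZero K] {L : Type*} [NontriviallyNormedField L]
  {σ : K →+* L} {α : Type*} [Fintype α] [DecidableEq α] {I : Type*} [Fintype I]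

/-- the nonvanishing of a polynomial is an open condition -/
lemma ne_small {h : Polynomial K} (h0 : h.eval 0 ≠ 0) :
    ∃ δ : ℝ, 0 < δ ∧ ∀ u : K, ‖σ u‖ < δ → h.eval u ≠ 0 := by
  have c0 : ContinuousAt (fun y : L => (h.map σ).eval y) 0 :=
    (h.map σ).continuous_aeval.continuousAt
  have n0 : (fun y : L => (h.map σ).eval y) 0 ≠ 0 := by
    have e1 : (h.map σ).eval 0 = σ (h.eval 0) := by
      rw [← map_zero σ, Polynomial.eval_map, Polynomial.eval₂_at_apply]
    dsimp only
    rw [e1]
    exact (map_ne_zero σ).2 h0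
  obtain ⟨δ, hδ, hb⟩ := Metric.eventually_nhds_iff_ball.1 (c0.eventually_ne n0)
  refine ⟨δ, hδ, fun u hu h1 => hb (σ u) (by rw [Metric.mem_ball, dist_zero_right]; exact hu) ?_⟩
  rw [Polynomial.eval_map, Polynomial.eval₂_at_apply, h1, map_zero]

/-- a criterion for weak moves -/
lemma wvD_of {A B : I → MvPolynomial α K} {j : α}
    (hc : ∀ i, (A i).degreeOf j = 0 ∨ (B i).degreeOf j = 0)
    (hT : ∀ i, (A i).degreeOf j + (B i).degreeOf j ≤ 8) {z : α → K} (hz : Pz A B z)
    (h : Ww σ (fun z u => ∀ i, So (if (A i).degreeOf j = 0 then A i else B i)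
      (if (A i).degreeOf j = 0 then B i else A i) (Pi.single j 1) z u) z) :
    Ww σ (fun z u => Pz A B (fun i => z i + u * (Pi.single j 1 : α → K) i)) z := by
  intro η hη
  obtain ⟨δ, hδ, hb⟩ := ne_small (σ := σ) (h := rst (∏ i, A i * B i) z (Pi.single j 1)) (by
    rw [rst_ev]
    have e1 : (fun i => z i + 0 * (Pi.single j 1 : α → K) i) = z := by funext i; ring
    rw [e1, map_prod]
    refine Finset.prod_ne_zero_iff.2 fun i _ => ?_
    rw [map_mul]
    exact mul_ne_zero (hz i).1 (hz i).2.1)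
  obtain ⟨u, hu0, hu1, hu2⟩ := h (min η δ) (lt_min hη hδ)
  refine ⟨u, hu0, hu1.trans_le (min_le_left _ _), ?_⟩
  have hne := hb u (hu1.trans_le (min_le_right _ _))
  rw [rst_ev, map_prod] at hne
  have hne' := fun i => Finset.prod_ne_zero_iff.1 hne i (Finset.mem_univ i)
  intro i
  have hi := hne' i
  rw [map_mul] at hi
  obtain ⟨g1, g2, g3⟩ := hz i
  refine ⟨left_ne_zero_of_mul hi, right_ne_zero_of_mul hi, ?_⟩
  have k1 := hu2 i
  by_cases h0 : (A i).degreeOf j = 0
  · rw [if_pos h0, if_pos h0] at k1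
    obtain ⟨R, S, k2⟩ := k1 g2
    have k3 : (B i).degreeOf j ≤ 8 := by have := hT i; omega
    rw [gv_cf (deg_rst k3 z), evc_zero, evc_nine, rst_ev] at k2
    rw [deg0_shift h0]
    exact hs_mul g3 k2
  · rw [if_neg h0, if_neg h0] at k1
    have h0' := (hc i).resolve_left h0
    obtain ⟨R, S, k2⟩ := k1 g1
    have k3 : (A i).degreeOf j ≤ 8 := by have := hT i; omega
    rw [gv_cf (deg_rst k3 z), evc_zero, evc_nine, rst_ev] at k2
    have k4 := hs_mul (hs_symm g1 g2 g3) k2
    have k5 : MvPolynomial.eval (fun i => z i + u * (Pi.single j 1 : α → K) i) (B i) ≠ 0 :=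
      right_ne_zero_of_mul hi
    rw [deg0_shift h0'] at k5 ⊢
    exact hs_symm k5 (left_ne_zero_of_mul hi) k4

/-- nonvanishing of a polynomial close to a point -/
lemma N_near [CompleteSpace L] [CharZero L] (N : MvPolynomial α K) {z : α → K} (h : MvPolynomial.eval z N ≠ 0) :
    ∃ ρ : ℝ, 0 < ρ ∧ ∀ z' : α → K, (∀ i, ‖σ (z' i) - σ (z i)‖ < ρ) →
      MvPolynomial.eval z' N ≠ 0 := by
  have hev : ∀ w : α → K, MvPolynomial.eval (fun i => σ (w i)) (MvPolynomial.map σ N) =
      σ (MvPolynomial.eval w N) := by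
    intro w
    exact eval_map_s (s := fun _ : Unit => σ) () N w
  have hc : Continuous fun x : α → L => MvPolynomial.eval x (MvPolynomial.map σ N) :=
    MvPolynomial.continuous_eval _
  obtain ⟨ρ, hρ, hb⟩ := Metric.eventually_nhds_iff_ball.1
    (hc.continuousAt.eventually_ne (y := 0) (x := fun i => σ (z i)) (by
      rw [hev]; exact (map_ne_zero σ).2 h))
  refine ⟨ρ, hρ, fun z' hz' h0 => hb (fun i => σ (z' i)) ?_ ?_⟩
  · rw [Metric.mem_ball, dist_pi_lt_iff hρ]
    intro i
    rw [dist_eq_norm]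
    exact hz' i
  · rw [hev, h0, map_zero]

end one

section main

variable {K : Type u} [Field K] [CharZero K] {α : Type w} [Fintype α] [DecidableEq α]
  {I : Type*} [Fintype I]

/-- **Weak moves in all directions outside a divisor.** -/
theorem wmain {A B : I → MvPolynomial α K} (hA : ∀ i, A i ≠ 0) (hB : ∀ i, B i ≠ 0)
    (hc : ∀ i j, (A i).degreeOf j = 0 ∨ (B i).degreeOf j = 0)
    (hT : ∀ j, Tame fun i => (A i).degreeOf j + (B i).degreeOf j) :
    ∃ N : MvPolynomial α K, N ≠ 0 ∧ ∀ (L : Type t) [NontriviallyNormedField L] (σ : K →+* L),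
    W8 σ → ∀ z : α → K, MvPolynomial.eval z N ≠ 0 → Pz A B z → ∀ j,
      Ww σ (fun z u => Pz A B (fun i => z i + u * (Pi.single j 1 : α → K) i)) z := by
  have hG : ∀ j, Gw.{u, w, t} (fun z u => ∀ i, So (if (A i).degreeOf j = 0 then A i else B i)
      (if (A i).degreeOf j = 0 then B i else A i) (Pi.single j 1) z u) := by
    intro j
    refine wtree_sys (fun i => ?_) (fun i => ?_) ?_
    · by_cases h0 : (A i).degreeOf j = 0
      · rw [if_pos h0]; exact hA i
      · rw [if_neg h0]; exact hB i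
    · by_cases h0 : (A i).degreeOf j = 0
      · rw [if_pos h0]; exact hB i
      · rw [if_neg h0]; exact hA i
    · have e1 : (fun i => (if (A i).degreeOf j = 0 then B i else A i).degreeOf j) =
          fun i => (A i).degreeOf j + (B i).degreeOf j := by
        funext i
        by_cases h0 : (A i).degreeOf j = 0
        · rw [if_pos h0, h0, zero_add]
        · rw [if_neg h0, (hc i j).resolve_left h0, add_zero]
      rw [e1]
      exact hT j
  choose N hN h using hG
  refine ⟨∏ j, N j, Finset.prod_ne_zero_iff.2 fun j _ => hN j, ?_⟩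
  intro L _ σ h8 z hz hP j
  rw [map_prod] at hz
  exact wvD_of (fun i => hc i j) (tame_le (hT j)) hP
    (h j L σ h8 z (Finset.prod_ne_zero_iff.1 hz j (Finset.mem_univ j)))

/-- **Weak moves for separated coefficients.** -/
theorem wprod {κ : I → Bool} {k c : I → K} {f : I → α → Polynomial K} (hk : ∀ i, k i ≠ 0)
    (hc : ∀ i, c i ≠ 0) (hf : ∀ i j, f i j ≠ 0) (hT : ∀ j, Tame fun i => (f i j).natDegree) :
    ∃ ν : α → Polynomial K, (∀ j, ν j ≠ 0) ∧
    (∀ z : α → K, (∀ j, (ν j).eval (z j) ≠ 0) → ∀ i,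
      MvPolynomial.eval z (PA κ k c f i) ≠ 0 ∧ MvPolynomial.eval z (PB κ k c f i) ≠ 0) ∧
    ∀ (L : Type t) [NontriviallyNormedField L] (σ : K →+* L), W8 σ →
      ∀ z : α → K, (∀ j, (ν j).eval (z j) ≠ 0) → Pz (PA κ k c f) (PB κ k c f) z → ∀ j,
      Ww σ (fun z u => Pz (PA κ k c f) (PB κ k c f)
        (fun i => z i + u * (Pi.single j 1 : α → K) i)) z := by
  have hG : ∀ j, Gw.{u, 0, t} (fun (z : Unit → K) u => ∀ i, So (MvPolynomial.C (k i))
      (Polynomial.aeval (MvPolynomial.X ()) (f i j)) (Pi.single () 1) z u) := by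
    intro j
    refine wtree_sys (fun i => ?_) (fun i => aeval_X_ne (hf i j)) ?_
    · rw [Ne, MvPolynomial.C_eq_zero]; exact hk i
    · exact (hT j).mono fun i => deg_aeval_X_self () (f i j)
  choose N hN h using hG
  refine ⟨fun j => uni (N j) * ∏ i, f i j, fun j => mul_ne_zero (uni_ne (hN j))
    (Finset.prod_ne_zero_iff.2 fun i _ => hf i j), ?_, ?_⟩
  · intro z hz i
    have h3 : MvPolynomial.eval z (Pr (c i) (f i)) ≠ 0 := by
      rw [eval_Pr]
      refine mul_ne_zero (hc i) (Finset.prod_ne_zero_iff.2 fun j _ => ?_)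
      have := hz j
      rw [Polynomial.eval_mul, Polynomial.eval_prod] at this
      exact Finset.prod_ne_zero_iff.1 (right_ne_zero_of_mul this) i (Finset.mem_univ i)
    have h4 : MvPolynomial.eval z (MvPolynomial.C (k i) : MvPolynomial α K) ≠ 0 := by
      rw [MvPolynomial.eval_C]
      exact hk i
    unfold PA PB
    split_ifs
    · exact ⟨h4, h3⟩
    · exact ⟨h3, h4⟩
  · intro L _ σ h8 z hz hP j
    have h1 : MvPolynomial.eval (fun _ => z j) (N j) ≠ 0 := by
      have := hz j
      rw [Polynomial.eval_mul] at this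
      have h2 := uni_eval (RingHom.id K) (N j) (z j)
      rw [Polynomial.map_id, MvPolynomial.map_id] at h2
      rw [← h2]
      exact left_ne_zero_of_mul this
    have hCdeg : ∀ i, (MvPolynomial.C (k i) : MvPolynomial α K).degreeOf j = 0 := fun i =>
      MvPolynomial.degreeOf_C _ _
    have hd8 : ∀ i, (f i j).natDegree ≤ 8 := fun i => tame_le (hT j) i
    refine wvD_of (fun i => ?_) (fun i => ?_) hP ?_
    · unfold PA PB
      by_cases hi : κ i
      · left; rw [if_pos hi]; exact hCdeg i
      · right; rw [if_neg hi]; exact hCdeg i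
    · unfold PA PB
      have hp := (deg_Pr (c i) (f i) j).trans (hd8 i)
      by_cases hi : κ i
      · rw [if_pos hi, if_pos hi, hCdeg i, zero_add]; exact hp
      · rw [if_neg hi, if_neg hi, hCdeg i, add_zero]; exact hp
    · intro η hη
      obtain ⟨u, hu0, hu1, hu2⟩ := h j L σ h8 (fun _ => z j) h1 η hη
      refine ⟨u, hu0, hu1, fun i => ?_⟩
      have key := So_Pr (c := c i) (hd8 i) (hu2 i)
      unfold PA PB
      by_cases hi : κ i
      · rw [if_pos hi, if_pos hi, if_pos (hCdeg i), if_pos (hCdeg i)]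
        exact key
      · rw [if_neg hi, if_neg hi]
        by_cases h0 : (Pr (c i) (f i)).degreeOf j = 0
        · rw [if_pos h0, if_pos h0]
          exact So_const (deg_rst (hCdeg i).le _) u
        · rw [if_neg h0, if_neg h0]
          exact key

end main

end Pool.Agent.H436.CW
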