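import Pool.Agent.H436.CW.Io
import Pool.Agent.H436.CB.Sys

/-!
# Weak moves for systems of conditions (helper436)

The same reductions as for the moves, but pointwise over the base field and at one arbitrary place.
-/

set_option autoImplicit false
set_option linter.unusedVariables false
set_option linter.unusedSectionVars false
set_option linter.deprecated false
set_option linter.unusedSimpArgs false

open Filter Topology Pool.Agent.Y720.MZ Pool.Agent.H436.CB

namespace Pool.Agent.H436.CW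

section pull

variable {K : Type*} [Field K] [CharZero K] {L : Type*} [NontriviallyNormedField L] {σ : K →+* L}

/-- weak moves for conditions of degree at most eight -/
def W8 (σ : K →+* L) : Prop :=
  ∀ g : Fin 10 → K, g 9 ≠ 0 → g 0 ≠ 0 → Φg g ≠ 0 → Ww σ Sol g

/-- **Pulling back weak moves.** -/
theorem wpull {ι ι' : Type*} {Q : (ι → K) → K → Prop} {Q' : (ι' → K) → K → Prop} {θ : ι → K}
    {θ' : ι' → K} (P q : Polynomial K) (hP : P.eval 0 ≠ 0) (hq : q.eval 0 ≠ 0)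
    (hQ : ∀ y, q.eval y ≠ 0 → Q' θ' y → Q θ (y * P.eval y / q.eval y))
    (h : Ww σ Q' θ') : Ww σ Q θ := by
  intro η hη
  have e0 : ∀ R : Polynomial K, (R.map σ).eval 0 = σ (R.eval 0) := by
    intro R
    rw [← map_zero σ, Polynomial.eval_map, Polynomial.eval₂_at_apply]
  have e1 : ∀ (R : Polynomial K) (y : K), (R.map σ).eval (σ y) = σ (R.eval y) := by
    intro R y
    rw [Polynomial.eval_map, Polynomial.eval₂_at_apply]
  have cP : ContinuousAt (fun y : L => (P.map σ).eval y) 0 :=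
    (P.map σ).continuous_aeval.continuousAt
  have cq : ContinuousAt (fun y : L => (q.map σ).eval y) 0 :=
    (q.map σ).continuous_aeval.continuousAt
  have nP : (fun y : L => (P.map σ).eval y) 0 ≠ 0 := by
    dsimp only
    rw [e0]
    exact (map_ne_zero σ).2 hP
  have nq : (fun y : L => (q.map σ).eval y) 0 ≠ 0 := by
    dsimp only
    rw [e0]
    exact (map_ne_zero σ).2 hq
  have cv : ContinuousAt (fun y : L => ‖y * (P.map σ).eval y / (q.map σ).eval y‖) 0 :=
    ((continuousAt_id.mul cP).div cq nq).norm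
  obtain ⟨δ, hδ, hb⟩ := Metric.eventually_nhds_iff_ball.1
    ((cP.eventually_ne nP).and ((cq.eventually_ne nq).and
      (cv.eventually_lt_const (u := η) (by simpa using hη))))
  obtain ⟨y, hy0, hy1, hy2⟩ := h δ hδ
  obtain ⟨k1, k2, k3⟩ := hb (σ y) (by rw [Metric.mem_ball, dist_zero_right]; exact hy1)
  rw [e1, Ne, map_eq_zero] at k1 k2
  rw [e1, e1, ← map_mul, ← map_div₀] at k3
  exact ⟨y * P.eval y / q.eval y, div_ne_zero (mul_ne_zero hy0 k1) k2, k3, hQ y k2 hy2⟩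

/-- good values of a parameter -/
lemma exists_good' (P : Polynomial K) (hP : P ≠ 0) : ∃ τ : K, τ ≠ 0 ∧ P.eval τ ≠ 0 := by
  have : Infinite K := CharZero.infinite K
  have h1 : P * Polynomial.X ≠ 0 := mul_ne_zero hP Polynomial.X_ne_zero
  by_contra hcon
  push Not at hcon
  apply h1
  apply Polynomial.funext
  intro x
  rw [Polynomial.eval_mul, Polynomial.eval_X, Polynomial.eval_zero]
  by_cases hx : x = 0
  · rw [hx, mul_zero]
  · rw [hcon x hx, zero_mul]

/-- **Weak moves for two conditions of degree four.** -/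
theorem wv44 (h8 : W8 σ) {θ : Fin 2 × Fin 10 → K} (c9 : row θ 0 9 ≠ 0) (c0 : row θ 0 0 ≠ 0)
    (cT : Tg (row θ 0) ≠ 0) (g9 : row θ 1 9 ≠ 0) (g0 : row θ 1 0 ≠ 0)
    (gH : Hg (row θ 1) ≠ 0) : Ww σ (Sy2 4 4) θ := by
  obtain ⟨τ, hτ0, hτ⟩ := exists_good' (
    Polynomial.C (row θ 0 9 * (row θ 0 0 * Φg (row θ 1) +
      row θ 0 1 * row θ 1 0 * Hg (row θ 1))) * Polynomial.X ^ 2 -
    Polynomial.C (Tg (row θ 0) * row θ 1 0 * Hg (row θ 1))) (fun h => by
      have h1 := congrArg (Polynomial.eval 0) h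
      simp only [Polynomial.eval_sub, Polynomial.eval_mul, Polynomial.eval_C, Polynomial.eval_pow,
        Polynomial.eval_X, Polynomial.eval_zero] at h1
      apply mul_ne_zero (mul_ne_zero cT g0) gH
      linear_combination -h1)
  refine wpull (Q' := Sol)
    (θ' := pu4 (P1 (row θ 0) τ) (P2 (row θ 0)) (row θ 0 9) (Q1 (row θ 0) τ)
      (Q2 (row θ 0) τ) (row θ 1))
    (Polynomial.C (P1 (row θ 0) τ) + Polynomial.C (P2 (row θ 0)) * Polynomial.X)
    (Polynomial.C (row θ 0 9) + Polynomial.C (Q1 (row θ 0) τ) * Polynomial.X +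
      Polynomial.C (Q2 (row θ 0) τ) * Polynomial.X ^ 2) ?_ ?_ ?_ ?_
  · simp only [Polynomial.eval_add, Polynomial.eval_mul, Polynomial.eval_C, Polynomial.eval_X]
    rw [mul_zero, add_zero, P1]
    exact mul_ne_zero (mul_ne_zero (mul_ne_zero (by norm_num) c9) hτ0) c0
  · simp only [Polynomial.eval_add, Polynomial.eval_mul, Polynomial.eval_C, Polynomial.eval_X,
      Polynomial.eval_pow]
    rw [mul_zero, zero_pow two_ne_zero, mul_zero, add_zero, add_zero]
    exact c9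
  · intro y hq h hd0 hd1
    simp only [Polynomial.eval_add, Polynomial.eval_mul, Polynomial.eval_C, Polynomial.eval_X,
      Polynomial.eval_pow] at hq ⊢
    exact ⟨t4_sol hd0 τ hq, pu4_sol hd1 hq h⟩
  · refine h8 _ g9 ?_ ?_
    · exact mul_ne_zero (pow_ne_zero 4 c9) g0
    · rw [pu4_Φ]
      refine mul_ne_zero (mul_ne_zero (mul_ne_zero (mul_ne_zero (by norm_num)
        (pow_ne_zero 11 c9)) hτ0) (pow_ne_zero 2 c0)) ?_
      simp only [Polynomial.eval_sub, Polynomial.eval_mul, Polynomial.eval_C, Polynomial.eval_pow,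
        Polynomial.eval_X] at hτ
      intro h2
      apply hτ
      linear_combination h2

/-- **Weak moves for one condition of degree four and two of degree two.** -/
theorem wv422 (h8 : W8 σ) {θ : Fin 3 × Fin 10 → K} (c9 : row θ 0 9 ≠ 0) (c0 : row θ 0 0 ≠ 0)
    (cT : Tg (row θ 0) ≠ 0) (g9 : row θ 1 9 ≠ 0) (g0 : row θ 1 0 ≠ 0)
    (gD : Dg (row θ 1) ≠ 0) (h9 : row θ 2 9 ≠ 0) (h0 : row θ 2 0 ≠ 0) :
    Ww σ (Sy3 4 2 2) θ := by
  obtain ⟨τ, hτ0, hτ⟩ := exists_good' (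
    (Polynomial.C (row θ 1 0 * Tg (row θ 0)) +
      Polynomial.C (row θ 0 9 * (2 * row θ 0 0 * row θ 1 1 -
        row θ 0 1 * row θ 1 0)) * Polynomial.X ^ 2) *
    (Polynomial.C (-64 * row θ 0 9 ^ 2 * row θ 2 0 ^ 2) * Polynomial.X ^ 4 +
      (Polynomial.C (row θ 0 9 * (2048 * row θ 0 0 ^ 2 * row θ 2 0 *
        row θ 2 2 - 768 * row θ 0 0 ^ 2 * row θ 2 1 ^ 2 +
        256 * row θ 0 0 * row θ 0 1 * row θ 2 0 * row θ 2 1 -
        512 * row θ 0 0 * row θ 0 2 * row θ 2 0 ^ 2 +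
        128 * row θ 0 1 ^ 2 * row θ 2 0 ^ 2)) * Polynomial.X ^ 2 +
      Polynomial.C (-2048 * row θ 0 0 ^ 3 * row θ 0 3 * row θ 2 0 *
        row θ 2 1 + 4096 * row θ 0 0 ^ 3 * row θ 0 4 * row θ 2 0 ^ 2 +
        1024 * row θ 0 0 ^ 2 * row θ 0 1 * row θ 0 2 * row θ 2 0 *
        row θ 2 1 - 1024 * row θ 0 0 ^ 2 * row θ 0 2 ^ 2 * row θ 2 0 ^ 2 -
        256 * row θ 0 0 * row θ 0 1 ^ 3 * row θ 2 0 * row θ 2 1 +
        512 * row θ 0 0 * row θ 0 1 ^ 2 * row θ 0 2 * row θ 2 0 ^ 2 -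
        64 * row θ 0 1 ^ 4 * row θ 2 0 ^ 2)))) (by
      refine mul_ne_zero (fun h => ?_) (fun h => ?_)
      · have h1 := congrArg (Polynomial.eval 0) h
        simp only [Polynomial.eval_add, Polynomial.eval_mul, Polynomial.eval_C,
          Polynomial.eval_pow, Polynomial.eval_X, Polynomial.eval_zero] at h1
        apply mul_ne_zero g0 cT
        linear_combination h1
      · have h1 := congrArg (fun p => Polynomial.coeff p 4) h
        simp only [Polynomial.coeff_add, Polynomial.coeff_C_mul, Polynomial.coeff_X_pow,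
          Polynomial.coeff_C, Polynomial.coeff_zero] at h1
        apply mul_ne_zero (mul_ne_zero (show (-64 : K) ≠ 0 by norm_num)
          (pow_ne_zero 2 c9)) (pow_ne_zero 2 h0)
        simpa using h1)
  refine wpull (Q' := Sy2 4 4) (θ' := φ422 τ θ)
    (Polynomial.C (P1 (row θ 0) τ) + Polynomial.C (P2 (row θ 0)) * Polynomial.X)
    (Polynomial.C (row θ 0 9) + Polynomial.C (Q1 (row θ 0) τ) * Polynomial.X +
      Polynomial.C (Q2 (row θ 0) τ) * Polynomial.X ^ 2) ?_ ?_ ?_ ?_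
  · simp only [Polynomial.eval_add, Polynomial.eval_mul, Polynomial.eval_C, Polynomial.eval_X]
    rw [mul_zero, add_zero, P1]
    exact mul_ne_zero (mul_ne_zero (mul_ne_zero (by norm_num) c9) hτ0) c0
  · simp only [Polynomial.eval_add, Polynomial.eval_mul, Polynomial.eval_C, Polynomial.eval_X,
      Polynomial.eval_pow]
    rw [mul_zero, zero_pow two_ne_zero, mul_zero, add_zero, add_zero]
    exact c9
  · intro y hq h hd0 hd1 hd2
    simp only [Polynomial.eval_add, Polynomial.eval_mul, Polynomial.eval_C, Polynomial.eval_X,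
      Polynomial.eval_pow] at hq ⊢
    obtain ⟨k1, k2⟩ := h (by rw [φ422_zero]; exact pu2_Dl _ _ _ _ _ _)
      (by rw [φ422_one]; exact pu2_Dl _ _ _ _ _ _)
    rw [φ422_zero] at k1
    rw [φ422_one] at k2
    exact ⟨t4_sol hd0 τ hq, pu2_sol hd1 hq k1, pu2_sol hd2 hq k2⟩
  · have hk := Polynomial.eval_mul (R := K) ▸ hτ
    refine wv44 h8 ?_ ?_ ?_ ?_ ?_ ?_
    · exact g9
    · exact mul_ne_zero (pow_ne_zero 2 c9) g0
    · rw [φ422_zero, pu2_T]
      have h1 := left_ne_zero_of_mul hk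
      simp only [Polynomial.eval_add, Polynomial.eval_mul, Polynomial.eval_C,
        Polynomial.eval_pow, Polynomial.eval_X] at h1
      refine mul_ne_zero (mul_ne_zero (mul_ne_zero (mul_ne_zero (mul_ne_zero (by norm_num)
        (pow_ne_zero 5 c9)) (pow_ne_zero 2 c0)) hτ0) gD) ?_
      intro h2
      apply h1
      linear_combination h2
    · exact h9
    · exact mul_ne_zero (pow_ne_zero 2 c9) h0
    · rw [φ422_one, pu2_H]
      have h1 := right_ne_zero_of_mul hk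
      simp only [Polynomial.eval_add, Polynomial.eval_mul, Polynomial.eval_C,
        Polynomial.eval_pow, Polynomial.eval_X] at h1
      refine mul_ne_zero (pow_ne_zero 3 c9) ?_
      intro h2
      apply h1
      linear_combination h2

/-- **Weak moves for one condition of degree six and one of degree two.** -/
theorem wv62 (h8 : W8 σ) {θ : Fin 2 × Fin 10 → K} (c9 : row θ 0 9 ≠ 0) (c0 : row θ 0 0 ≠ 0)
    (cΨ : Ψg (row θ 0) ≠ 0) (g9 : row θ 1 9 ≠ 0) (g0 : row θ 1 0 ≠ 0) :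
    Ww σ (Sy2 6 2) θ := by
  obtain ⟨A, hA⟩ : ∃ A : K, A =
    -331776 * row θ 0 0 ^ 3 * row θ 1 0 * row θ 1 1 * row θ 1 2 +
    96768 * row θ 0 0 ^ 3 * row θ 1 1 ^ 3 +
    110592 * row θ 0 0 ^ 2 * row θ 0 1 * row θ 1 0 ^ 2 * row θ 1 2 -
    41472 * row θ 0 0 ^ 2 * row θ 0 1 * row θ 1 0 * row θ 1 1 ^ 2 +
    27648 * row θ 0 0 ^ 2 * row θ 0 2 * row θ 1 0 ^ 2 * row θ 1 1 -
    55296 * row θ 0 0 ^ 2 * row θ 0 3 * row θ 1 0 ^ 3 -
    6912 * row θ 0 0 * row θ 0 1 ^ 2 * row θ 1 0 ^ 2 * row θ 1 1 +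
    27648 * row θ 0 0 * row θ 0 1 * row θ 0 2 * row θ 1 0 ^ 3 -
    6912 * row θ 0 1 ^ 3 * row θ 1 0 ^ 3 := ⟨_, rfl⟩
  obtain ⟨B, hB⟩ : ∃ B : K, B =
    row θ 0 9 * (2304 * row θ 0 0 * row θ 1 0 ^ 2 * row θ 1 1 -
      768 * row θ 0 1 * row θ 1 0 ^ 3) := ⟨_, rfl⟩
  have hAB : A ≠ 0 ∨ B ≠ 0 := by
    by_contra hcon
    push Not at hcon
    obtain ⟨h1, h2⟩ := hcon
    rw [hA] at h1
    rw [hB] at h2
    have h3 := (mul_eq_zero.1 h2).resolve_left c9
    have hg := g0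
    have h4 : 3 * row θ 0 0 * row θ 1 1 = row θ 0 1 * row θ 1 0 := by
      have h5 : (768 * row θ 1 0 ^ 2) * (3 * row θ 0 0 * row θ 1 1 -
        row θ 0 1 * row θ 1 0) = 0 := by linear_combination h3
      have h6 := (mul_eq_zero.1 h5).resolve_left (mul_ne_zero (by norm_num) (pow_ne_zero 2 hg))
      linear_combination h6
    have h5 : row θ 1 1 = row θ 0 1 * row θ 1 0 / (3 * row θ 0 0) := by
      have := c0
      field_simp
      linear_combination h4
    apply mul_ne_zero (mul_ne_zero (show (-2048 : K) ≠ 0 by norm_num) cΨ)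
      (pow_ne_zero 3 hg)
    rw [← h1, h5, Ψg]
    have := c0
    field_simp
    ring
  obtain ⟨τ, hτ0, hτ⟩ := exists_good' (Polynomial.C A +
    Polynomial.C B * Polynomial.X ^ 2) (fun h => by
      rcases hAB with h1 | h1
      · apply h1
        have h2 := congrArg (fun p => Polynomial.coeff p 0) h
        simpa using h2
      · apply h1
        have h2 := congrArg (fun p => Polynomial.coeff p 2) h
        simp only [Polynomial.coeff_add, Polynomial.coeff_C_mul, Polynomial.coeff_X_pow,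
          Polynomial.coeff_C, Polynomial.coeff_zero] at h2
        simpa using h2)
  refine wpull (Q' := Sol)
    (θ' := pu6 (p61 (row θ 0) τ) (p63 (row θ 0) τ) (p64 (row θ 0) τ) (q60 (row θ 0))
      (q61 (row θ 0) τ) (q62 (row θ 0) τ) (q63 (row θ 0) τ) (q64 (row θ 0) τ) (row θ 1))
    (Polynomial.C (p61 (row θ 0) τ) + Polynomial.C (p63 (row θ 0) τ) * Polynomial.X ^ 2 +
      Polynomial.C (p64 (row θ 0) τ) * Polynomial.X ^ 3)
    (Polynomial.C (q60 (row θ 0)) + Polynomial.C (q61 (row θ 0) τ) * Polynomial.X +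
      Polynomial.C (q62 (row θ 0) τ) * Polynomial.X ^ 2 +
      Polynomial.C (q63 (row θ 0) τ) * Polynomial.X ^ 3 +
      Polynomial.C (q64 (row θ 0) τ) * Polynomial.X ^ 4)
    ?_ ?_ ?_ ?_
  · simp only [Polynomial.eval_add, Polynomial.eval_mul, Polynomial.eval_C, Polynomial.eval_X,
      Polynomial.eval_pow]
    rw [zero_pow two_ne_zero, zero_pow three_ne_zero, mul_zero, mul_zero, add_zero, add_zero, p61]
    exact mul_ne_zero (mul_ne_zero (mul_ne_zero (by norm_num) (pow_ne_zero 2 c9)) hτ0) c0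
  · simp only [Polynomial.eval_add, Polynomial.eval_mul, Polynomial.eval_C, Polynomial.eval_X,
      Polynomial.eval_pow]
    rw [zero_pow two_ne_zero, zero_pow three_ne_zero, zero_pow four_ne_zero, mul_zero, mul_zero,
      mul_zero, mul_zero, add_zero, add_zero, add_zero, add_zero, q60]
    exact pow_ne_zero 2 c9
  · intro y hq h hd0 hd1
    simp only [Polynomial.eval_add, Polynomial.eval_mul, Polynomial.eval_C, Polynomial.eval_X,
      Polynomial.eval_pow] at hq ⊢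
    exact ⟨t6_sol hd0 τ hq, pu6_sol hd1 hq h⟩
  · refine h8 _ g9 ?_ ?_
    · exact mul_ne_zero (pow_ne_zero 2 (pow_ne_zero 2 c9)) g0
    · rw [pu6_Φ]
      refine mul_ne_zero (mul_ne_zero (pow_ne_zero 12 c9) (pow_ne_zero 3 hτ0)) ?_
      simp only [Polynomial.eval_add, Polynomial.eval_mul, Polynomial.eval_C, Polynomial.eval_pow,
        Polynomial.eval_X, hA, hB] at hτ
      exact hτ

end pull

universe u w t

section gm

variable {K : Type u} [Field K] [CharZero K] {α : Type w} [Fintype α]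

/-- generic weak moves: outside the zeros of a polynomial, for all places with the required
property -/
def Gw (R : (α → K) → K → Prop) : Prop :=
  ∃ N : MvPolynomial α K, N ≠ 0 ∧ ∀ (L : Type t) [NontriviallyNormedField L] (σ : K →+* L),
    W8 σ → ∀ z : α → K, MvPolynomial.eval z N ≠ 0 → Ww σ R z

lemma Gw.mono {R R' : (α → K) → K → Prop} (h : Gw.{u, w, t} R) {N' : MvPolynomial α K}
    (hN' : N' ≠ 0)
    (hR : ∀ z u, MvPolynomial.eval z N' ≠ 0 → R z u → R' z u) : Gw.{u, w, t} R' := by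
  obtain ⟨N, hN, h⟩ := h
  refine ⟨N * N', mul_ne_zero hN hN', fun L _ σ h8 z hz => ?_⟩
  rw [map_mul] at hz
  exact (h L σ h8 z (left_ne_zero_of_mul hz)).mono fun u => hR z u (right_ne_zero_of_mul hz)

lemma Gw.mono' {R R' : (α → K) → K → Prop} (h : Gw.{u, w, t} R)
    (hR : ∀ z u, R z u → R' z u) :
    Gw.{u, w, t} R' := h.mono one_ne_zero fun z u _ => hR z u

/-- there are small elements -/
lemma small_K {L : Type*} [NontriviallyNormedField L] (σ : K →+* L) (h8 : W8 σ) {η : ℝ}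
    (hη : 0 < η) : ∃ u : K, u ≠ 0 ∧ ‖σ u‖ < η := by
  obtain ⟨g, hg⟩ : ∃ g : Fin 10 → K, g = ![1, 0, 0, 1, 0, 0, 0, 0, 0, 1] := ⟨_, rfl⟩
  obtain ⟨u, h1, h2, -⟩ := h8 g (by rw [hg]; exact one_ne_zero) (by rw [hg]; exact one_ne_zero) (by
    have e0 : g 0 = 1 := by rw [hg]; rfl
    have e1 : g 1 = 0 := by rw [hg]; rfl
    have e3 : g 3 = 1 := by rw [hg]; rfl
    rw [Φg, e0, e1, e3]
    norm_num) η hη
  exact ⟨u, h1, h2⟩

lemma Gw_triv {R : (α → K) → K → Prop} (h : ∀ z u, R z u) : Gw.{u, w, t} R := by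
  refine ⟨1, one_ne_zero, fun L _ σ h8 z _ η hη => ?_⟩
  obtain ⟨u, h1, h2⟩ := small_K σ h8 hη
  exact ⟨u, h1, h2, h z u⟩

lemma Ww_ev {ι : Type*} {L : Type*} [NontriviallyNormedField L] {σ : K →+* L}
    (c : ι → MvPolynomial α K) {Q : (ι → K) → K → Prop} {z : α → K} (h : Ww σ Q (evc c z)) :
    Ww σ (fun z u => Q (evc c z) u) z := h

lemma ev_mul_ne {z : α → K} {N N' : MvPolynomial α K} (h : MvPolynomial.eval z (N * N') ≠ 0) :
    MvPolynomial.eval z N ≠ 0 ∧ MvPolynomial.eval z N' ≠ 0 := by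
  rw [map_mul] at h
  exact ⟨left_ne_zero_of_mul h, right_ne_zero_of_mul h⟩

section cov

variable (c : Fin 10 → MvPolynomial α K) (z : α → K)

lemma Φg_e : MvPolynomial.eval z (Φg c) = Φg (evc c z) := by
  simp only [Φg, evc, map_add, map_sub, map_mul, map_pow, map_ofNat]

lemma Tg_e : MvPolynomial.eval z (Tg c) = Tg (evc c z) := by
  simp only [Tg, evc, map_add, map_sub, map_mul, map_pow, map_ofNat]

lemma Hg_e : MvPolynomial.eval z (Hg c) = Hg (evc c z) := by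
  simp only [Hg, evc, map_add, map_sub, map_mul, map_pow, map_ofNat]

lemma Dg_e : MvPolynomial.eval z (Dg c) = Dg (evc c z) := by
  simp only [Dg, evc, map_add, map_sub, map_mul, map_pow, map_ofNat]

lemma Ψg_e : MvPolynomial.eval z (Ψg c) = Ψg (evc c z) := by
  simp only [Ψg, evc, map_add, map_sub, map_mul, map_pow, map_ofNat]

end cov

/-- generic moves for one condition -/
lemma Gw8 {c : Fin 10 → MvPolynomial α K} (h9 : c 9 ≠ 0) (h0 : c 0 ≠ 0) (hΦ : Φg c ≠ 0) :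
    Gw.{u, w, t} (fun z u => Sol (evc c z) u) := by
  refine ⟨c 9 * (c 0 * Φg c), mul_ne_zero h9 (mul_ne_zero h0 hΦ), fun L _ σ h8 z hz => ?_⟩
  refine Ww_ev c (h8 _ ?_ ?_ ?_)
  · exact (ev_mul_ne hz).1
  · exact (ev_mul_ne (ev_mul_ne hz).2).1
  · rw [← Φg_e]
    exact (ev_mul_ne (ev_mul_ne hz).2).2

/-- generic moves for two conditions of degree four -/
lemma Gw44 {c d : Fin 10 → MvPolynomial α K} (hc : Dl 4 c) (hd : Dl 4 d) (c9 : c 9 ≠ 0)
    (c0 : c 0 ≠ 0) (cT : Tg c ≠ 0) (d9 : d 9 ≠ 0) (d0 : d 0 ≠ 0) (dH : Hg d ≠ 0) :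
    Gw.{u, w, t} (fun z u => Sol (evc c z) u ∧ Sol (evc d z) u) := by
  refine ⟨c 9 * (c 0 * (Tg c * (d 9 * (d 0 * Hg d)))), mul_ne_zero c9 (mul_ne_zero c0
    (mul_ne_zero cT (mul_ne_zero d9 (mul_ne_zero d0 dH)))), fun L _ σ h8 z hz => ?_⟩
  have h1 : Ww σ (fun z u => Sy2 4 4 (evc (two c d) z) u) z := by
    refine Ww_ev (Q := Sy2 4 4) (two c d) (wv44 h8 ?_ ?_ ?_ ?_ ?_ ?_)
    · exact (ev_mul_ne hz).1
    · exact (ev_mul_ne (ev_mul_ne hz).2).1
    · have := (ev_mul_ne (ev_mul_ne (ev_mul_ne hz).2).2).1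
      rw [Tg_e] at this
      exact this
    · exact (ev_mul_ne (ev_mul_ne (ev_mul_ne (ev_mul_ne hz).2).2).2).1
    · exact (ev_mul_ne (ev_mul_ne (ev_mul_ne (ev_mul_ne (ev_mul_ne hz).2).2).2).2).1
    · have := (ev_mul_ne (ev_mul_ne (ev_mul_ne (ev_mul_ne (ev_mul_ne hz).2).2).2).2).2
      rw [Hg_e] at this
      exact this
  refine h1.mono fun u h2 => ?_
  exact h2 (evc_Dl hc z) (evc_Dl hd z)

/-- generic moves for a condition of degree six and one of degree two -/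
lemma Gw62 {c d : Fin 10 → MvPolynomial α K} (hc : Dl 6 c) (hd : Dl 2 d) (c9 : c 9 ≠ 0)
    (c0 : c 0 ≠ 0) (cΨ : Ψg c ≠ 0) (d9 : d 9 ≠ 0) (d0 : d 0 ≠ 0) :
    Gw.{u, w, t} (fun z u => Sol (evc c z) u ∧ Sol (evc d z) u) := by
  refine ⟨c 9 * (c 0 * (Ψg c * (d 9 * d 0))), mul_ne_zero c9 (mul_ne_zero c0
    (mul_ne_zero cΨ (mul_ne_zero d9 d0))), fun L _ σ h8 z hz => ?_⟩
  have h1 : Ww σ (fun z u => Sy2 6 2 (evc (two c d) z) u) z := by
    refine Ww_ev (Q := Sy2 6 2) (two c d) (wv62 h8 ?_ ?_ ?_ ?_ ?_)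
    · exact (ev_mul_ne hz).1
    · exact (ev_mul_ne (ev_mul_ne hz).2).1
    · have := (ev_mul_ne (ev_mul_ne (ev_mul_ne hz).2).2).1
      rw [Ψg_e] at this
      exact this
    · exact (ev_mul_ne (ev_mul_ne (ev_mul_ne (ev_mul_ne hz).2).2).2).1
    · exact (ev_mul_ne (ev_mul_ne (ev_mul_ne (ev_mul_ne hz).2).2).2).2
  refine h1.mono fun u h2 => ?_
  exact h2 (evc_Dl hc z) (evc_Dl hd z)

/-- generic moves for a condition of degree four and two of degree two -/
lemma Gw422 {c d g : Fin 10 → MvPolynomial α K} (hc : Dl 4 c) (hd : Dl 2 d) (hg : Dl 2 g)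
    (c9 : c 9 ≠ 0) (c0 : c 0 ≠ 0) (cT : Tg c ≠ 0) (d9 : d 9 ≠ 0) (d0 : d 0 ≠ 0)
    (dD : Dg d ≠ 0) (g9 : g 9 ≠ 0) (g0 : g 0 ≠ 0) :
    Gw.{u, w, t} (fun z u => Sol (evc c z) u ∧ Sol (evc d z) u ∧ Sol (evc g z) u) := by
  refine ⟨c 9 * (c 0 * (Tg c * (d 9 * (d 0 * (Dg d * (g 9 * g 0)))))), mul_ne_zero c9
    (mul_ne_zero c0 (mul_ne_zero cT (mul_ne_zero d9 (mul_ne_zero d0 (mul_ne_zero dD
    (mul_ne_zero g9 g0)))))), fun L _ σ h8 z hz => ?_⟩
  have h1 : Ww σ (fun z u => Sy3 4 2 2 (evc (three c d g) z) u) z := by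
    have e1 := (ev_mul_ne hz).2
    have e2 := (ev_mul_ne e1).2
    have e3 := (ev_mul_ne e2).2
    have e4 := (ev_mul_ne e3).2
    have e5 := (ev_mul_ne e4).2
    have e6 := (ev_mul_ne e5).2
    refine Ww_ev (Q := Sy3 4 2 2) (three c d g) (wv422 h8 ?_ ?_ ?_ ?_ ?_ ?_ ?_ ?_)
    · exact (ev_mul_ne hz).1
    · exact (ev_mul_ne e1).1
    · have := (ev_mul_ne e2).1
      rw [Tg_e] at this
      exact this
    · exact (ev_mul_ne e3).1
    · exact (ev_mul_ne e4).1
    · have := (ev_mul_ne e5).1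
      rw [Dg_e] at this
      exact this
    · exact (ev_mul_ne e6).1
    · exact (ev_mul_ne e6).2
  refine h1.mono fun u h2 => ?_
  exact h2 (evc_Dl hc z) (evc_Dl hd z) (evc_Dl hg z)

section tree

variable {e : α → K}

/-- one condition of degree at most eight -/
theorem wtree8 {a f : MvPolynomial α K} (ha : a ≠ 0) (hf : f ≠ 0)
    (hd : ∀ z, (rst f z e).natDegree ≤ 8) : Gw.{u, w, t} (fun z u => So a f e z u) := by
  by_cases h : Φg (cf a f e) = 0
  · exact Gw_triv (So_Φ hd h)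
  · exact (Gw8 (c := cf a f e) ha (cf_zero_ne hf) h).mono' fun z u h1 _ => h1

/-- two conditions of degree at most four -/
theorem wtree44 {a f b g : MvPolynomial α K} (ha : a ≠ 0) (hf : f ≠ 0) (hb : b ≠ 0) (hg : g ≠ 0)
    (hfd : ∀ z, (rst f z e).natDegree ≤ 4) (hgd : ∀ z, (rst g z e).natDegree ≤ 4) :
    Gw.{u, w, t} (fun z u => So a f e z u ∧ So b g e z u) := by
  have hfd8 : ∀ z, (rst f z e).natDegree ≤ 8 := fun z => (hfd z).trans (by norm_num)
  have hgd8 : ∀ z, (rst g z e).natDegree ≤ 8 := fun z => (hgd z).trans (by norm_num)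
  by_cases h1 : Tg (cf a f e) = 0
  · exact (wtree8 hb hg hgd8).mono' fun z u h => ⟨So_T hfd8 h1 z u, h⟩
  by_cases h2 : Hg (cf b g e) = 0
  · exact (wtree8 ha hf hfd8).mono' fun z u h => ⟨h, So_H hgd8 h2 z u⟩
  exact (Gw44 (cf_Dl hfd) (cf_Dl hgd) ha (cf_zero_ne hf) h1 hb (cf_zero_ne hg) h2).mono'
    fun z u h => ⟨fun _ => h.1, fun _ => h.2⟩

/-- one condition of degree at most six and one of degree at most two -/
theorem wtree62 {a f b g : MvPolynomial α K} (ha : a ≠ 0) (hf : f ≠ 0) (hb : b ≠ 0) (hg : g ≠ 0)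
    (hfd : ∀ z, (rst f z e).natDegree ≤ 6) (hgd : ∀ z, (rst g z e).natDegree ≤ 2) :
    Gw.{u, w, t} (fun z u => So a f e z u ∧ So b g e z u) := by
  have hfd8 : ∀ z, (rst f z e).natDegree ≤ 8 := fun z => (hfd z).trans (by norm_num)
  have hgd8 : ∀ z, (rst g z e).natDegree ≤ 8 := fun z => (hgd z).trans (by norm_num)
  have hgd4 : ∀ z, (rst g z e).natDegree ≤ 4 := fun z => (hgd z).trans (by norm_num)
  by_cases h1 : Ψg (cf a f e) = 0
  · by_cases h2 : Tg (cq3 a f e) = 0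
    · exact (wtree8 hb hg hgd8).mono' fun z u h => ⟨So_cq3_T hf hfd8 h1 h2 z u, h⟩
    by_cases h3 : Hg (cf b g e) = 0
    · exact (wtree8 ha hf hfd8).mono' fun z u h => ⟨h, So_H hgd8 h3 z u⟩
    exact (Gw44 (c := cq3 a f e) (Dl_mono (by norm_num) (cq3_Dl a f e)) (cf_Dl hgd4) ha
      (mul_ne_zero (by norm_num) (pow_ne_zero 2 hf)) h2 hb (cf_zero_ne hg) h3).mono'
      fun z u h => ⟨So_of_cq3 hfd8 h1 h.1, fun _ => h.2⟩
  · exact (Gw62 (cf_Dl hfd) (cf_Dl hgd) ha (cf_zero_ne hf) h1 hb (cf_zero_ne hg)).mono'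
      fun z u h => ⟨fun _ => h.1, fun _ => h.2⟩

/-- one condition of degree at most four and two of degree at most two -/
theorem wtree422 {a f b g c h : MvPolynomial α K} (ha : a ≠ 0) (hf : f ≠ 0) (hb : b ≠ 0)
    (hg : g ≠ 0) (hc : c ≠ 0) (hh : h ≠ 0)
    (hfd : ∀ z, (rst f z e).natDegree ≤ 4) (hgd : ∀ z, (rst g z e).natDegree ≤ 2)
    (hhd : ∀ z, (rst h z e).natDegree ≤ 2) :
    Gw.{u, w, t} (fun z u => So a f e z u ∧ So b g e z u ∧ So c h e z u) := by
  have hfd8 : ∀ z, (rst f z e).natDegree ≤ 8 := fun z => (hfd z).trans (by norm_num)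
  have hgd4 : ∀ z, (rst g z e).natDegree ≤ 4 := fun z => (hgd z).trans (by norm_num)
  have hhd4 : ∀ z, (rst h z e).natDegree ≤ 4 := fun z => (hhd z).trans (by norm_num)
  by_cases h1 : Tg (cf a f e) = 0
  · exact (wtree44 hb hg hc hh hgd4 hhd4).mono' fun z u h => ⟨So_T hfd8 h1 z u, h⟩
  by_cases h2 : Dg (cf b g e) = 0
  · exact (wtree44 ha hf hc hh hfd hhd4).mono' fun z u h => ⟨h.1, So_D hgd h2 z u, h.2⟩
  exact (Gw422 (cf_Dl hfd) (cf_Dl hgd) (cf_Dl hhd) ha (cf_zero_ne hf) h1 hb (cf_zero_ne hg) h2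
    hc (cf_zero_ne hh)).mono' fun z u h => ⟨fun _ => h.1, fun _ => h.2.1, fun _ => h.2.2⟩

end tree

end gm

section sys

variable {K : Type u} [Field K] [CharZero K] {α : Type w} [Fintype α] [DecidableEq α]
  {I : Type*} [Fintype I]

/-- generic weak moves for a tame system of conditions -/
theorem wtree_sys {a f : I → MvPolynomial α K} (ha : ∀ i, a i ≠ 0) (hf : ∀ i, f i ≠ 0) {j : α}
    (hT : Tame fun i => (f i).degreeOf j) :
    Gw.{u, w, t} (fun z u => ∀ i, So (a i) (f i) (Pi.single j 1) z u) := by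
  have hd : ∀ i n, (f i).degreeOf j ≤ n → ∀ z, (rst (f i) z (Pi.single j 1)).natDegree ≤ n :=
    fun i n h z => deg_rst h z
  have h0 : ∀ i, (f i).degreeOf j = 0 → ∀ z u, So (a i) (f i) (Pi.single j 1) z u :=
    fun i h z u => So_const (hd i 0 h.le z) u
  rcases tame_cases hT with h | ⟨x, h1, h⟩ | ⟨x, y, hxy, h1, h2, h⟩ | ⟨x, y, hxy, h1, h2, h⟩ |
    ⟨x, y, t, hxy, hxt, hyt, h1, h2, h3, h⟩
  · exact Gw_triv fun z u i => h0 i (h i) z u
  · refine (wtree8 (ha x) (hf x) (hd x 8 h1)).mono' fun z u k i => ?_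
    by_cases hi : i = x
    · rw [hi]; exact k
    · exact h0 i (h i hi) z u
  · refine (wtree62 (ha x) (hf x) (ha y) (hf y) (hd x 6 h1) (hd y 2 h2)).mono' fun z u k i => ?_
    by_cases hi : i = x
    · rw [hi]; exact k.1
    by_cases hi' : i = y
    · rw [hi']; exact k.2
    · exact h0 i (h i hi hi') z u
  · refine (wtree44 (ha x) (hf x) (ha y) (hf y) (hd x 4 h1) (hd y 4 h2)).mono' fun z u k i => ?_
    by_cases hi : i = x
    · rw [hi]; exact k.1
    by_cases hi' : i = y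
    · rw [hi']; exact k.2
    · exact h0 i (h i hi hi') z u
  · refine (wtree422 (ha x) (hf x) (ha y) (hf y) (ha t) (hf t) (hd x 4 h1) (hd y 2 h2)
      (hd t 2 h3)).mono' fun z u k i => ?_
    by_cases hi : i = x
    · rw [hi]; exact k.1
    by_cases hi' : i = y
    · rw [hi']; exact k.2.1
    by_cases hi'' : i = t
    · rw [hi'']; exact k.2.2
    · exact h0 i (h i hi hi' hi'') z u

end sys

end Pool.Agent.H436.CW
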